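import Mathlib
import Pool.Agent.Work.MP_787500_nt.KR.UDefs
import Pool.Agent.Work.MP_787500_nt.HP.FieldQ

/-!
The upper bound for the local Euler characteristic at 2: definitions (fixed, do not change).

`Ω` is an algebraic closure of the rational numbers, `D` a group of automorphisms (the decomposition group of a
prime above 2), `v` the valuation. `e = 2 ^ f - 1`; `rtT D e` fixes the roots of `x ^ e = 1`, `rtC D e`
moreover those of `x ^ e = 2`.
-/

set_option autoImplicit false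
set_option linter.unusedSectionVars false

namespace Pool.Agent.Work.MP_787500_nt.EF

open Pool.Agent.Work.MP_787500_nt.GP (A0 IsAct d0)
open Pool.Agent.Work.MP_787500_nt.PA (homs)
open Pool.Agent.Work.MP_787500_nt.HP (Alg)
open Pool.Agent.Work.MP_787500_nt.KR (FSys two res fullC CountsF Z1 Sm1 Smooth Opn)

universe u

/-! ## Abstract part -/

section abstract

variable {G : Type*} [Group G] (C : Subgroup G) [hC : C.Normal]

/-- the action of `G` on the functions on the normal subgroup `C` by conjugation -/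
def cj {X : Type*} (g : G) (χ : C → X) : C → X :=
  fun c => χ ⟨g⁻¹ * (c : G) * g, by simpa using hC.conj_mem (c : G) c.2 g⁻¹⟩

theorem cj_apply {X : Type*} (g : G) (χ : C → X) (c : C) :
    cj C g χ c = χ ⟨g⁻¹ * (c : G) * g, by simpa using hC.conj_mem (c : G) c.2 g⁻¹⟩ := rfl

/-- the `G`-equivariant homomorphisms from `C` to `U` whose compositions with all functionals lie in `N` -/
def eqH {U : Type*} [AddCommGroup U] (υ : G → U → U) (N : AddSubgroup (C → ZMod 2)) :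
    Set (C → U) :=
  {h | (∀ c c' : C, h (c * c') = h c + h c') ∧ (∀ (g : G) (c : C), υ g (cj C g h c) = h c) ∧
    ∀ l : U →+ ZMod 2, (fun c => l (h c)) ∈ N}

/-- the semilinear functionals: `ψ (g λ) = th g ^ r * (g ψ(λ))` for `λ` in the dual of `U` -/
def semH {U : Type*} [AddCommGroup U] (υ : G → U → U) {k : Type*} [Field k]
    (db : G →* (k ≃+* k)) (th : G → k) (r : ℕ) : Set ((U →+ ZMod 2) → k) :=
  {ψ | (∀ l l' : U →+ ZMod 2, ψ (l + l') = ψ l + ψ l') ∧
    ∀ (g : G) (l l' : U →+ ZMod 2), (∀ u, l' (υ g u) = l u) → ψ l' = th g ^ r * db g (ψ l)}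

/-- a step of a filtration of homomorphisms: `φ` maps `N` to `k`, with kernel `N'`, and is equivariant -/
structure Stp {k : Type*} [Field k] (db : G →* (k ≃+* k)) (th : G → k) (r : ℕ)
    (N N' : AddSubgroup (C → ZMod 2)) (φ : (C → ZMod 2) → k) : Prop where
  add : ∀ χ ∈ N, ∀ χ' ∈ N, φ (χ + χ') = φ χ + φ χ'
  ker : ∀ χ ∈ N, φ χ = 0 → χ ∈ N'
  zero : ∀ χ ∈ N', φ χ = 0
  surj : ∀ z, ∃ χ ∈ N, φ χ = z
  eqv : ∀ (g : G), ∀ χ ∈ N, φ (cj C g χ) = th g ^ r * db g (φ χ)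

end abstract

/-! ## Fields -/

section field

variable {Ω : Type u} [Field Ω]

/-- the field elements fixed by the subgroup `C` of `D` -/
def Fxc {D : Subgroup (Ω ≃+* Ω)} (C : Subgroup D) (x : Ω) : Prop :=
  ∀ g : D, g ∈ C → (g : Ω ≃+* Ω) x = x

/-- the elements of `D` that fix the roots of `x ^ e = 1` -/
def rtT (D : Subgroup (Ω ≃+* Ω)) (e : ℕ) : Subgroup D where
  carrier := {g | ∀ x : Ω, x ^ e = 1 → (g : Ω ≃+* Ω) x = x}
  mul_mem' := by
    intro a b ha hb x hx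
    show (a : Ω ≃+* Ω) ((b : Ω ≃+* Ω) x) = x
    rw [hb x hx, ha x hx]
  one_mem' := fun x _ => rfl
  inv_mem' := by
    intro a ha x hx
    show (a : Ω ≃+* Ω)⁻¹ x = x
    conv_lhs => rw [← ha x hx]
    exact (a : Ω ≃+* Ω).symm_apply_apply x

/-- the elements of `D` that fix the roots of `x ^ e = 1` and of `x ^ e = 2` -/
def rtC (D : Subgroup (Ω ≃+* Ω)) (e : ℕ) : Subgroup D where
  carrier := {g | (∀ x : Ω, x ^ e = 1 → (g : Ω ≃+* Ω) x = x) ∧
    ∀ x : Ω, x ^ e = 2 → (g : Ω ≃+* Ω) x = x}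
  mul_mem' := by
    rintro a b ⟨ha, ha'⟩ ⟨hb, hb'⟩
    refine ⟨fun x hx => ?_, fun x hx => ?_⟩
    · show (a : Ω ≃+* Ω) ((b : Ω ≃+* Ω) x) = x
      rw [hb x hx, ha x hx]
    · show (a : Ω ≃+* Ω) ((b : Ω ≃+* Ω) x) = x
      rw [hb' x hx, ha' x hx]
  one_mem' := ⟨fun x _ => rfl, fun x _ => rfl⟩
  inv_mem' := by
    rintro a ⟨ha, ha'⟩
    refine ⟨fun x hx => ?_, fun x hx => ?_⟩
    · show (a : Ω ≃+* Ω)⁻¹ x = x
      conv_lhs => rw [← ha x hx]
      exact (a : Ω ≃+* Ω).symm_apply_apply x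
    · show (a : Ω ≃+* Ω)⁻¹ x = x
      conv_lhs => rw [← ha' x hx]
      exact (a : Ω ≃+* Ω).symm_apply_apply x

theorem mem_rtT {D : Subgroup (Ω ≃+* Ω)} {e : ℕ} {g : D} :
    g ∈ rtT D e ↔ ∀ x : Ω, x ^ e = 1 → (g : Ω ≃+* Ω) x = x := Iff.rfl

theorem mem_rtC {D : Subgroup (Ω ≃+* Ω)} {e : ℕ} {g : D} :
    g ∈ rtC D e ↔ (∀ x : Ω, x ^ e = 1 → (g : Ω ≃+* Ω) x = x) ∧
      ∀ x : Ω, x ^ e = 2 → (g : Ω ≃+* Ω) x = x := Iff.rfl

theorem rtC_le (D : Subgroup (Ω ≃+* Ω)) (e : ℕ) : rtC D e ≤ rtT D e := fun _ h => h.1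

theorem conj_fix {a b : Ω ≃+* Ω} {x : Ω} (h : a (b⁻¹ x) = b⁻¹ x) : (b * a * b⁻¹) x = x := by
  show b (a (b⁻¹ x)) = x
  rw [h]
  exact b.apply_symm_apply x

instance rtT_normal (D : Subgroup (Ω ≃+* Ω)) (e : ℕ) : (rtT D e).Normal where
  conj_mem a ha b x hx := by
    refine conj_fix (ha _ ?_)
    rw [← map_pow, hx, map_one]

instance rtC_normal (D : Subgroup (Ω ≃+* Ω)) (e : ℕ) : (rtC D e).Normal where
  conj_mem a ha b := by
    refine ⟨fun x hx => conj_fix (ha.1 _ ?_), fun x hx => conj_fix (ha.2 _ ?_)⟩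
    · rw [← map_pow, hx, map_one]
    · rw [← map_pow, hx, map_ofNat]

variable {Γ : Type*} [LinearOrderedCommGroupWithZero Γ]

/-- The valuation at a prime above 2 and its decomposition group `D`: `v` is invariant, `D` is closed, the
fixed field of `D` has value group generated by 2 and residue field with 2 elements, the value group is torsion
over the subgroup generated by 2, the residue field is algebraic. -/
structure VD (D : Subgroup (Ω ≃+* Ω)) (v : Valuation Ω Γ) : Prop where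
  inv : ∀ g ∈ D, ∀ x, v (g x) = v x
  two : v 2 < 1
  imm : ∀ x, x ≠ 0 → (∀ g ∈ D, g x = x) → ∃ k : ℤ, v (x * 2 ^ k - 1) < 1
  cls : ∀ g : Ω ≃+* Ω, (∀ x, (∀ h ∈ D, h x = x) → g x = x) → g ∈ D
  tor : ∀ x, x ≠ 0 → ∃ n : ℕ, 0 < n ∧ ∃ k : ℤ, v x ^ n = v 2 ^ k
  res : ∀ x, v x = 1 → ∃ n : ℕ, Odd n ∧ v (x ^ n - 1) < 1

/-- Reduction of the elements fixed by `C`: a field `k`, the reduction map, the action of `D` on `k`. -/
structure Rdc {D : Subgroup (Ω ≃+* Ω)} (v : Valuation Ω Γ) (C : Subgroup D) {k : Type*} [Field k]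
    (red : Ω → k) (db : D →* (k ≃+* k)) : Prop where
  add : ∀ x y, Fxc C x → Fxc C y → v x ≤ 1 → v y ≤ 1 → red (x + y) = red x + red y
  mul : ∀ x y, Fxc C x → Fxc C y → v x ≤ 1 → v y ≤ 1 → red (x * y) = red x * red y
  one : red 1 = 1
  ker : ∀ x, Fxc C x → v x ≤ 1 → (red x = 0 ↔ v x < 1)
  surj : ∀ z, ∃ x, Fxc C x ∧ v x ≤ 1 ∧ red x = z
  eqv : ∀ (g : D) (x : Ω), Fxc C x → v x ≤ 1 → red ((g : Ω ≃+* Ω) x) = db g (red x)

section kum

variable [IsAlgClosed Ω]

/-- a square root -/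
noncomputable def rt (a : Ω) : Ω := (IsAlgClosed.exists_pow_nat_eq a (n := 2) (by norm_num)).choose

theorem rt_sq (a : Ω) : rt a ^ 2 = a :=
  (IsAlgClosed.exists_pow_nat_eq a (n := 2) (by norm_num)).choose_spec

open scoped Classical in
/-- the Kummer character of `a` -/
noncomputable def kum {D : Subgroup (Ω ≃+* Ω)} (C : Subgroup D) (a : Ω) : C → ZMod 2 :=
  fun c => if ((c : D) : Ω ≃+* Ω) (rt a) = rt a then 0 else 1

/-- the group generated by the Kummer characters of all elements fixed by `C` -/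
def lw {D : Subgroup (Ω ≃+* Ω)} (C : Subgroup D) : AddSubgroup (C → ZMod 2) :=
  AddSubgroup.closure {χ | ∃ a, Fxc C a ∧ a ≠ 0 ∧ χ = kum C a}

/-- the group generated by the Kummer characters of all units fixed by `C` -/
def lu {D : Subgroup (Ω ≃+* Ω)} (v : Valuation Ω Γ) (C : Subgroup D) : AddSubgroup (C → ZMod 2) :=
  AddSubgroup.closure {χ | ∃ a, Fxc C a ∧ v a = 1 ∧ χ = kum C a}

/-- the group generated by the Kummer characters of the elements `a` fixed by `C` with `v (a - 1) ≤ γ` -/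
def lv {D : Subgroup (Ω ≃+* Ω)} (v : Valuation Ω Γ) (C : Subgroup D) (γ : Γ) :
    AddSubgroup (C → ZMod 2) :=
  AddSubgroup.closure {χ | ∃ a, Fxc C a ∧ v (a - 1) ≤ γ ∧ χ = kum C a}

/-- the smooth homomorphisms from `C` to `ZMod 2` -/
def lm {D : Subgroup (Ω ≃+* Ω)} (C : Subgroup D) : AddSubgroup (C → ZMod 2) :=
  (homs (two (res (fullC D) C)) (⊤ : Subgroup C)).toAddSubgroup

end kum

end field

end Pool.Agent.Work.MP_787500_nt.EF
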