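import Mathlib
import Pool.Agent.Work.MP_787500_nt.EF.Defs

/-!
# Module Chain (size M, abstract): equivariant homomorphisms and a filtration

`eqH C υ N` = equivariant homomorphisms `h : C → U` with `l ∘ h ∈ N` for all functionals `l`.

* `eqH_triv` (a step of index at most 2 changes nothing). Let `h ∈ eqH C υ N`. Put `q l = 0` if `l ∘ h ∈ N'`, else `1`
  (`l : U →+ ZMod 2`). `q` is additive because `N'` has index 1 or 2 in `N`. `q (l ∘ υ g) = q l`: indeed
  `(l ∘ υ g) ∘ h = cj g⁻¹ (l ∘ h)` (from `υ g (h (g⁻¹ c g)) = h c`, i.e. `h (g c g⁻¹) = υ g (h c)`), and `N`, `N'` are stable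
  under all `cj g`. `U` is a finite vector space over `ZMod 2`, so there is `u₀ ∈ U` with `q l = l u₀` for all `l` (reflexivity:
  `Module.evalEquiv`, or a basis). Then `l (υ g u₀) = l u₀` for all `l`, so `υ g u₀ = u₀` for all `g` (functionals separate
  points), so `u₀ = 0` by `hfix`, so `q = 0`.
* `eqH_step`: for `h ∈ eqH C υ N` put `ψ l = φ (l ∘ h)`. It lies in `semH υ db th r`: additive by `Stp.add`; if
  `l' (υ g u) = l u` for all `u` then `l' ∘ h = cj C g (l ∘ h)` (because `h c = υ g (cj C g h c)`), so `Stp.eqv` applies. If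
  `h, h₁` have the same `ψ` then `h - h₁ ∈ eqH C υ N'` by `Stp.ker` (`φ (χ - χ') = 0`; in `C → ZMod 2` one has
  `-χ' = χ'`, so `φ (-χ') = φ χ'` and `φ (χ + χ') = φ χ + φ χ' = 2 φ χ = 0` since `φ (χ + χ) = φ 0 = 0` and `φ(χ+χ) = 2 φ χ`).
  So the fibres of `h ↦ ψ` have at most `card (eqH C υ N')` elements (translate by one element of the fibre). All sets are
  finite: `h` is determined by the functions `l ∘ h ∈ N`, `N` is finite, the dual of `U` is finite.
* `eqH_chain`: induction on `L` (or downward induction on `j` for `N j`): at `j = L`, `N L = ⊥` and `eqH = {0}`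
  (functionals separate points), card 1.
-/

set_option autoImplicit false
set_option linter.unusedSectionVars false

namespace Pool.Agent.Work.MP_787500_nt.EF

open Pool.Agent.Work.MP_787500_nt.GP (A0 IsAct d0)

variable {G : Type*} [Group G] {C : Subgroup G} [C.Normal] {U : Type*} [AddCommGroup U] [Finite U]
  {υ : G → U → U}

private theorem refl_aux {U : Type*} [AddCommGroup U] [Finite U] (h2 : ∀ u : U, u + u = 0)
    (q : (U →+ ZMod 2) → ZMod 2) (hq : ∀ l l', q (l + l') = q l + q l') :
    ∃ u₀ : U, ∀ l, q l = l u₀ := by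
  classical
  letI : Module (ZMod 2) U := AddCommGroup.zmodModule (by intro x; rw [two_nsmul]; exact h2 x)
  haveI : Module.Finite (ZMod 2) U := Module.Finite.of_finite
  let Q : Module.Dual (ZMod 2) U →+ ZMod 2 := AddMonoidHom.mk' (fun f => q f.toAddMonoidHom)
    (fun a b => hq a.toAddMonoidHom b.toAddMonoidHom)
  obtain ⟨u₀, hu⟩ := (Module.evalEquiv (ZMod 2) U).surjective (Q.toZModLinearMap 2)
  refine ⟨u₀, fun l => ?_⟩
  have h1 := LinearMap.congr_fun hu (l.toZModLinearMap 2)
  exact h1.symm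

private theorem sep_aux {U : Type*} [AddCommGroup U] [Finite U] (h2 : ∀ u : U, u + u = 0)
    (u : U) (h : ∀ l : U →+ ZMod 2, l u = 0) : u = 0 := by
  classical
  letI : Module (ZMod 2) U := AddCommGroup.zmodModule (by intro x; rw [two_nsmul]; exact h2 x)
  haveI : Module.Finite (ZMod 2) U := Module.Finite.of_finite
  exact (Module.forall_dual_apply_eq_zero_iff (ZMod 2) u).1 (fun f => h f.toAddMonoidHom)

private theorem sep_aux' {U : Type*} [AddCommGroup U] [Finite U] (h2 : ∀ u : U, u + u = 0)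
    (u v : U) (h : ∀ l : U →+ ZMod 2, l u = l v) : u = v := by
  refine sub_eq_zero.1 (sep_aux h2 _ (fun l => ?_))
  rw [map_sub, h l, sub_self]

private theorem zm2 (a : ZMod 2) : a + a = 0 := by
  revert a; decide

private theorem idx_aux {C : Type*} {N N' : AddSubgroup (C → ZMod 2)}
    (hidx : N'.relIndex N = 1 ∨ N'.relIndex N = 2)
    {x y : C → ZMod 2} (hx : x ∈ N) (hy : y ∈ N) (hx' : x ∉ N') (hy' : y ∉ N') : x + y ∈ N' := by
  rcases hidx with h | h
  · exact absurd (AddSubgroup.relIndex_eq_one.1 h hx) hx'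
  · have h1 := AddSubgroup.add_mem_iff_of_index_two (H := N'.addSubgroupOf N) h
      (a := ⟨x, hx⟩) (b := ⟨y, hy⟩)
    simp only [AddSubgroup.mem_addSubgroupOf] at h1
    have h2 : x + y ∈ N' ↔ (x ∈ N' ↔ y ∈ N') := h1
    exact h2.2 ⟨fun h => absurd h hx', fun h => absurd h hy'⟩

private theorem cj_cj {G : Type*} [Group G] {C : Subgroup G} [C.Normal] {X : Type*} (g : G)
    (χ : C → X) : cj C g (cj C g⁻¹ χ) = χ := by
  funext c
  rw [cj_apply, cj_apply]
  congr 1
  apply Subtype.ext
  simp only [inv_inv]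
  group

private theorem comp_aux {C : Subgroup G} [C.Normal] {h : C → U}
    (hh : ∀ (g : G) (c : C), υ g (cj C g h c) = h c) (l : U →+ ZMod 2) (g : G) :
    (fun c => l (υ g (h c))) = cj C g⁻¹ (fun c => l (h c)) := by
  funext c
  have h1 : υ g (h c) = cj C g⁻¹ h c := by
    have h3 : cj C g (cj C g⁻¹ h) = h := cj_cj g h
    have h4 := hh g ⟨g⁻¹⁻¹ * (c : G) * g⁻¹, by
      simpa using (inferInstance : C.Normal).conj_mem (c : G) c.2 g⟩
    have h5 : cj C g h ⟨g⁻¹⁻¹ * (c : G) * g⁻¹, by
      simpa using (inferInstance : C.Normal).conj_mem (c : G) c.2 g⟩ = h c := by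
      rw [cj_apply]
      congr 1
      apply Subtype.ext
      show g⁻¹ * (g⁻¹⁻¹ * (c : G) * g⁻¹) * g = c
      group
    rw [h5] at h4
    rw [h4, cj_apply]
  show l (υ g (h c)) = l (h _)
  rw [h1, cj_apply]

theorem eqH_triv (hact : IsAct υ) (h2 : ∀ u : U, u + u = 0) (hfix : ∀ u, (∀ g, υ g u = u) → u = 0)
    {N N' : AddSubgroup (C → ZMod 2)} (hle : N' ≤ N) (hN : ∀ g, ∀ χ ∈ N, cj C g χ ∈ N)
    (hN' : ∀ g, ∀ χ ∈ N', cj C g χ ∈ N') (hidx : N'.relIndex N = 1 ∨ N'.relIndex N = 2)
    {h : C → U} (hh : h ∈ eqH C υ N) : h ∈ eqH C υ N' := by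
  classical
  refine ⟨hh.1, hh.2.1, ?_⟩
  let q : (U →+ ZMod 2) → ZMod 2 := fun l => if (fun c => l (h c)) ∈ N' then 0 else 1
  have hq : ∀ l l', q (l + l') = q l + q l' := by
    intro l l'
    have hsum : (fun c => (l + l') (h c)) = (fun c => l (h c)) + (fun c => l' (h c)) := rfl
    have hl := hh.2.2 l
    have hl' := hh.2.2 l'
    simp only [q, hsum]
    by_cases h1 : (fun c => l (h c)) ∈ N'
    · by_cases h3 : (fun c => l' (h c)) ∈ N'
      · rw [if_pos (N'.add_mem h1 h3), if_pos h1, if_pos h3, add_zero]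
      · rw [if_neg (fun h4 => h3 ?_), if_pos h1, if_neg h3, zero_add]
        have := N'.sub_mem h4 h1
        rwa [add_sub_cancel_left] at this
    · by_cases h3 : (fun c => l' (h c)) ∈ N'
      · rw [if_neg (fun h4 => h1 ?_), if_neg h1, if_pos h3, add_zero]
        have := N'.sub_mem h4 h3
        rwa [add_sub_cancel_right] at this
      · rw [if_pos (idx_aux hidx hl hl' h1 h3), if_neg h1, if_neg h3]
        exact (zm2 1).symm
  obtain ⟨u₀, hu⟩ := refl_aux h2 q hq
  have hqg : ∀ (l : U →+ ZMod 2) (g : G), l (υ g u₀) = l u₀ := by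
    intro l g
    have h1 := hu (AddMonoidHom.mk' (fun u => l (υ g u)) (fun a b => by rw [hact.add, map_add]))
    have h3 := hu l
    have h4 : q (AddMonoidHom.mk' (fun u => l (υ g u)) (fun a b => by rw [hact.add, map_add]))
        = q l := by
      have h5 : (fun c => l (υ g (h c))) = cj C g⁻¹ (fun c => l (h c)) := comp_aux hh.2.1 l g
      have h6 : ((fun c => l (υ g (h c))) ∈ N') ↔ ((fun c => l (h c)) ∈ N') := by
        rw [h5]
        constructor
        · intro h7
          have := hN' g _ h7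
          rwa [cj_cj] at this
        · intro h7
          exact hN' _ _ h7
      show (if (fun c => l (υ g (h c))) ∈ N' then (0 : ZMod 2) else 1) =
        if (fun c => l (h c)) ∈ N' then (0 : ZMod 2) else 1
      simp only [h6]
    rw [← h3, ← h4, h1]
    rfl
  have hz : u₀ = 0 := hfix u₀ (fun g => sep_aux' h2 _ _ (fun l => hqg l g))
  intro l
  have h1 := hu l
  rw [hz, map_zero] at h1
  by_contra hcon
  simp only [q, if_neg hcon] at h1
  exact one_ne_zero h1

private theorem eqH_finite {N : AddSubgroup (C → ZMod 2)} (h2 : ∀ u : U, u + u = 0)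
    (hfin : (N : Set (C → ZMod 2)).Finite) : Finite (eqH C υ N) := by
  haveI : Finite N := hfin.to_subtype
  haveI : Finite (U →+ ZMod 2) := DFunLike.finite _
  refine Finite.of_injective (β := (U →+ ZMod 2) → N)
    (fun h l => ⟨fun c => l (h.1 c), h.2.2.2 l⟩) ?_
  intro a b hab
  apply Subtype.ext
  funext c
  refine sep_aux' h2 _ _ (fun l => ?_)
  have h1 := congrFun hab l
  exact congrFun (congrArg Subtype.val h1) c

private theorem act_sub (hact : IsAct υ) (g : G) (a b : U) : υ g (a - b) = υ g a - υ g b := by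
  rw [eq_sub_iff_add_eq, ← hact.add, sub_add_cancel]

private theorem act_zero (hact : IsAct υ) (g : G) : υ g 0 = 0 := by
  have := hact.add g 0 0
  rw [add_zero] at this
  exact left_eq_add.1 this

theorem eqH_step (hact : IsAct υ) (h2 : ∀ u : U, u + u = 0) {k : Type*} [Field k] [Finite k]
    {db : G →* (k ≃+* k)} {th : G → k} {r : ℕ} {N N' : AddSubgroup (C → ZMod 2)}
    {φ : (C → ZMod 2) → k} (hle : N' ≤ N) (hfin : (N : Set (C → ZMod 2)).Finite)
    (hN : ∀ g, ∀ χ ∈ N, cj C g χ ∈ N) (hφ : Stp C db th r N N' φ) :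
    Nat.card (eqH C υ N) ≤ Nat.card (eqH C υ N') * Nat.card (semH υ db th r) := by
  classical
  haveI : Finite (eqH C υ N) := eqH_finite h2 hfin
  haveI : Finite (eqH C υ N') := eqH_finite h2 (hfin.subset hle)
  haveI : Finite (U →+ ZMod 2) := DFunLike.finite _
  haveI : Nonempty (eqH C υ N) := ⟨⟨fun _ => 0, fun _ _ => by simp,
    fun g c => act_zero hact g, fun l => by
      have : (fun _ : C => l (0 : U)) = (0 : C → ZMod 2) := by
        funext c; simp
      rw [this]
      exact N.zero_mem⟩⟩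
  let ψ : eqH C υ N → semH υ db th r := fun h => ⟨fun l => φ (fun c => l (h.1 c)),
    fun l l' => hφ.add _ (h.2.2.2 l) _ (h.2.2.2 l'), fun g l l' hl => by
      have h1 : (fun c => l' (h.1 c)) = cj C g (fun c => l (h.1 c)) := by
        funext c
        show l' (h.1 c) = l (cj C g h.1 c)
        rw [← hl, h.2.2.1 g c]
      show φ (fun c => l' (h.1 c)) = th g ^ r * db g (φ (fun c => l (h.1 c)))
      rw [h1]
      exact hφ.eqv g _ (h.2.2.2 l)⟩
  have hψ : ∀ a b : eqH C υ N, ψ a = ψ b → (fun c => a.1 c - b.1 c) ∈ eqH C υ N' := by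
    intro a b hab
    refine ⟨fun c c' => ?_, fun g c => ?_, fun l => ?_⟩
    · show a.1 (c * c') - b.1 (c * c') = a.1 c - b.1 c + (a.1 c' - b.1 c')
      rw [a.2.1, b.2.1]
      abel
    · show υ g (cj C g a.1 c - cj C g b.1 c) = a.1 c - b.1 c
      rw [act_sub hact, a.2.2.1, b.2.2.1]
    · have h1 : φ (fun c => l (a.1 c)) = φ (fun c => l (b.1 c)) :=
        congrFun (congrArg Subtype.val hab) l
      have h3 : (fun c => l (a.1 c - b.1 c)) = (fun c => l (a.1 c)) + (fun c => l (b.1 c)) := by
        funext c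
        show l (a.1 c - b.1 c) = l (a.1 c) + l (b.1 c)
        rw [map_sub, sub_eq_add_neg, ZModModule.neg_eq_self]
      rw [h3]
      have ha := a.2.2.2 l
      have hb := b.2.2.2 l
      refine hφ.ker _ (N.add_mem ha hb) ?_
      rw [hφ.add _ ha _ hb, h1, ← hφ.add _ hb _ hb]
      have h4 : (fun c => l (b.1 c)) + (fun c => l (b.1 c)) = (0 : C → ZMod 2) := by
        funext c
        exact zm2 _
      rw [h4]
      exact hφ.zero _ N'.zero_mem
  rw [← Nat.card_prod]
  refine Nat.card_le_card_of_injective (fun h : eqH C υ N =>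
    ((⟨fun c => h.1 c - (Function.invFun ψ (ψ h)).1 c, hψ _ _
      (Function.invFun_eq ⟨h, rfl⟩).symm⟩ : eqH C υ N'), ψ h)) ?_
  intro a b hab
  simp only [Prod.mk.injEq, Subtype.mk.injEq] at hab
  obtain ⟨h1, h3⟩ := hab
  rw [h3] at h1
  apply Subtype.ext
  funext c
  exact sub_left_injective (congrFun h1 c)

theorem eqH_chain (hact : IsAct υ) (h2 : ∀ u : U, u + u = 0)
    (hfix : ∀ u, (∀ g, υ g u = u) → u = 0) {k : Type*} [Field k] [Finite k]
    {db : G →* (k ≃+* k)} {th : G → k} {N : ℕ → AddSubgroup (C → ZMod 2)} {L : ℕ} {S : Finset ℕ}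
    {r : ℕ → ℕ} {φ : ℕ → (C → ZMod 2) → k} (hfin : (N 0 : Set (C → ZMod 2)).Finite)
    (hle : ∀ j < L, N (j + 1) ≤ N j) (hN : ∀ j ≤ L, ∀ g, ∀ χ ∈ N j, cj C g χ ∈ N j)
    (hS : ∀ j ∈ S, j < L ∧ Stp C db th (r j) (N j) (N (j + 1)) (φ j))
    (hT : ∀ j < L, j ∉ S → (N (j + 1)).relIndex (N j) = 1 ∨ (N (j + 1)).relIndex (N j) = 2)
    (hL : N L = ⊥) :
    Nat.card (eqH C υ (N 0)) ≤ ∏ j ∈ S, Nat.card (semH υ db th (r j)) := by
  classical
  have hle0 : ∀ j ≤ L, N j ≤ N 0 := by
    intro j
    induction j with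
    | zero => exact fun _ => le_rfl
    | succ j ih => exact fun hj => (hle j (by omega)).trans (ih (by omega))
  have hfinj : ∀ j ≤ L, (N j : Set (C → ZMod 2)).Finite := fun j hj =>
    hfin.subset (hle0 j hj)
  have key : ∀ m ≤ L, Nat.card (eqH C υ (N (L - m))) ≤
      ∏ j ∈ S.filter (fun j => L - m ≤ j), Nat.card (semH υ db th (r j)) := by
    intro m
    induction m with
    | zero =>
      intro _
      have h1 : S.filter (fun j => L - 0 ≤ j) = ∅ := by
        rw [Finset.filter_eq_empty_iff]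
        intro j hj
        have := (hS j hj).1
        omega
      rw [h1, Finset.prod_empty, Nat.sub_zero, hL]
      haveI : Subsingleton (eqH C υ (⊥ : AddSubgroup (C → ZMod 2))) := by
        refine ⟨fun a b => Subtype.ext (funext fun c => sep_aux' h2 _ _ (fun l => ?_))⟩
        have ha := AddSubgroup.mem_bot.1 (a.2.2.2 l)
        have hb := AddSubgroup.mem_bot.1 (b.2.2.2 l)
        exact (congrFun ha c).trans (congrFun hb c).symm
      exact Finite.card_le_one_iff_subsingleton.2 inferInstance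
    | succ m ih =>
      intro hm
      have ih' := ih (by omega)
      have hj : L - m = (L - (m + 1)) + 1 := by omega
      rw [hj] at ih'
      generalize hjj : L - (m + 1) = j at ih' ⊢
      have hjL : j < L := by omega
      by_cases hjS : j ∈ S
      · have h1 : S.filter (fun i => j ≤ i) = insert j (S.filter (fun i => j + 1 ≤ i)) := by
          ext i
          simp only [Finset.mem_filter, Finset.mem_insert]
          constructor
          · rintro ⟨h3, h4⟩
            rcases Nat.eq_or_lt_of_le h4 with h5 | h5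
            · exact Or.inl h5.symm
            · exact Or.inr ⟨h3, h5⟩
          · rintro (h3 | ⟨h3, h4⟩)
            · exact ⟨h3 ▸ hjS, h3.ge⟩
            · exact ⟨h3, by omega⟩
        rw [h1, Finset.prod_insert (by simp)]
        refine (eqH_step hact h2 (hle j hjL) (hfinj j hjL.le) (hN j hjL.le) (hS j hjS).2).trans ?_
        rw [mul_comm]
        exact Nat.mul_le_mul_left _ ih'
      · have h1 : S.filter (fun i => j ≤ i) = S.filter (fun i => j + 1 ≤ i) := by
          ext i
          simp only [Finset.mem_filter]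
          constructor
          · rintro ⟨h3, h4⟩
            refine ⟨h3, ?_⟩
            rcases Nat.eq_or_lt_of_le h4 with h5 | h5
            · exact absurd (h5 ▸ h3) hjS
            · exact h5
          · rintro ⟨h3, h4⟩
            exact ⟨h3, by omega⟩
        rw [h1]
        refine le_trans ?_ ih'
        haveI : Finite (eqH C υ (N (j + 1))) := eqH_finite h2 (hfinj (j + 1) (by omega))
        refine Nat.card_mono (Set.toFinite _) ?_
        intro h hh
        exact eqH_triv hact h2 hfix (hle j hjL) (hN j hjL.le) (hN (j + 1) (by omega))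
          (hT j hjL hjS) hh
  have h1 := key L le_rfl
  rw [Nat.sub_self] at h1
  rwa [Finset.filter_true_of_mem (fun j _ => Nat.zero_le j)] at h1

end Pool.Agent.Work.MP_787500_nt.EF
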