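import Mathlib
import Pool.Agent.Work.MP_787500_nt.EF.Defs

/-!
# Module Exp (size M-L): the fixed field of `rtC D e` is the tame extension of the fixed field of `D`

`e = 2 ^ f - 1`, `f ≥ 1`, `ζ` a primitive `e`-th root of unity, `π ^ e = 2`. CLAIM: every `x ≠ 0` fixed by `C = rtC D e` is
`π ^ k * ζ ^ j * (1 + small)`.

(0) Let `k₀` be the subfield of `Ω` fixed by `D` (`FixedPoints.subfield D Ω`, or an explicit `Subfield`). `Ω` is algebraic over `k₀`
(`halg`), algebraically closed, characteristic 0, so `IsGalois k₀ Ω`; an automorphism `σ : Ω ≃ₐ[k₀] Ω` lies in `D` by `VD.cls`; if it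
fixes `ζ` and `π` it lies in `C` (roots of `x ^ e = 1` are powers of `ζ`, roots of `x ^ e = 2` are `π ζ ^ i`). So `x` is fixed by
`(k₀⟮ζ, π⟯).fixingSubgroup`, so `x ∈ k₀⟮ζ, π⟯` (`InfiniteGalois.fixedField_fixingSubgroup`).
(1) `g ζ = ζ ^ (2 ^ j)` for some `j < f`, for `g ∈ D`. Reduction is injective on `e`-th roots of unity: if `v (ζ ^ i - 1) < 1` then
`ζ ^ i = 1` (`∏_{0 < i < e} (1 - ζ ^ i) = e`, `v e = 1` because `e` is odd and `v 2 < 1`; each factor has `v ≤ 1`). Put
`Q(X) = ∏_{j < f} (X - ζ ^ (2 ^ j))`, coefficients `c_i`, `v c_i ≤ 1`. `c_i ^ 2 ≡ c_i` (squaring permutes the `ζ ^ (2 ^ j)` as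
`ζ ^ (2 ^ f) = ζ`, and `(a + b) ^ 2 ≡ a ^ 2 + b ^ 2` modulo `v < 1`; or work in the residue field `κ` of `v`, where `Q` is a polynomial fixed by
Frobenius), so `c_i ≡ 0` or `1`, so `g c_i ≡ c_i`, so `Q(g ζ) ≡ (g Q)(g ζ) = 0`, so some factor `g ζ - ζ ^ (2 ^ j)` has `v < 1`, so it
is 0. Hence the coefficients `c_i` are fixed by `D` (`g` permutes the `ζ ^ (2 ^ j)`): `Q ∈ k₀[X]` is monic of degree `f`, `Q(ζ) = 0`.
(2) So `k₀⟮ζ⟯` = all `∑_{j < f} a_j ζ ^ j`, `a_j ∈ k₀`, and `k₀⟮ζ, π⟯` = all `∑_{i < e} y_i π ^ i`, `y_i ∈ k₀⟮ζ⟯` (`π ^ e = 2`).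
(3) `y = ∑ a_j ζ ^ j ≠ 0`: by `VD.imm` `v a_j` is 0 or a power of `v 2`; let `v 2 ^ m` be the largest; divide by `2 ^ m`: all `v a_j ≤ 1`, and
`a_j ≡ 0` or `1`, not all `≡ 0`. Then `v y = 1` and `y ≡ ζ ^ i` for some `i`: in `κ` the elements `∑ ε_j ζ ^ j` (`ε_j = 0, 1`) form
the field `F₂(ζ)`, where `1, ζ, .., ζ ^ (f - 1)` are independent because the `e + 1 = 2 ^ f` elements `0, ζ ^ i` are distinct in it, so
`|F₂(ζ)| ≥ 2 ^ f`; so it has exactly `2 ^ f` elements `0, ζ ^ i`.
(4) `x = ∑ y_i π ^ i`: `v (y_i π ^ i) = v π ^ (e m_i + i)` or 0: distinct values for distinct `i` (`v π < 1`), so one term dominates: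
`x = y_i π ^ i (1 + small) = 2 ^ m ζ ^ j π ^ i (1 + small) = π ^ (e m + i) ζ ^ j (1 + small)`.

You may use a residue field of `v` or congruences in `Ω`. `exp_T` is the same for the group `rtT D e` and the field `k₀⟮ζ⟯` (step (3)).
-/

set_option autoImplicit false
set_option linter.unusedSectionVars false

namespace Pool.Agent.Work.MP_787500_nt.EF

open Pool.Agent.Work.MP_787500_nt.HP (Alg)

universe u

variable {Ω : Type u} [Field Ω] [CharZero Ω] [IsAlgClosed Ω] {Γ : Type*}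
  [LinearOrderedCommGroupWithZero Γ] {D : Subgroup (Ω ≃+* Ω)} {v : Valuation Ω Γ}

/-! ### the residue field -/

private theorem res_zero {x : v.valuationSubring} :
    IsLocalRing.residue v.valuationSubring x = 0 ↔ v (x : Ω) < 1 := by
  have hx : v (x : Ω) ≤ 1 := x.2
  rw [IsLocalRing.residue_eq_zero_iff, IsLocalRing.mem_maximalIdeal, mem_nonunits_iff]
  constructor
  · intro h
    refine lt_of_le_of_ne hx fun h1 => h ?_
    have hx0 : (x : Ω) ≠ 0 := by
      intro h0
      rw [h0, map_zero] at h1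
      exact zero_ne_one h1
    have h2 : v (x : Ω)⁻¹ ≤ 1 := by rw [map_inv₀, h1, inv_one]
    refine ⟨⟨x, ⟨(x : Ω)⁻¹, h2⟩, ?_, ?_⟩, rfl⟩
    · apply Subtype.ext
      exact mul_inv_cancel₀ hx0
    · apply Subtype.ext
      exact inv_mul_cancel₀ hx0
  · rintro h ⟨y, hy⟩
    have h1 : (x : Ω) * ((y⁻¹ : (v.valuationSubring)ˣ) : v.valuationSubring) = 1 := by
      have h2 := y.mul_inv
      rw [hy] at h2
      exact congrArg Subtype.val h2
    have h3 : v (((y⁻¹ : (v.valuationSubring)ˣ) : v.valuationSubring) : Ω) ≤ 1 :=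
      ((y⁻¹ : (v.valuationSubring)ˣ) : v.valuationSubring).2
    have h4 := congrArg v h1
    rw [map_mul, map_one] at h4
    have h5 : v (x : Ω) * v (((y⁻¹ : (v.valuationSubring)ˣ) : v.valuationSubring) : Ω) < 1 :=
      lt_of_le_of_lt (mul_le_of_le_one_right' h3) h
    rw [h4] at h5
    exact lt_irrefl _ h5

private theorem res_eq {x y : v.valuationSubring} :
    IsLocalRing.residue v.valuationSubring x = IsLocalRing.residue v.valuationSubring y ↔
      v ((x : Ω) - y) < 1 := by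
  rw [← sub_eq_zero, ← map_sub, res_zero]
  rfl

private theorem res_two (hv : v 2 < 1) : (2 : IsLocalRing.ResidueField v.valuationSubring) = 0 := by
  have h1 : IsLocalRing.residue v.valuationSubring 2 = 0 := by
    rw [res_zero]
    exact hv
  rwa [map_ofNat] at h1

private theorem res_charP (hv : v 2 < 1) : CharP (IsLocalRing.ResidueField v.valuationSubring) 2 := by
  have h := res_two hv
  exact CharTwo.of_one_ne_zero_of_two_eq_zero one_ne_zero h

private theorem v_root {n : ℕ} (hn : n ≠ 0) {x : Ω} (hx : x ^ n = 1) : v x = 1 := by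
  have h1 : v x ^ n = 1 := by rw [← map_pow, hx, map_one]
  exact (pow_eq_one_iff.1 h1).resolve_right hn

/-- reduction is injective on roots of unity of odd order -/
theorem root_inj (hv : v 2 < 1) {n : ℕ} (hn : Odd n) {x : Ω} (hx : x ^ n = 1) (h : v (x - 1) < 1) :
    x = 1 := by
  by_contra hne
  have hvx : v x = 1 := v_root hn.pos.ne' hx
  have hgeom : ∑ i ∈ Finset.range n, x ^ i = 0 := by
    have h1 := mul_neg_geom_sum x n
    rw [hx, sub_self] at h1
    exact (mul_eq_zero.1 h1).resolve_left (sub_ne_zero.2 (Ne.symm hne))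
  have := res_charP hv
  set X : v.valuationSubring := ⟨x, hvx.le⟩ with hX
  have h1 : IsLocalRing.residue v.valuationSubring X = 1 := by
    rw [← map_one (IsLocalRing.residue v.valuationSubring), res_eq]
    exact h
  have h2 : ∑ i ∈ Finset.range n, X ^ i = 0 := by
    apply Subtype.ext
    push_cast
    exact hgeom
  have h3 := congrArg (IsLocalRing.residue v.valuationSubring) h2
  rw [map_sum, map_zero] at h3
  simp only [map_pow, h1, one_pow, Finset.sum_const, Finset.card_range, nsmul_eq_mul, mul_one] at h3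
  obtain ⟨k, hk⟩ := hn
  rw [hk] at h3
  push_cast at h3
  rw [res_two hv, zero_mul, zero_add] at h3
  exact one_ne_zero h3

private theorem root_inj' (hv : v 2 < 1) {n : ℕ} (hn : Odd n) {x y : Ω} (hx : x ^ n = 1) (hy : y ^ n = 1)
    (h : v (x - y) < 1) : x = y := by
  have hvy : v y = 1 := v_root hn.pos.ne' hy
  have hy0 : y ≠ 0 := by
    rintro rfl
    rw [map_zero] at hvy
    exact zero_ne_one hvy
  have h1 : x * y⁻¹ = 1 := by
    refine root_inj hv hn ?_ ?_
    · rw [mul_pow, inv_pow, hx, hy]; simp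
    · have h2 : x * y⁻¹ - 1 = (x - y) * y⁻¹ := by field_simp
      rw [h2, map_mul, map_inv₀, hvy, inv_one, mul_one]
      exact h
  field_simp at h1
  exact h1

/-! ### the field generated by a root of unity over the field with two elements -/

private theorem two_pow_odd {f : ℕ} (hf : 0 < f) : Odd (2 ^ f - 1) := by
  obtain ⟨k, rfl⟩ := Nat.exists_eq_succ_of_ne_zero hf.ne'
  refine ⟨2 ^ k - 1, ?_⟩
  have := Nat.one_le_two_pow (n := k)
  rw [pow_succ]
  omega

private theorem ff_comb {κ : Type*} [Field κ] [CharP κ 2] {f : ℕ} (hf : 0 < f) {z : κ}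
    (hz : IsPrimitiveRoot z (2 ^ f - 1)) {ε : ℕ → κ} (hε : ∀ j < f, ε j = 0 ∨ ε j = 1) {j₀ : ℕ}
    (hj₀ : j₀ < f) (h0 : ε j₀ ≠ 0) : ∃ i : ℕ, ∑ j ∈ Finset.range f, ε j * z ^ j = z ^ i := by
  classical
  let _ : Algebra (ZMod 2) κ := ZMod.algebra κ 2
  have he0 : 0 < 2 ^ f - 1 := (two_pow_odd hf).pos
  have : NeZero (2 ^ f - 1) := ⟨he0.ne'⟩
  -- the sum is not zero
  let P : Polynomial (ZMod 2) := ∑ j ∈ Finset.range f, Polynomial.C (if ε j = 0 then 0 else 1) * Polynomial.X ^ j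
  have hP : Polynomial.aeval z P = ∑ j ∈ Finset.range f, ε j * z ^ j := by
    simp only [P, map_sum, map_mul, map_pow, Polynomial.aeval_X, Polynomial.aeval_C]
    refine Finset.sum_congr rfl fun j hj => ?_
    rcases hε j (Finset.mem_range.1 hj) with h | h <;> simp [h]
  have hP0 : P ≠ 0 := by
    intro h
    have h1 := congrArg (fun Q => Polynomial.coeff Q j₀) h
    simp only [P, Polynomial.finsetSum_coeff, Polynomial.coeff_C_mul, Polynomial.coeff_X_pow,
      Polynomial.coeff_zero] at h1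
    rw [Finset.sum_eq_single j₀] at h1
    · simp [h0] at h1
    · intro b _ hb
      simp [Ne.symm hb]
    · intro h2
      exact absurd (Finset.mem_range.2 hj₀) h2
  have hPd : P.natDegree ≤ f - 1 := by
    refine Polynomial.natDegree_sum_le_of_forall_le _ _ fun j hj => ?_
    refine (Polynomial.natDegree_C_mul_X_pow_le _ _).trans ?_
    have := Finset.mem_range.1 hj
    omega
  have hne : ∑ j ∈ Finset.range f, ε j * z ^ j ≠ 0 := by
    intro hsum
    rw [← hP] at hsum
    have hint : IsIntegral (ZMod 2) z := by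
      refine ⟨Polynomial.X ^ (2 ^ f - 1) - 1, Polynomial.monic_X_pow_sub_C 1 he0.ne', ?_⟩
      simp [hz.pow_eq_one]
    have h1 : (minpoly (ZMod 2) z).natDegree ≤ f - 1 :=
      (Polynomial.natDegree_le_of_dvd (minpoly.dvd _ _ hsum) hP0).trans hPd
    have h2 := IntermediateField.adjoin.finrank hint
    have : FiniteDimensional (ZMod 2) (IntermediateField.adjoin (ZMod 2) {z}) :=
      IntermediateField.adjoin.finiteDimensional hint
    have h3 := Module.natCard_eq_pow_finrank (K := ZMod 2) (V := IntermediateField.adjoin (ZMod 2) {z})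
    rw [h2, Nat.card_zmod] at h3
    have hfin : Finite (IntermediateField.adjoin (ZMod 2) {z}) := Module.finite_of_finite (ZMod 2)
    -- the elements `0`, `z ^ i`
    let zz : IntermediateField.adjoin (ZMod 2) {z} :=
      ⟨z, IntermediateField.mem_adjoin_simple_self (ZMod 2) z⟩
    have hinj : Function.Injective (fun o : Option (Fin (2 ^ f - 1)) =>
        match o with
        | none => (0 : IntermediateField.adjoin (ZMod 2) {z})
        | some i => zz ^ (i : ℕ)) := by
      have hz0 : z ≠ 0 := hz.ne_zero he0.ne'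
      rintro (_ | i) (_ | j) hij
      · rfl
      · exfalso
        have := congrArg Subtype.val hij
        simp only [zz, ZeroMemClass.coe_zero, SubmonoidClass.coe_pow] at this
        exact pow_ne_zero _ hz0 this.symm
      · exfalso
        have := congrArg Subtype.val hij
        simp only [zz, ZeroMemClass.coe_zero, SubmonoidClass.coe_pow] at this
        exact pow_ne_zero _ hz0 this
      · have := congrArg Subtype.val hij
        simp only [zz, SubmonoidClass.coe_pow] at this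
        rw [hz.pow_inj i.2 j.2 this |> Fin.ext]
    have h4 := Nat.card_le_card_of_injective _ hinj
    rw [h3, Nat.card_eq_fintype_card, Fintype.card_option, Fintype.card_fin] at h4
    have h5 : 2 ^ (minpoly (ZMod 2) z).natDegree ≤ 2 ^ (f - 1) := Nat.pow_le_pow_right (by norm_num) h1
    have h6 : 2 ^ (f - 1) < 2 ^ f := Nat.pow_lt_pow_right (by norm_num) (by omega)
    omega
  -- it is a root of unity
  have hfrob : (∑ j ∈ Finset.range f, ε j * z ^ j) ^ 2 ^ f = ∑ j ∈ Finset.range f, ε j * z ^ j := by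
    have h1 : ∀ (s : Finset ℕ) (F : ℕ → κ), (∑ j ∈ s, F j) ^ 2 ^ f = ∑ j ∈ s, F j ^ 2 ^ f := by
      intro s F
      exact sum_pow_char_pow 2 f s F
    rw [h1]
    refine Finset.sum_congr rfl fun j hj => ?_
    rw [mul_pow]
    congr 1
    · rcases hε j (Finset.mem_range.1 hj) with h | h
      · rw [h, zero_pow (by positivity)]
      · rw [h, one_pow]
    · have h2 : 2 ^ f = (2 ^ f - 1) + 1 := by omega
      rw [← pow_mul, mul_comm, pow_mul, h2, pow_succ, hz.pow_eq_one, one_mul]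
  have hone : (∑ j ∈ Finset.range f, ε j * z ^ j) ^ (2 ^ f - 1) = 1 := by
    have h2 : 2 ^ f = (2 ^ f - 1) + 1 := by omega
    rw [h2, pow_succ] at hfrob
    exact mul_right_cancel₀ hne (by rw [hfrob, one_mul])
  obtain ⟨i, _, hi⟩ := hz.eq_pow_of_pow_eq_one hone
  exact ⟨i, hi.symm⟩

/-! ### the decomposition group acts by powers of Frobenius -/

/-- the restriction of `g` to the valuation ring -/
private def gO {g : Ω ≃+* Ω} (hg : ∀ x, v (g x) = v x) : v.valuationSubring →+* v.valuationSubring where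
  toFun x := ⟨g x, by
    show v (g x) ≤ 1
    rw [hg]
    exact x.2⟩
  map_one' := Subtype.ext (map_one g)
  map_mul' x y := Subtype.ext (map_mul g _ _)
  map_zero' := Subtype.ext (map_zero g)
  map_add' x y := Subtype.ext (map_add g _ _)

/-- the polynomial with the roots `ζ ^ (2 ^ j)` -/
private noncomputable def frP {R : Type*} [CommRing R] (f : ℕ) (z : R) : Polynomial R :=
  ∏ j ∈ Finset.range f, (Polynomial.X - Polynomial.C (z ^ 2 ^ j))

private theorem frP_map {R S : Type*} [CommRing R] [CommRing S] (φ : R →+* S) (f : ℕ) (z : R) :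
    (frP f z).map φ = frP f (φ z) := by
  simp [frP, Polynomial.map_prod]

private theorem frP_shift {R : Type*} [CommRing R] [IsDomain R] (f : ℕ) {z : R} (hz : z ^ 2 ^ f = z)
    (s : ℕ) : frP f (z ^ 2 ^ s) = frP f z := by
  induction s with
  | zero => simp
  | succ s ih =>
    rw [← ih]
    unfold frP
    have h1 := Finset.prod_range_succ (fun j => (Polynomial.X - Polynomial.C ((z ^ 2 ^ s) ^ 2 ^ j))) f
    rw [Finset.prod_range_succ'] at h1
    have h2 : (z ^ 2 ^ s) ^ 2 ^ f = (z ^ 2 ^ s) ^ 2 ^ 0 := by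
      rw [← pow_mul, mul_comm, pow_mul, hz]
      simp
    have h3 : ∀ j, (z ^ 2 ^ (s + 1)) ^ 2 ^ j = (z ^ 2 ^ s) ^ 2 ^ (j + 1) := by
      intro j
      rw [← pow_mul, ← pow_mul, ← pow_add, ← pow_add]
      congr 2
      omega
    simp only [h3]
    rw [h2] at h1
    exact mul_right_cancel₀ (Polynomial.X_sub_C_ne_zero _) h1

private theorem pow_two_pow {R : Type*} [Monoid R] {f : ℕ} {z : R} (hz : z ^ (2 ^ f - 1) = 1) :
    z ^ 2 ^ f = z := by
  have h2 : 2 ^ f = (2 ^ f - 1) + 1 := by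
    have := Nat.one_le_two_pow (n := f)
    omega
  rw [h2, pow_succ, hz, one_mul]

private theorem res_gO {g : Ω ≃+* Ω} (hg : ∀ x, v (g x) = v x) {x : v.valuationSubring}
    (hx : IsLocalRing.residue v.valuationSubring x = 0 ∨ IsLocalRing.residue v.valuationSubring x = 1) :
    IsLocalRing.residue v.valuationSubring (gO hg x) = IsLocalRing.residue v.valuationSubring x := by
  rcases hx with h | h
  · rw [h]
    rw [res_zero] at h ⊢
    show v (g x) < 1
    rwa [hg]
  · rw [h]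
    rw [← map_one (IsLocalRing.residue v.valuationSubring), res_eq] at h ⊢
    show v (g x - ((1 : v.valuationSubring) : Ω)) < 1
    have h1 : g x - ((1 : v.valuationSubring) : Ω) = g ((x : Ω) - ((1 : v.valuationSubring) : Ω)) := by
      rw [map_sub]
      congr 1
      exact (map_one g).symm
    rwa [h1, hg]

/-- `D` acts on the roots of unity of order `2 ^ f - 1` by powers of 2 -/
theorem root_frob (hD : VD D v) {f : ℕ} (hf : 0 < f) {ζ : Ω} (hζ : IsPrimitiveRoot ζ (2 ^ f - 1))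
    {g : Ω ≃+* Ω} (hg : g ∈ D) : ∃ j < f, g ζ = ζ ^ 2 ^ j := by
  have he0 : 0 < 2 ^ f - 1 := (two_pow_odd hf).pos
  have hζ1 := hζ.pow_eq_one
  have hvζ : v ζ = 1 := v_root he0.ne' hζ1
  have hvg : ∀ x, v (g x) = v x := hD.inv g hg
  have := res_charP hD.two
  set Z : v.valuationSubring := ⟨ζ, hvζ.le⟩ with hZ
  have hZ1 : Z ^ (2 ^ f - 1) = 1 := Subtype.ext (by simpa using hζ1)
  set z := IsLocalRing.residue v.valuationSubring Z with hz
  have hz1 : z ^ (2 ^ f - 1) = 1 := by rw [hz, ← map_pow, hZ1, map_one]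
  have hco : ∀ i, (frP f z).coeff i = 0 ∨ (frP f z).coeff i = 1 := by
    intro i
    have h1 : (frP f z).map (frobenius _ 2) = frP f z := by
      rw [frP_map, frobenius_def]
      have h2 := frP_shift f (pow_two_pow hz1) 1
      rwa [pow_one] at h2
    have h2 := congrArg (fun Q => Polynomial.coeff Q i) h1
    simp only [Polynomial.coeff_map, frobenius_def] at h2
    have h3 : (frP f z).coeff i * ((frP f z).coeff i - 1) = 0 := by
      rw [mul_sub, mul_one, ← sq, h2, sub_self]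
    rcases mul_eq_zero.1 h3 with h | h
    · exact Or.inl h
    · exact Or.inr (sub_eq_zero.1 h)
  set φ := (IsLocalRing.residue v.valuationSubring).comp (gO hvg) with hφ
  have hmap : (frP f Z).map φ = frP f z := by
    rw [hz, ← frP_map]
    ext i
    rw [Polynomial.coeff_map, Polynomial.coeff_map, hφ, RingHom.comp_apply]
    refine res_gO hvg ?_
    have := hco i
    rwa [hz, ← frP_map, Polynomial.coeff_map] at this
  have h0 : (frP f Z).eval Z = 0 := by
    rw [frP, Polynomial.eval_prod]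
    refine Finset.prod_eq_zero (Finset.mem_range.2 hf) ?_
    simp
  have h1 : (frP f z).eval (φ Z) = 0 := by
    rw [← hmap, Polynomial.eval_map, Polynomial.eval₂_hom, h0, map_zero]
  rw [frP, Polynomial.eval_prod, Finset.prod_eq_zero_iff] at h1
  obtain ⟨j, hj, h2⟩ := h1
  refine ⟨j, Finset.mem_range.1 hj, ?_⟩
  simp only [Polynomial.eval_sub, Polynomial.eval_X, Polynomial.eval_C, sub_eq_zero] at h2
  rw [hφ, hz, ← map_pow, RingHom.comp_apply, res_eq] at h2
  refine root_inj' hD.two (two_pow_odd hf) ?_ ?_ h2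
  · rw [← map_pow, hζ1, map_one]
  · rw [← pow_mul, mul_comm, pow_mul, hζ1, one_pow]

/-- `ζ ^ f` is a combination of the lower powers with coefficients fixed by `D` -/
private theorem root_rel (hD : VD D v) {f : ℕ} (hf : 0 < f) {ζ : Ω} (hζ : IsPrimitiveRoot ζ (2 ^ f - 1)) :
    ∃ q : ℕ → Ω, (∀ j, ∀ g ∈ D, g (q j) = q j) ∧ ζ ^ f = ∑ j ∈ Finset.range f, q j * ζ ^ j := by
  have hζ1 := hζ.pow_eq_one
  have hmon : (frP f ζ).Monic := Polynomial.monic_prod_of_monic _ _ fun j _ => Polynomial.monic_X_sub_C _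
  have hdeg : (frP f ζ).natDegree = f := by
    rw [frP, Polynomial.natDegree_prod_of_monic _ _ fun j _ => Polynomial.monic_X_sub_C _]
    simp only [Polynomial.natDegree_X_sub_C, Finset.sum_const, Finset.card_range, smul_eq_mul, mul_one]
  refine ⟨fun j => - (frP f ζ).coeff j, fun j g hg => ?_, ?_⟩
  · obtain ⟨s, _, hs⟩ := root_frob hD hf hζ hg
    have h1 : (frP f ζ).map (g : Ω →+* Ω) = frP f ζ := by
      rw [frP_map]
      show frP f (g ζ) = _
      rw [hs, frP_shift f (pow_two_pow hζ1)]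
    have h2 := congrArg (fun Q => Polynomial.coeff Q j) h1
    simp only [Polynomial.coeff_map] at h2
    rw [map_neg]
    congr 1
  · have h0 : (frP f ζ).eval ζ = 0 := by
      rw [frP, Polynomial.eval_prod]
      refine Finset.prod_eq_zero (Finset.mem_range.2 hf) ?_
      simp
    have h1 := hmon.as_sum
    rw [hdeg] at h1
    rw [h1] at h0
    simp only [Polynomial.eval_add, Polynomial.eval_pow, Polynomial.eval_X, Polynomial.eval_finsetSum,
      Polynomial.eval_mul, Polynomial.eval_C] at h0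
    rw [eq_neg_of_add_eq_zero_left h0, ← Finset.sum_neg_distrib]
    refine Finset.sum_congr rfl fun j _ => ?_
    ring

/-! ### the fixed field of `rtC D e` -/

/-- the fixed field of `D` -/
private def fixD (D : Subgroup (Ω ≃+* Ω)) : Subfield Ω where
  carrier := {x | ∀ g ∈ D, g x = x}
  mul_mem' := fun {a b} ha hb g hg => by rw [map_mul, ha g hg, hb g hg]
  one_mem' := fun g _ => map_one g
  add_mem' := fun {a b} ha hb g hg => by rw [map_add, ha g hg, hb g hg]
  zero_mem' := fun g _ => map_zero g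
  neg_mem' := fun {a} ha g hg => by rw [map_neg, ha g hg]
  inv_mem' := fun a ha g hg => by rw [map_inv₀, ha g hg]

private theorem mem_fixD {x : Ω} : x ∈ fixD D ↔ ∀ g ∈ D, g x = x := Iff.rfl

/-- an element fixed by `rtC D e` lies in the field generated by `ζ` and `π` -/
private theorem mem_adj (halg : Alg Ω) (hD : VD D v) {e : ℕ} (he : 0 < e) {ζ π : Ω}
    (hζ : IsPrimitiveRoot ζ e) (hπ : π ^ e = 2) {x : Ω} (hx : Fxc (rtC D e) x) :
    x ∈ IntermediateField.adjoin (fixD D) {ζ, π} := by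
  have hZ : ∀ y : Ω, IsAlgebraic (fixD D) y := by
    intro y
    obtain ⟨p, hp, hpy⟩ := halg y
    refine ⟨p.map (Int.castRingHom _), ?_, ?_⟩
    · rwa [Ne, Polynomial.map_eq_zero_iff (RingHom.injective_int _)]
    · rw [Polynomial.aeval_def, Polynomial.eval₂_map]
      have h1 : (algebraMap (fixD D) Ω).comp (Int.castRingHom (fixD D)) = Int.castRingHom Ω :=
        RingHom.ext_int _ _
      rw [h1, hpy]
  have hcl : IsAlgClosure (fixD D) Ω := ⟨inferInstance, ⟨hZ⟩⟩
  have hgal : IsGalois (fixD D) Ω := inferInstance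
  rw [← InfiniteGalois.fixedField_fixingSubgroup (IntermediateField.adjoin (fixD D) {ζ, π}),
    IntermediateField.mem_fixedField_iff]
  intro σ hσ
  have hσ1 : ∀ y ∈ IntermediateField.adjoin (fixD D) {ζ, π}, σ y = y := fun y hy =>
    (IntermediateField.mem_fixingSubgroup_iff _ _).1 hσ y hy
  have hσζ : σ ζ = ζ := hσ1 ζ (IntermediateField.subset_adjoin _ _ (by simp))
  have hσπ : σ π = π := hσ1 π (IntermediateField.subset_adjoin _ _ (by simp))
  have hσD : (σ : Ω ≃+* Ω) ∈ D := by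
    refine hD.cls _ fun y hy => ?_
    exact σ.commutes ⟨y, hy⟩
  have : NeZero e := ⟨he.ne'⟩
  have hroot : ∀ y : Ω, y ^ e = 1 → σ y = y := by
    intro y hy
    obtain ⟨i, _, rfl⟩ := hζ.eq_pow_of_pow_eq_one hy
    rw [map_pow, hσζ]
  refine hx ⟨(σ : Ω ≃+* Ω), hσD⟩ ⟨hroot, fun y hy => ?_⟩
  show σ y = y
  have hπ0 : π ≠ 0 := by
    rintro rfl
    rw [zero_pow he.ne'] at hπ
    exact two_ne_zero hπ.symm
  have h1 : (y / π) ^ e = 1 := by
    rw [div_pow, hy, hπ, div_self two_ne_zero]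
  have h2 := hroot _ h1
  rw [map_div₀, hσπ] at h2
  field_simp at h2
  exact h2

/-- the elements `∑ a_ij ζ ^ j π ^ i` -/
private def spn (D : Subgroup (Ω ≃+* Ω)) (e f : ℕ) (ζ π : Ω) : Submodule (fixD D) Ω where
  carrier := {x | ∃ a : ℕ → ℕ → Ω, (∀ i j, a i j ∈ fixD D) ∧
    x = ∑ i ∈ Finset.range e, (∑ j ∈ Finset.range f, a i j * ζ ^ j) * π ^ i}
  add_mem' := by
    rintro _ _ ⟨a, ha, rfl⟩ ⟨b, hb, rfl⟩
    refine ⟨fun i j => a i j + b i j, fun i j => add_mem (ha i j) (hb i j), ?_⟩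
    simp only [add_mul, Finset.sum_add_distrib]
  zero_mem' := ⟨fun _ _ => 0, fun _ _ => zero_mem _, by simp⟩
  smul_mem' := by
    rintro c _ ⟨a, ha, rfl⟩
    refine ⟨fun i j => c * a i j, fun i j => mul_mem c.2 (ha i j), ?_⟩
    rw [Subfield.smul_def, smul_eq_mul, Finset.mul_sum]
    refine Finset.sum_congr rfl fun i _ => ?_
    rw [← mul_assoc, Finset.mul_sum]
    congr 1
    refine Finset.sum_congr rfl fun j _ => ?_
    ring

private theorem mem_spn {e f : ℕ} {ζ π x : Ω} : x ∈ spn D e f ζ π ↔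
    ∃ a : ℕ → ℕ → Ω, (∀ i j, a i j ∈ fixD D) ∧
      x = ∑ i ∈ Finset.range e, (∑ j ∈ Finset.range f, a i j * ζ ^ j) * π ^ i := Iff.rfl

/-- shift of a sum -/
private theorem sum_shift (n : ℕ) (F : ℕ → Ω) (w : Ω) :
    w * ∑ i ∈ Finset.range (n + 1), F i * w ^ i =
      ∑ i ∈ Finset.range (n + 1), (if i = 0 then 0 else F (i - 1)) * w ^ i + F n * w ^ (n + 1) := by
  rw [Finset.sum_range_succ, mul_add, Finset.sum_range_succ' (fun i => (if i = 0 then 0 else F (i - 1)) * w ^ i)]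
  simp only [Nat.add_eq_zero_iff, one_ne_zero, and_false, if_false, Nat.add_sub_cancel, if_true, zero_mul,
    add_zero]
  rw [Finset.mul_sum]
  congr 1
  · refine Finset.sum_congr rfl fun i _ => ?_
    ring
  · ring

private theorem spn_mul_z (e f : ℕ) {ζ π : Ω} {q : ℕ → Ω} (hq : ∀ j, q j ∈ fixD D)
    (hr : ζ ^ (f + 1) = ∑ j ∈ Finset.range (f + 1), q j * ζ ^ j) {x : Ω} (hx : x ∈ spn D e (f + 1) ζ π) :
    ζ * x ∈ spn D e (f + 1) ζ π := by
  obtain ⟨a, ha, rfl⟩ := mem_spn.1 hx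
  refine mem_spn.2 ⟨fun i j => (if j = 0 then 0 else a i (j - 1)) + a i f * q j, fun i j => ?_, ?_⟩
  · refine add_mem ?_ (mul_mem (ha i f) (hq j))
    split_ifs
    · exact zero_mem _
    · exact ha _ _
  · rw [Finset.mul_sum]
    refine Finset.sum_congr rfl fun i _ => ?_
    rw [← mul_assoc, sum_shift]
    congr 1
    rw [hr, Finset.mul_sum, ← Finset.sum_add_distrib]
    refine Finset.sum_congr rfl fun j _ => ?_
    ring

private theorem spn_mul_p (e f : ℕ) {ζ π : Ω} (hπ : π ^ (e + 1) = 2) {x : Ω}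
    (hx : x ∈ spn D (e + 1) f ζ π) : π * x ∈ spn D (e + 1) f ζ π := by
  obtain ⟨a, ha, rfl⟩ := mem_spn.1 hx
  refine mem_spn.2 ⟨fun i j => (if i = 0 then 2 * a e j else a (i - 1) j), fun i j => ?_, ?_⟩
  · dsimp only
    split_ifs
    · exact mul_mem (ofNat_mem _ 2) (ha _ _)
    · exact ha _ _
  · rw [sum_shift, hπ]
    rw [Finset.sum_range_succ' (fun i => (if i = 0 then 0 else _) * π ^ i), Finset.sum_range_succ']
    simp only [Nat.add_eq_zero_iff, one_ne_zero, and_false, if_false, Nat.add_sub_cancel, if_true,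
      add_zero, pow_zero, mul_one]
    congr 1
    rw [Finset.sum_mul]
    refine Finset.sum_congr rfl fun j _ => ?_
    ring

private theorem mem_spn_of (halg : Alg Ω) (hD : VD D v) {f : ℕ} (hf : 0 < f) {ζ π : Ω}
    (hζ : IsPrimitiveRoot ζ (2 ^ f - 1)) (hπ : π ^ (2 ^ f - 1) = 2) {x : Ω}
    (hx : Fxc (rtC D (2 ^ f - 1)) x) : x ∈ spn D (2 ^ f - 1) f ζ π := by
  have he0 : 0 < 2 ^ f - 1 := (two_pow_odd hf).pos
  have h1 := mem_adj halg hD he0 hζ hπ hx
  have hZ : ∀ y : Ω, IsAlgebraic (fixD D) y := by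
    intro y
    obtain ⟨p, hp, hpy⟩ := halg y
    refine ⟨p.map (Int.castRingHom _), ?_, ?_⟩
    · rwa [Ne, Polynomial.map_eq_zero_iff (RingHom.injective_int _)]
    · rw [Polynomial.aeval_def, Polynomial.eval₂_map]
      have h1 : (algebraMap (fixD D) Ω).comp (Int.castRingHom (fixD D)) = Int.castRingHom Ω :=
        RingHom.ext_int _ _
      rw [h1, hpy]
  have h2 : x ∈ Algebra.adjoin (fixD D) {ζ, π} := by
    rw [← IntermediateField.adjoin_toSubalgebra_of_isAlgebraic (fun y _ => hZ y)]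
    exact h1
  obtain ⟨q, hq, hr⟩ := root_rel hD hf hζ
  obtain ⟨f', rfl⟩ := Nat.exists_eq_succ_of_ne_zero hf.ne'
  obtain ⟨e', he'⟩ := Nat.exists_eq_succ_of_ne_zero he0.ne'
  rw [he'] at hπ ⊢
  have key : ∀ s ∈ spn D (e' + 1) (f' + 1) ζ π, x * s ∈ spn D (e' + 1) (f' + 1) ζ π := by
    refine Algebra.adjoin_induction (p := fun y _ => ∀ s ∈ spn D (e' + 1) (f' + 1) ζ π,
      y * s ∈ spn D (e' + 1) (f' + 1) ζ π) ?_ ?_ ?_ ?_ h2
    · intro y hy s hs
      rcases hy with rfl | hy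
      · exact spn_mul_z _ _ hq hr hs
      · rw [Set.mem_singleton_iff.1 hy]
        exact spn_mul_p _ _ hπ hs
    · intro r s hs
      rw [← Algebra.smul_def]
      exact Submodule.smul_mem _ _ hs
    · intro y z _ _ hy hz s hs
      rw [add_mul]
      exact add_mem (hy s hs) (hz s hs)
    · intro y z _ _ hy hz s hs
      rw [mul_assoc]
      exact hy _ (hz s hs)
  have hone : (1 : Ω) ∈ spn D (e' + 1) (f' + 1) ζ π := by
    refine mem_spn.2 ⟨fun i j => if i = 0 ∧ j = 0 then 1 else 0, fun i j => ?_, ?_⟩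
    · dsimp only
      split_ifs
      · exact one_mem _
      · exact zero_mem _
    · rw [Finset.sum_range_succ', Finset.sum_range_succ']
      simp
  have h3 := key 1 hone
  rwa [mul_one] at h3

private theorem v_of_near {x : Ω} (h : v (x - 1) < 1) : v x = 1 := by
  have h1 : x = 1 + (x - 1) := by ring
  rw [h1]
  exact v.map_one_add_of_lt h

private theorem zpow_inj_v {c : Γ} (hc0 : c ≠ 0) (hc : c < 1) {m n : ℤ} (h : c ^ m = c ^ n) : m = n := by
  by_contra hne
  rcases lt_or_gt_of_ne hne with h1 | h1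
  · have := zpow_lt_zpow_right_of_lt_one₀ (zero_lt_iff.2 hc0) hc h1
    exact absurd h this.ne'
  · have := zpow_lt_zpow_right_of_lt_one₀ (zero_lt_iff.2 hc0) hc h1
    exact absurd h this.ne

private theorem prim_res (hv : v 2 < 1) {e : ℕ} (he : Odd e) {ζ : Ω} (hζ : IsPrimitiveRoot ζ e)
    {Z : v.valuationSubring} (hZ : (Z : Ω) = ζ) :
    IsPrimitiveRoot (IsLocalRing.residue v.valuationSubring Z) e := by
  rw [IsPrimitiveRoot.iff_def]
  constructor
  · rw [← map_pow]
    have : Z ^ e = 1 := Subtype.ext (by push_cast; rw [hZ]; exact hζ.pow_eq_one)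
    rw [this, map_one]
  · intro l hl
    rw [← map_pow, ← map_one (IsLocalRing.residue v.valuationSubring), res_eq] at hl
    push_cast at hl
    rw [hZ] at hl
    refine hζ.dvd_of_pow_eq_one l (root_inj hv he ?_ hl)
    rw [← pow_mul, mul_comm, pow_mul, hζ.pow_eq_one, one_pow]

private theorem comb (hD : VD D v) {f : ℕ} (hf : 0 < f) {ζ : Ω} (hζ : IsPrimitiveRoot ζ (2 ^ f - 1))
    {a : ℕ → Ω} (ha : ∀ j, a j ∈ fixD D) {j₁ : ℕ} (hj₁ : j₁ < f) (h0 : a j₁ ≠ 0) :
    ∃ (m : ℤ) (i : ℕ), v ((∑ j ∈ Finset.range f, a j * ζ ^ j) * 2 ^ m * ζ ^ i - 1) < 1 := by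
  classical
  have heo := two_pow_odd hf
  have hζ1 := hζ.pow_eq_one
  have hvζ : v ζ = 1 := v_root heo.pos.ne' hζ1
  have hv2 : v 2 ≠ 0 := (Valuation.ne_zero_iff v).2 two_ne_zero
  have := res_charP hD.two
  obtain ⟨j₀, hj₀, hmax⟩ := Finset.exists_max_image (Finset.range f) (fun j => v (a j))
    ⟨j₁, Finset.mem_range.2 hj₁⟩
  have haj₀ : a j₀ ≠ 0 := by
    intro h
    have h1 := hmax j₁ (Finset.mem_range.2 hj₁)
    simp only [h, map_zero] at h1
    exact h0 ((Valuation.zero_iff v).1 (le_zero_iff.1 h1))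
  obtain ⟨k, hk⟩ := hD.imm (a j₀) haj₀ (ha j₀)
  have hvk := v_of_near hk
  have hb : ∀ j, a j * 2 ^ k ∈ fixD D := fun j => mul_mem (ha j) (zpow_mem (ofNat_mem _ 2) k)
  have hb1 : ∀ j < f, v (a j * 2 ^ k) ≤ 1 := by
    intro j hj
    rw [← hvk, map_mul, map_mul]
    exact mul_le_mul_left (hmax j (Finset.mem_range.2 hj)) _
  have hb2 : ∀ j < f, v (a j * 2 ^ k) < 1 ∨ v (a j * 2 ^ k - 1) < 1 := by
    intro j hj
    rcases (hb1 j hj).lt_or_eq with h | h
    · exact Or.inl h
    · right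
      have hne : a j * 2 ^ k ≠ 0 := by
        intro h1
        rw [h1, map_zero] at h
        exact zero_ne_one h
      obtain ⟨k', hk'⟩ := hD.imm _ hne (hb j)
      have h1 := v_of_near hk'
      rw [map_mul, h, one_mul, map_zpow₀] at h1
      have h2 : k' = 0 := zpow_inj_v hv2 hD.two (by rw [h1, zpow_zero])
      rwa [h2, zpow_zero, mul_one] at hk'
  set Z : v.valuationSubring := ⟨ζ, hvζ.le⟩ with hZ
  have hz := prim_res hD.two heo hζ (Z := Z) rfl
  let B : ℕ → v.valuationSubring := fun j => if h : v (a j * 2 ^ k) ≤ 1 then ⟨a j * 2 ^ k, h⟩ else 0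
  have hB : ∀ j < f, ((B j : v.valuationSubring) : Ω) = a j * 2 ^ k := by
    intro j hj
    simp only [B, dif_pos (hb1 j hj)]
  obtain ⟨i, hi⟩ := ff_comb hf hz (ε := fun j => IsLocalRing.residue v.valuationSubring (B j))
    (by
      intro j hj
      rcases hb2 j hj with h | h
      · left
        rw [res_zero, hB j hj]
        exact h
      · right
        rw [← map_one (IsLocalRing.residue v.valuationSubring), res_eq, hB j hj]
        exact h) (Finset.mem_range.1 hj₀) (by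
      intro h
      rw [res_zero, hB j₀ (Finset.mem_range.1 hj₀), hvk] at h
      exact lt_irrefl _ h)
  simp only [← map_pow, ← map_mul, ← map_sum] at hi
  rw [res_eq] at hi
  push_cast at hi
  have h1 : ∑ j ∈ Finset.range f, ((B j : v.valuationSubring) : Ω) * ζ ^ j =
      (∑ j ∈ Finset.range f, a j * ζ ^ j) * 2 ^ k := by
    rw [Finset.sum_mul]
    refine Finset.sum_congr rfl fun j hj => ?_
    rw [hB j (Finset.mem_range.1 hj)]
    ring
  rw [h1] at hi
  refine ⟨k, i * (2 ^ f - 1 - 1), ?_⟩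
  have h2 : ζ ^ i * ζ ^ (i * (2 ^ f - 1 - 1)) = 1 := by
    rw [← pow_add]
    have h3 : i + i * (2 ^ f - 1 - 1) = (2 ^ f - 1) * i := by
      have := heo.pos
      obtain ⟨c, hc⟩ := Nat.exists_eq_succ_of_ne_zero this.ne'
      rw [hc]
      simp only [Nat.succ_eq_add_one, Nat.add_sub_cancel]
      ring
    rw [h3, pow_mul, hζ1, one_pow]
  have h3 : (∑ j ∈ Finset.range f, a j * ζ ^ j) * 2 ^ k * ζ ^ (i * (2 ^ f - 1 - 1)) - 1 =
      ((∑ j ∈ Finset.range f, a j * ζ ^ j) * 2 ^ k - ζ ^ i) * ζ ^ (i * (2 ^ f - 1 - 1)) := by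
    rw [sub_mul, h2]
  rw [h3, map_mul, map_pow, hvζ, one_pow, mul_one]
  exact hi

theorem exp_C (halg : Alg Ω) (hD : VD D v) {f : ℕ} (hf : 0 < f) {ζ π : Ω}
    (hζ : IsPrimitiveRoot ζ (2 ^ f - 1)) (hπ : π ^ (2 ^ f - 1) = 2) {x : Ω} (hx0 : x ≠ 0)
    (hx : Fxc (rtC D (2 ^ f - 1)) x) : ∃ (k : ℤ) (j : ℕ), v (x * π ^ k * ζ ^ j - 1) < 1 := by
  classical
  obtain ⟨a, ha, hxa⟩ := mem_spn.1 (mem_spn_of halg hD hf hζ hπ hx)
  have heo := two_pow_odd hf
  set e := 2 ^ f - 1 with he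
  have he0 : 0 < e := heo.pos
  have hvζ : v ζ = 1 := v_root heo.pos.ne' hζ.pow_eq_one
  have hv2 : v 2 ≠ 0 := (Valuation.ne_zero_iff v).2 two_ne_zero
  have hπ0 : π ≠ 0 := by
    rintro rfl
    rw [zero_pow he0.ne'] at hπ
    exact two_ne_zero hπ.symm
  have hvπ : v π ^ e = v 2 := by rw [← map_pow, hπ]
  have hvπ0 : v π ≠ 0 := (Valuation.ne_zero_iff v).2 hπ0
  have hvπ1 : v π < 1 := by
    by_contra hcon
    have := one_le_pow_of_one_le' (not_lt.1 hcon) e
    rw [hvπ] at this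
    exact absurd hD.two (not_lt.2 this)
  set y : ℕ → Ω := fun i => ∑ j ∈ Finset.range f, a i j * ζ ^ j with hy
  have hxy : x = ∑ i ∈ Finset.range e, y i * π ^ i := hxa
  have hdich : ∀ i, y i ≠ 0 → ∃ (m : ℤ) (n : ℕ), v (y i * 2 ^ m * ζ ^ n - 1) < 1 := by
    intro i hi
    by_cases h : ∃ j < f, a i j ≠ 0
    · obtain ⟨j, hj, hj0⟩ := h
      exact comb hD hf hζ (ha i) hj hj0
    · exfalso
      push Not at h
      refine hi (Finset.sum_eq_zero fun j hj => ?_)
      rw [h j (Finset.mem_range.1 hj), zero_mul]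
  obtain ⟨i₀, hi₀, hmax⟩ := Finset.exists_max_image (Finset.range e) (fun i => v (y i * π ^ i))
    ⟨0, Finset.mem_range.2 he0⟩
  have hy0 : y i₀ ≠ 0 := by
    intro h
    apply hx0
    rw [hxy]
    refine Finset.sum_eq_zero fun i hi => ?_
    have h1 := hmax i hi
    simp only [h, zero_mul, map_zero] at h1
    exact (Valuation.zero_iff v).1 (le_zero_iff.1 h1)
  obtain ⟨m, n, hmn⟩ := hdich i₀ hy0
  have hval : ∀ {i : ℕ} {m : ℤ} {n : ℕ}, v (y i * 2 ^ m * ζ ^ n - 1) < 1 →
      v (y i * π ^ i) = v π ^ ((i : ℤ) - e * m) := by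
    intro i m n h
    have h1 := v_of_near h
    rw [map_mul, map_mul, map_pow, hvζ, one_pow, mul_one, map_zpow₀, ← hvπ, ← zpow_natCast, ← zpow_mul] at h1
    rw [map_mul, map_pow, sub_eq_add_neg, zpow_add₀ hvπ0, zpow_natCast, zpow_neg, mul_comm]
    congr 1
    exact eq_inv_of_mul_eq_one_left h1
  have hlt : ∀ i ∈ (Finset.range e).erase i₀, v (y i * π ^ i) < v (y i₀ * π ^ i₀) := by
    intro i hi
    obtain ⟨hne, hie⟩ := Finset.mem_erase.1 hi
    refine lt_of_le_of_ne (hmax i hie) fun heq => ?_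
    by_cases hyi : y i = 0
    · rw [hyi, zero_mul, map_zero] at heq
      have := (Valuation.zero_iff v).1 heq.symm
      exact (mul_ne_zero hy0 (pow_ne_zero _ hπ0)) this
    · obtain ⟨m', n', hmn'⟩ := hdich i hyi
      rw [hval hmn, hval hmn'] at heq
      have h1 := zpow_inj_v hvπ0 hvπ1 heq
      have h2 := Finset.mem_range.1 hie
      have h3 := Finset.mem_range.1 hi₀
      apply hne
      have h4 : ((i : ℤ) - i₀) = e * (m' - m) := by linarith
      have h5 : (e : ℤ) ∣ ((i : ℤ) - i₀) := ⟨_, h4⟩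
      have h6 : ((i : ℤ) - i₀) = 0 := by
        apply Int.eq_zero_of_abs_lt_dvd h5
        rw [abs_lt]
        constructor <;> omega
      omega
  have hv0 : v (y i₀ * π ^ i₀) ≠ 0 :=
    (Valuation.ne_zero_iff v).2 (mul_ne_zero hy0 (pow_ne_zero _ hπ0))
  have hsum : v (x - y i₀ * π ^ i₀) < v (y i₀ * π ^ i₀) := by
    have h1 : x - y i₀ * π ^ i₀ = ∑ i ∈ (Finset.range e).erase i₀, y i * π ^ i := by
      rw [hxy, ← Finset.add_sum_erase _ _ hi₀]
      ring
    rw [h1]
    exact v.map_sum_lt hv0 hlt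
  refine ⟨e * m - i₀, n, ?_⟩
  have hc : π ^ ((e : ℤ) * m - i₀) = 2 ^ m * (π ^ i₀)⁻¹ := by
    rw [zpow_sub₀ hπ0, zpow_mul, zpow_natCast, zpow_natCast, hπ, div_eq_mul_inv]
  have h1 : y i₀ * π ^ i₀ * π ^ ((e : ℤ) * m - i₀) * ζ ^ n = y i₀ * 2 ^ m * ζ ^ n := by
    rw [hc]
    have : π ^ i₀ ≠ 0 := pow_ne_zero _ hπ0
    field_simp
  have h2 : v (y i₀ * π ^ i₀) * v (π ^ ((e : ℤ) * m - i₀) * ζ ^ n) = 1 := by
    rw [← map_mul, ← mul_assoc, h1]
    exact v_of_near hmn
  have h3 : v (π ^ ((e : ℤ) * m - i₀) * ζ ^ n) ≠ 0 := by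
    intro h
    rw [h, mul_zero] at h2
    exact zero_ne_one h2
  have h4 : x * π ^ ((e : ℤ) * m - i₀) * ζ ^ n - 1 =
      (x - y i₀ * π ^ i₀) * (π ^ ((e : ℤ) * m - i₀) * ζ ^ n) + (y i₀ * 2 ^ m * ζ ^ n - 1) := by
    rw [← h1]
    ring
  rw [h4]
  refine lt_of_le_of_lt (v.map_add _ _) (max_lt ?_ hmn)
  rw [map_mul, ← h2]
  exact mul_lt_mul_of_pos_right hsum (zero_lt_iff.2 h3)

end Pool.Agent.Work.MP_787500_nt.EF
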