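import Mathlib
import Pool.Agent.Work.MP_787500_nt.EF.Exp

/-!
# Module Idx (size M): the group `D / rtC D e`

`e = 2 ^ f - 1`, `T = rtT D e`, `C = rtC D e`, `ζ` a primitive `e`-th root of unity, `π ^ e = 2`.

(1) `g ↦ j` with `g ζ = ζ ^ (2 ^ j)` (`root_frob`), `j` modulo `f` (`2 ^ j` modulo `e` determines `j` modulo `f`: for `0 ≤ i < j < f`,
`0 < 2 ^ j - 2 ^ i < e`), is a homomorphism `D → ZMod f` (or into the additive group `ZMod f` via `Multiplicative`) with kernel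
`T` (the roots of `x ^ e = 1` are the powers of `ζ`). So `D / T` is isomorphic to a subgroup of `ZMod f`: it is cyclic and its order
divides `f`. `σ` = an element of `D` that generates it (a finite cyclic group: each element is `σ ^ n` with `n : ℕ`).
(2) `t ↦ t π / π` is a homomorphism `T → {roots of x ^ e = 1}` (`t` fixes these roots) with kernel `C` (the roots of `x ^ e = 2` are
`π ζ ^ i`). So `C.relIndex T ∣ e`, and if it is `e` then the map is onto: some `t ∈ T` has `t π = ζ π`, so `(t π) ^ i = π ^ i` gives `ζ ^ i = 1`.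
-/

set_option autoImplicit false
set_option linter.unusedSectionVars false

namespace Pool.Agent.Work.MP_787500_nt.EF

open Pool.Agent.Work.MP_787500_nt.HP (Alg)

universe u

variable {Ω : Type u} [Field Ω] [CharZero Ω] [IsAlgClosed Ω] {Γ : Type*}
  [LinearOrderedCommGroupWithZero Γ] {D : Subgroup (Ω ≃+* Ω)} {v : Valuation Ω Γ}

omit [IsAlgClosed Ω] [CharZero Ω] in
private theorem e_pos {f : ℕ} (hf : 0 < f) : 0 < 2 ^ f - 1 := by
  have : 2 ^ 1 ≤ 2 ^ f := Nat.pow_le_pow_right (by norm_num) hf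
  omega

private theorem exists_prim {e : ℕ} (he : 0 < e) : ∃ ζ : Ω, IsPrimitiveRoot ζ e := by
  have : NeZero ((e : ℕ) : Ω) := ⟨by exact_mod_cast he.ne'⟩
  have : NeZero e := ⟨he.ne'⟩
  exact HasEnoughRootsOfUnity.exists_primitiveRoot Ω e

omit [IsAlgClosed Ω] [CharZero Ω] in
private theorem pow_two_mod {f : ℕ} (hf : 0 < f) {ζ : Ω} (hζ : IsPrimitiveRoot ζ (2 ^ f - 1))
    (a : ℕ) : ζ ^ 2 ^ a = ζ ^ 2 ^ (a % f) := by
  have h1 : ζ ^ 2 ^ f = ζ := by
    have h2 : 2 ^ f = 2 ^ f - 1 + 1 := by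
      have := e_pos hf
      omega
    rw [h2, pow_succ, hζ.pow_eq_one, one_mul]
  have h3 : ∀ q b : ℕ, ζ ^ 2 ^ (f * q + b) = ζ ^ 2 ^ b := by
    intro q b
    induction q with
    | zero => simp
    | succ q ih =>
      have e1 : 2 ^ (f * (q + 1) + b) = 2 ^ f * 2 ^ (f * q + b) := by
        rw [← pow_add]
        congr 1
        ring
      rw [e1, pow_mul, h1, ih]
  conv_lhs => rw [← Nat.div_add_mod a f]
  exact h3 _ _

omit [IsAlgClosed Ω] [CharZero Ω] in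
private theorem pow_two_inj {f : ℕ} (hf : 0 < f) {ζ : Ω} (hζ : IsPrimitiveRoot ζ (2 ^ f - 1))
    {a b : ℕ} : ζ ^ 2 ^ a = ζ ^ 2 ^ b ↔ ((a : ZMod f) = b) := by
  rw [ZMod.natCast_eq_natCast_iff']
  constructor
  · intro h
    rw [pow_two_mod hf hζ a, pow_two_mod hf hζ b] at h
    have ha : a % f < f := Nat.mod_lt _ hf
    have hb : b % f < f := Nat.mod_lt _ hf
    rcases Nat.lt_or_ge f 2 with h2 | h2
    · have : f = 1 := by omega
      subst this
      omega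
    · have hlt : ∀ c < f, 2 ^ c < 2 ^ f - 1 := by
        intro c hc
        have h3 : 2 ^ c ≤ 2 ^ (f - 1) := Nat.pow_le_pow_right (by norm_num) (by omega)
        have h4 : 2 ^ f = 2 * 2 ^ (f - 1) := by
          rw [← pow_succ']
          congr 1
          omega
        have h5 : 2 ^ 1 ≤ 2 ^ (f - 1) := Nat.pow_le_pow_right (by norm_num) (by omega)
        omega
      exact Nat.pow_right_injective le_rfl (hζ.pow_inj (hlt _ ha) (hlt _ hb) h)
  · intro h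
    rw [pow_two_mod hf hζ a, pow_two_mod hf hζ b, h]

private theorem exists_hom (hD : VD D v) {f : ℕ} (hf : 0 < f) :
    ∃ φ : D →* Multiplicative (ZMod f), φ.ker = rtT D (2 ^ f - 1) := by
  obtain ⟨ζ, hζ⟩ := exists_prim (Ω := Ω) (e_pos hf)
  choose j hj hjz using fun g : D => root_frob hD hf hζ g.2
  have hmul : ∀ g h : D, ((j (g * h) : ℕ) : ZMod f) = j g + j h := by
    intro g h
    have h1 : ((g * h : D) : Ω ≃+* Ω) ζ = ζ ^ 2 ^ (j g + j h) := by
      show (g : Ω ≃+* Ω) ((h : Ω ≃+* Ω) ζ) = _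
      rw [hjz h, map_pow, hjz g, ← pow_mul, pow_add]
    rw [hjz (g * h), pow_two_inj hf hζ] at h1
    rw [h1]
    push_cast
    rfl
  refine ⟨MonoidHom.mk' (fun g => Multiplicative.ofAdd ((j g : ℕ) : ZMod f)) ?_, ?_⟩
  · intro g h
    rw [← ofAdd_add, hmul]
  · ext g
    rw [MonoidHom.mem_ker, mem_rtT]
    have h1 : (MonoidHom.mk' (fun g => Multiplicative.ofAdd ((j g : ℕ) : ZMod f))
        (fun g h => by rw [← ofAdd_add, hmul]) g = 1) ↔ ((j g : ℕ) : ZMod f) = ((0 : ℕ) : ZMod f) := by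
      rw [Nat.cast_zero]
      show Multiplicative.ofAdd ((j g : ℕ) : ZMod f) = 1 ↔ _
      rw [ofAdd_eq_one]
    rw [h1, ← pow_two_inj hf hζ, ← hjz g, pow_zero, pow_one]
    constructor
    · intro h x hx
      have : NeZero (2 ^ f - 1) := ⟨(e_pos hf).ne'⟩
      obtain ⟨i, -, rfl⟩ := hζ.eq_pow_of_pow_eq_one hx
      rw [map_pow, h]
    · intro h
      exact h ζ hζ.pow_eq_one

theorem index_T (hD : VD D v) {f : ℕ} (hf : 0 < f) : (rtT D (2 ^ f - 1)).index ∣ f := by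
  obtain ⟨φ, hφ⟩ := exists_hom hD hf
  have : NeZero f := ⟨hf.ne'⟩
  rw [← hφ, Subgroup.index_ker]
  have h := Subgroup.card_subgroup_dvd_card φ.range
  have h2 : Nat.card (Multiplicative (ZMod f)) = f := Nat.card_zmod f
  rwa [h2] at h

theorem exists_gen (hD : VD D v) {f : ℕ} (hf : 0 < f) :
    ∃ σ : D, ∀ g, ∃ n : ℕ, (σ ^ n)⁻¹ * g ∈ rtT D (2 ^ f - 1) := by
  obtain ⟨φ, hφ⟩ := exists_hom hD hf
  have : NeZero f := ⟨hf.ne'⟩
  have : Finite (Multiplicative (ZMod f)) := inferInstanceAs (Finite (ZMod f))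
  have : IsCyclic (Multiplicative (ZMod f)) := inferInstance
  have : IsCyclic φ.range := inferInstance
  obtain ⟨⟨_, σ, rfl⟩, hσ⟩ := IsCyclic.exists_generator (α := φ.range)
  refine ⟨σ, fun g => ?_⟩
  have h1 := hσ ⟨φ g, g, rfl⟩
  rw [← mem_powers_iff_mem_zpowers] at h1
  obtain ⟨n, hn⟩ := h1
  refine ⟨n, ?_⟩
  rw [← hφ, MonoidHom.mem_ker, map_mul, map_inv, map_pow]
  have h2 : φ σ ^ n = φ g := by
    have := congrArg Subtype.val hn
    simpa using this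
  rw [h2, inv_mul_cancel]

private theorem exists_tame {f : ℕ} (hf : 0 < f) {π : Ω} (hπ : π ^ (2 ^ f - 1) = 2) :
    ∃ θ : rtT D (2 ^ f - 1) →* rootsOfUnity (2 ^ f - 1) Ω,
      (∀ t : rtT D (2 ^ f - 1),
        (((θ t : Ωˣ) : Ω)) * π = (((t : D) : Ω ≃+* Ω)) π) ∧
      θ.ker = (rtC D (2 ^ f - 1)).subgroupOf (rtT D (2 ^ f - 1)) := by
  have he := e_pos hf
  have hπ0 : π ≠ 0 := by
    rintro rfl
    rw [zero_pow he.ne'] at hπ
    exact two_ne_zero hπ.symm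
  have h0 : ∀ t : rtT D (2 ^ f - 1), (((t : D) : Ω ≃+* Ω)) π ≠ 0 := fun t => by
    simpa using hπ0
  have hroot : ∀ t : rtT D (2 ^ f - 1), ((((t : D) : Ω ≃+* Ω)) π / π) ^ (2 ^ f - 1) = 1 := by
    intro t
    rw [div_pow, ← map_pow, hπ, map_ofNat]
    exact div_self two_ne_zero
  let u : rtT D (2 ^ f - 1) → rootsOfUnity (2 ^ f - 1) Ω := fun t =>
    ⟨Units.mk0 ((((t : D) : Ω ≃+* Ω)) π / π) (div_ne_zero (h0 t) hπ0), by
      rw [mem_rootsOfUnity']
      exact hroot t⟩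
  have hu : ∀ t, (((u t : Ωˣ) : Ω)) = (((t : D) : Ω ≃+* Ω)) π / π := fun t => rfl
  have hmul : ∀ s t, u (s * t) = u s * u t := by
    intro s t
    apply Subtype.ext
    apply Units.ext
    rw [hu]
    show _ = (((u s : Ωˣ) : Ω)) * (((u t : Ωˣ) : Ω))
    rw [hu, hu]
    have h1 : (((t : D) : Ω ≃+* Ω)) π = ((((t : D) : Ω ≃+* Ω)) π / π) * π := by
      field_simp
    have h2 : (((s * t : rtT D (2 ^ f - 1)) : D) : Ω ≃+* Ω) π =
        ((s : D) : Ω ≃+* Ω) (((t : D) : Ω ≃+* Ω) π) := rfl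
    have h3 : ((s : D) : Ω ≃+* Ω) ((((t : D) : Ω ≃+* Ω)) π / π) = (((t : D) : Ω ≃+* Ω)) π / π :=
      s.2 _ (hroot t)
    rw [h2]
    conv_lhs => rw [h1, map_mul, h3]
    ring
  refine ⟨MonoidHom.mk' u hmul, ?_, ?_⟩
  · intro t
    show (((u t : Ωˣ) : Ω)) * π = _
    rw [hu]
    field_simp
  · ext t
    rw [MonoidHom.mem_ker, Subgroup.mem_subgroupOf, mem_rtC]
    have h1 : (MonoidHom.mk' u hmul t = 1) ↔ (((t : D) : Ω ≃+* Ω)) π = π := by
      show u t = 1 ↔ _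
      rw [Subtype.ext_iff, Units.ext_iff, hu]
      show _ / π = (1 : Ω) ↔ _
      rw [div_eq_one_iff_eq hπ0]
    rw [h1]
    constructor
    · intro h
      refine ⟨t.2, fun x hx => ?_⟩
      have h2 : (x / π) ^ (2 ^ f - 1) = 1 := by
        rw [div_pow, hx, hπ]
        exact div_self two_ne_zero
      have h3 := t.2 _ h2
      rw [map_div₀, h] at h3
      field_simp at h3
      exact h3
    · intro h
      exact h.2 π hπ

theorem relIndex_C {f : ℕ} (hf : 0 < f) :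
    (rtC D (2 ^ f - 1)).relIndex (rtT D (2 ^ f - 1)) ∣ 2 ^ f - 1 := by
  have he := e_pos hf
  obtain ⟨π, hπ⟩ := IsAlgClosed.exists_pow_nat_eq (2 : Ω) he
  obtain ⟨θ, -, hθ⟩ := exists_tame (D := D) hf hπ
  obtain ⟨ζ, hζ⟩ := exists_prim (Ω := Ω) he
  have : NeZero (2 ^ f - 1) := ⟨he.ne'⟩
  have h1 : Nat.card (rootsOfUnity (2 ^ f - 1) Ω) = 2 ^ f - 1 := hζ.card_rootsOfUnity
  have h2 := Subgroup.card_subgroup_dvd_card θ.range
  rw [h1, ← Subgroup.index_ker, hθ] at h2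
  exact h2

theorem sep_C {f : ℕ} (hf : 0 < f) {π : Ω} (hπ : π ^ (2 ^ f - 1) = 2)
    (h : (rtC D (2 ^ f - 1)).relIndex (rtT D (2 ^ f - 1)) = 2 ^ f - 1) {i : ℕ}
    (hi : ∀ t : D, t ∈ rtT D (2 ^ f - 1) → ((t : Ω ≃+* Ω) π) ^ i = π ^ i) : 2 ^ f - 1 ∣ i := by
  have he := e_pos hf
  obtain ⟨θ, hθ1, hθ⟩ := exists_tame (D := D) hf hπ
  obtain ⟨ζ, hζ⟩ := exists_prim (Ω := Ω) he
  have : NeZero (2 ^ f - 1) := ⟨he.ne'⟩
  have hπ0 : π ≠ 0 := by
    rintro rfl
    rw [zero_pow he.ne'] at hπ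
    exact two_ne_zero hπ.symm
  have h1 : Nat.card (rootsOfUnity (2 ^ f - 1) Ω) = 2 ^ f - 1 := hζ.card_rootsOfUnity
  have h2 : Nat.card θ.range = Nat.card (rootsOfUnity (2 ^ f - 1) Ω) := by
    rw [h1, ← Subgroup.index_ker, hθ]
    exact h
  have h3 : θ.range = ⊤ := Subgroup.eq_top_of_card_eq _ h2
  have hζu : IsUnit ζ := hζ.isUnit he.ne'
  have h4 : (⟨hζu.unit, by
      rw [mem_rootsOfUnity']
      exact hζ.pow_eq_one⟩ : rootsOfUnity (2 ^ f - 1) Ω) ∈ θ.range := by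
    rw [h3]
    trivial
  obtain ⟨t, ht⟩ := h4
  have h5 := hθ1 t
  rw [ht] at h5
  have h6 := hi t t.2
  rw [← h5, mul_pow] at h6
  have h7 : ((hζu.unit : Ωˣ) : Ω) = ζ := rfl
  have h8 : ζ ^ i = 1 := by
    have h9 : ζ ^ i * π ^ i = 1 * π ^ i := by
      rw [one_mul]
      exact h6
    exact mul_right_cancel₀ (pow_ne_zero _ hπ0) h9
  exact hζ.dvd_of_pow_eq_one i h8

end Pool.Agent.Work.MP_787500_nt.EF
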