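import Mathlib
import Pool.Agent.Work.MP_787500_nt.EF.Defs

/-!
# Module Kum (size M): Kummer characters

`C` a normal subgroup of `D`, `a` fixed by `C`. For `c ∈ C` and any `s` with `s ^ 2 = a`: `(c s) ^ 2 = s ^ 2`, so `c s = s` or
`c s = -s`, and `kum C a c = 0` iff `c s = s` (the choice `rt a` does not matter: `s = rt a` or `s = -rt a`; if `a = 0` then `rt a = 0`).

* `kum_eq`: the characterization by any square root `s`.
* `kum_add`: `(rt a * rt b) ^ 2 = a * b`, signs multiply (characteristic 0: `-s ≠ s` for `s ≠ 0`).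
* `kum_eq_zero`: if `kum = 0` take `s = rt a`.
* `kum_cj`: `(g (rt a)) ^ 2 = g a`; `c (g (rt a)) = g (rt a)` iff `(g⁻¹ c g) (rt a) = rt a`. `Fxc C (g a)`: `C` is normal.
* `kum_mem`: `kum C a` is a homomorphism; smooth: its kernel `V` has index 1 or 2, is normal, and contains
  `W.subgroupOf C` where `W : Subgroup D` is the group of the elements of `D` that fix all roots in `Ω` of a nonzero integral
  polynomial `p` with root `rt a` (`halg`): `W` is normal (`g` permutes the roots of `p`), of finite index (it is the kernel of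
  the action of `D` on the finite set of roots), and open (`s` = set of roots).
* `mem_lw`, `mem_lu`, `mem_lv`: the sets are subgroups already (`kum_add`, `kum C 1 = 0`, `-χ = χ` for functions to
  `ZMod 2`): `AddSubgroup.closure_induction`. For `lv` with `γ < 1`: `v (a - 1) ≤ γ < 1` gives `v a = 1`, and
  `a b - 1 = a (b - 1) + (a - 1)`.
* `lu_le`, `lw_le`: clear. `*_cj`: stability, from `kum_cj` and the invariance of `v` (`VD.inv`).
-/

set_option autoImplicit false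
set_option linter.unusedSectionVars false

namespace Pool.Agent.Work.MP_787500_nt.EF

open Pool.Agent.Work.MP_787500_nt.GP (A0 IsAct d0)
open Pool.Agent.Work.MP_787500_nt.PA (homs)
open Pool.Agent.Work.MP_787500_nt.HP (Alg)
open Pool.Agent.Work.MP_787500_nt.KR (FSys two res fullC CountsF Z1 Sm1 Smooth Opn)

universe u

variable {Ω : Type u} [Field Ω] [CharZero Ω] [IsAlgClosed Ω] {Γ : Type*}
  [LinearOrderedCommGroupWithZero Γ] {D : Subgroup (Ω ≃+* Ω)} {v : Valuation Ω Γ}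
  {C : Subgroup D} [C.Normal]

private theorem smul_cases {a s : Ω} (ha : Fxc C a) (hs : s ^ 2 = a) (c : C) :
    ((c : D) : Ω ≃+* Ω) s = s ∨ ((c : D) : Ω ≃+* Ω) s = -s := by
  apply sq_eq_sq_iff_eq_or_eq_neg.1
  rw [← map_pow, hs, ha _ c.2]

open scoped Classical in
private theorem kum_val {a s : Ω} (hs : s ^ 2 = a) (c : C) :
    kum C a c = if ((c : D) : Ω ≃+* Ω) s = s then 0 else 1 := by
  have h1 : rt a ^ 2 = s ^ 2 := by rw [rt_sq, hs]
  unfold kum
  rcases sq_eq_sq_iff_eq_or_eq_neg.1 h1 with h | h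
  · rw [h]
  · rw [h, map_neg, neg_inj]

theorem kum_eq {a s : Ω} (ha : Fxc C a) (hs : s ^ 2 = a) (c : C) :
    kum C a c = 0 ↔ ((c : D) : Ω ≃+* Ω) s = s := by
  classical
  rw [kum_val hs]
  split_ifs with h
  · exact ⟨fun _ => h, fun _ => rfl⟩
  · exact ⟨fun h0 => absurd h0 one_ne_zero, fun h0 => absurd h0 h⟩

private theorem fxc_one : Fxc C (1 : Ω) := fun g _ => map_one _

theorem kum_one : kum C (1 : Ω) = 0 := by
  funext c
  exact (kum_eq fxc_one (one_pow 2) c).2 (map_one _)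

theorem kum_add {a b : Ω} (ha : Fxc C a) (hb : Fxc C b) (ha0 : a ≠ 0) (hb0 : b ≠ 0) :
    kum C (a * b) = kum C a + kum C b := by
  classical
  funext c
  have hs := rt_sq a
  have ht := rt_sq b
  have hst : (rt a * rt b) ^ 2 = a * b := by rw [mul_pow, hs, ht]
  have hs0 : rt a ≠ 0 := by
    intro h
    rw [h] at hs
    exact ha0 (by rw [← hs]; ring)
  have ht0 : rt b ≠ 0 := by
    intro h
    rw [h] at ht
    exact hb0 (by rw [← ht]; ring)
  have hst0 : rt a * rt b ≠ 0 := mul_ne_zero hs0 ht0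
  have hn : ∀ y : Ω, y ≠ 0 → -y ≠ y := by
    intro y hy h
    have h3 : (2 : Ω) * y = 0 := by linear_combination -h
    rcases mul_eq_zero.1 h3 with h4 | h4
    · exact absurd h4 two_ne_zero
    · exact hy h4
  show kum C (a * b) c = kum C a c + kum C b c
  rw [kum_val hst, kum_val hs, kum_val ht, map_mul]
  rcases smul_cases ha hs c with h | h <;> rcases smul_cases hb ht c with h' | h' <;> rw [h, h']
  · simp
  · rw [mul_neg, if_neg (hn _ hst0), if_pos rfl, if_neg (hn _ ht0), zero_add]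
  · rw [neg_mul, if_neg (hn _ hst0), if_neg (hn _ hs0), if_pos rfl, add_zero]
  · rw [neg_mul_neg, if_pos rfl, if_neg (hn _ hs0), if_neg (hn _ ht0)]
    rfl

theorem kum_eq_zero {a : Ω} (ha : Fxc C a) : kum C a = 0 ↔ ∃ s, Fxc C s ∧ s ^ 2 = a := by
  constructor
  · intro h
    refine ⟨rt a, fun g hg => ?_, rt_sq a⟩
    exact (kum_eq ha (rt_sq a) ⟨g, hg⟩).1 (congrFun h ⟨g, hg⟩)
  · rintro ⟨s, hs, hsa⟩
    funext c
    exact (kum_eq ha hsa c).2 (hs c c.2)

theorem fxc_smul {a : Ω} (ha : Fxc C a) (g : D) : Fxc C ((g : Ω ≃+* Ω) a) := by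
  intro h hh
  have h1 : g⁻¹ * h * g ∈ C := by
    have := (inferInstance : C.Normal).conj_mem h hh g⁻¹
    rwa [inv_inv] at this
  have h2 := ha _ h1
  have h3 : ((g⁻¹ * h * g : D) : Ω ≃+* Ω) a = (g : Ω ≃+* Ω)⁻¹ ((h : Ω ≃+* Ω) ((g : Ω ≃+* Ω) a)) := rfl
  rw [h3] at h2
  have h4 := congrArg (g : Ω ≃+* Ω) h2
  have h5 : (g : Ω ≃+* Ω) ((g : Ω ≃+* Ω)⁻¹ ((h : Ω ≃+* Ω) ((g : Ω ≃+* Ω) a))) =
      (h : Ω ≃+* Ω) ((g : Ω ≃+* Ω) a) := (g : Ω ≃+* Ω).apply_symm_apply _
  exact h5.symm.trans h4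

theorem kum_cj {a : Ω} (ha : Fxc C a) (g : D) : cj C g (kum C a) = kum C ((g : Ω ≃+* Ω) a) := by
  classical
  funext c
  have hs : ((g : Ω ≃+* Ω) (rt a)) ^ 2 = (g : Ω ≃+* Ω) a := by rw [← map_pow, rt_sq]
  rw [cj_apply, kum_val (rt_sq a), kum_val hs]
  refine if_congr ?_ rfl rfl
  show (g : Ω ≃+* Ω)⁻¹ (((c : D) : Ω ≃+* Ω) ((g : Ω ≃+* Ω) (rt a))) = rt a ↔ _
  constructor
  · intro h
    have h4 := congrArg (g : Ω ≃+* Ω) h
    have h5 : (g : Ω ≃+* Ω) ((g : Ω ≃+* Ω)⁻¹ (((c : D) : Ω ≃+* Ω) ((g : Ω ≃+* Ω) (rt a)))) =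
        ((c : D) : Ω ≃+* Ω) ((g : Ω ≃+* Ω) (rt a)) := (g : Ω ≃+* Ω).apply_symm_apply _
    exact h5.symm.trans h4
  · intro h
    rw [h]
    exact (g : Ω ≃+* Ω).symm_apply_apply _

/-- the group of the automorphisms that fix all roots of a polynomial -/
private def fixR (D : Subgroup (Ω ≃+* Ω)) (p : Polynomial ℤ) : Subgroup D where
  carrier := {g | ∀ x : Ω, p.eval₂ (Int.castRingHom Ω) x = 0 → (g : Ω ≃+* Ω) x = x}
  mul_mem' := by
    intro a b ha hb x hx
    show (a : Ω ≃+* Ω) ((b : Ω ≃+* Ω) x) = x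
    rw [hb x hx, ha x hx]
  one_mem' := fun x _ => rfl
  inv_mem' := by
    intro a ha x hx
    show (a : Ω ≃+* Ω)⁻¹ x = x
    conv_lhs => rw [← ha x hx]
    exact (a : Ω ≃+* Ω).symm_apply_apply x

private theorem root_smul (p : Polynomial ℤ) (g : Ω ≃+* Ω) {x : Ω}
    (hx : p.eval₂ (Int.castRingHom Ω) x = 0) : p.eval₂ (Int.castRingHom Ω) (g x) = 0 := by
  have h1 : (g : Ω →+* Ω).comp (Int.castRingHom Ω) = Int.castRingHom Ω := RingHom.ext_int _ _
  have h2 := Polynomial.hom_eval₂ p (Int.castRingHom Ω) (g : Ω →+* Ω) x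
  rw [hx, map_zero, h1] at h2
  exact h2.symm

private theorem roots_finite {p : Polynomial ℤ} (hp : p ≠ 0) :
    {x : Ω | p.eval₂ (Int.castRingHom Ω) x = 0}.Finite := by
  classical
  have h0 : p.map (Int.castRingHom Ω) ≠ 0 :=
    (Polynomial.map_ne_zero_iff (RingHom.injective_int _)).2 hp
  refine (Finset.finite_toSet (p.map (Int.castRingHom Ω)).roots.toFinset).subset fun x hx => ?_
  rw [Finset.mem_coe, Multiset.mem_toFinset, Polynomial.mem_roots h0, Polynomial.IsRoot.def,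
    Polynomial.eval_map]
  exact hx

private theorem fixR_mem (D : Subgroup (Ω ≃+* Ω)) {p : Polynomial ℤ} (hp : p ≠ 0) :
    (fullC D).mem (fixR D p) := by
  classical
  have hfin := roots_finite (Ω := Ω) hp
  refine ⟨⟨hfin.toFinset, fun g hg x hx => hg x (hfin.mem_toFinset.2 hx)⟩, ?_, ?_⟩
  · constructor
    intro a ha b x hx
    refine conj_fix (ha _ ?_)
    exact root_smul p (b : Ω ≃+* Ω)⁻¹ hx
  · have hF : Finite {x : Ω | p.eval₂ (Int.castRingHom Ω) x = 0} := hfin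
    let f : (D ⧸ fixR D p) → ({x : Ω | p.eval₂ (Int.castRingHom Ω) x = 0} →
        {x : Ω | p.eval₂ (Int.castRingHom Ω) x = 0}) :=
      Quotient.lift (fun (g : D) x => ⟨(g : Ω ≃+* Ω) x.1, root_smul p _ x.2⟩) (by
        intro g h hgh
        change (QuotientGroup.leftRel (fixR D p)) g h at hgh
        rw [QuotientGroup.leftRel_apply] at hgh
        funext x
        apply Subtype.ext
        have h1 : (g : Ω ≃+* Ω)⁻¹ ((h : Ω ≃+* Ω) x.1) = x.1 := hgh x.1 x.2
        have h2 := congrArg (g : Ω ≃+* Ω) h1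
        show (g : Ω ≃+* Ω) x.1 = (h : Ω ≃+* Ω) x.1
        rw [← h2]
        exact (g : Ω ≃+* Ω).apply_symm_apply _)
    have hinj : Function.Injective f := by
      intro q q' h
      induction q using QuotientGroup.induction_on with
      | H g =>
        induction q' using QuotientGroup.induction_on with
        | H g' =>
          rw [QuotientGroup.eq]
          intro x hx
          have h1 := congrArg Subtype.val (congrFun h ⟨x, hx⟩)
          have h2 : (g : Ω ≃+* Ω) x = (g' : Ω ≃+* Ω) x := h1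
          show (g : Ω ≃+* Ω)⁻¹ ((g' : Ω ≃+* Ω) x) = x
          rw [← h2]
          exact (g : Ω ≃+* Ω).symm_apply_apply _
    have : Finite (D ⧸ fixR D p) := Finite.of_injective f hinj
    exact Subgroup.index_ne_zero_of_finite

private theorem mem_lm {χ : C → ZMod 2} : χ ∈ lm C ↔
    Pool.Agent.Work.MP_787500_nt.PA.Sm1 (two (res (fullC D) C)) χ ∧
      ∀ c c', χ (c * c') = χ c + χ c' := by
  constructor
  · rintro ⟨h1, _, h3⟩
    exact ⟨h1, fun c c' => h3 c trivial c' trivial⟩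
  · rintro ⟨h1, h3⟩
    exact ⟨h1, fun g hg => absurd trivial hg, fun c _ c' _ => h3 c c'⟩

theorem kum_mem (halg : Alg Ω) {a : Ω} (ha : Fxc C a) : kum C a ∈ lm C := by
  classical
  have hs := rt_sq a
  have hmul : ∀ c c' : C, kum C a (c * c') = kum C a c + kum C a c' := by
    intro c c'
    by_cases h0 : rt a = 0
    · rw [kum_val hs, kum_val hs, kum_val hs, h0, map_zero, map_zero, map_zero]
      simp
    · have hn : -(rt a) ≠ rt a := by
        intro h
        have h3 : (2 : Ω) * rt a = 0 := by linear_combination -h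
        rcases mul_eq_zero.1 h3 with h4 | h4
        · exact absurd h4 two_ne_zero
        · exact h0 h4
      have e : (((c * c' : C) : D) : Ω ≃+* Ω) (rt a) =
          ((c : D) : Ω ≃+* Ω) (((c' : D) : Ω ≃+* Ω) (rt a)) := rfl
      rw [kum_val hs, kum_val hs, kum_val hs, e]
      rcases smul_cases ha hs c with h | h <;> rcases smul_cases ha hs c' with h' | h'
      · rw [h', h, if_pos rfl, add_zero]
      · rw [h', map_neg, h, if_neg hn, if_pos rfl, zero_add]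
      · rw [h', h, if_neg hn, if_pos rfl, add_zero]
      · rw [h', map_neg, h, neg_neg, if_pos rfl, if_neg hn]
        rfl
  rw [mem_lm]
  refine ⟨?_, hmul⟩
  -- the kernel
  let φ : C →* Multiplicative (ZMod 2) :=
    { toFun := fun c => Multiplicative.ofAdd (kum C a c)
      map_one' := by
        have h := hmul 1 1
        rw [mul_one] at h
        have h1 : kum C a 1 = 0 := left_eq_add.1 h
        rw [h1]
        rfl
      map_mul' := fun c c' => by
        rw [hmul]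
        rfl }
  have hker : ∀ c : C, c ∈ φ.ker ↔ kum C a c = 0 := by
    intro c
    rw [MonoidHom.mem_ker]
    rfl
  obtain ⟨p, hp, hpx⟩ := halg (rt a)
  have hle : (fixR D p).subgroupOf C ≤ φ.ker := by
    intro c hc
    rw [hker, kum_val hs, if_pos]
    exact hc (rt a) hpx
  refine ⟨φ.ker, ⟨inferInstance, ⟨φ.ker, ⟨inferInstance, fixR D p, fixR_mem D hp, hle⟩, le_rfl⟩, ?_⟩,
    ?_⟩
  · rw [Subgroup.index_ker]
    have h1 : Nat.card φ.range ∣ Nat.card (Multiplicative (ZMod 2)) :=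
      Subgroup.card_subgroup_dvd_card φ.range
    have h2 : Nat.card (Multiplicative (ZMod 2)) = 2 := by
      rw [Nat.card_congr Multiplicative.toAdd, Nat.card_zmod]
    rw [h2] at h1
    rcases (Nat.dvd_prime Nat.prime_two).1 h1 with h3 | h3
    · exact ⟨0, by rw [h3, pow_zero]⟩
    · exact ⟨1, by rw [h3, pow_one]⟩
  · intro g w hw
    rw [hmul, (hker w).1 hw, add_zero]

private theorem mem_cl {X : Type*} {S : Set (X → ZMod 2)} (h0 : (0 : X → ZMod 2) ∈ S)
    (hadd : ∀ χ ∈ S, ∀ χ' ∈ S, χ + χ' ∈ S) {χ : X → ZMod 2} : χ ∈ AddSubgroup.closure S ↔ χ ∈ S := by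
  constructor
  · intro h
    induction h using AddSubgroup.closure_induction with
    | mem x hx => exact hx
    | zero => exact h0
    | add x y _ _ hx hy => exact hadd x hx y hy
    | neg x _ hx =>
      have : -x = x := by
        funext i
        exact ZMod.neg_eq_self_mod_two (x i)
      rw [this]
      exact hx
  · intro h
    exact AddSubgroup.subset_closure h

private theorem fxc_mul {a b : Ω} (ha : Fxc C a) (hb : Fxc C b) : Fxc C (a * b) := by
  intro g hg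
  rw [map_mul, ha g hg, hb g hg]

theorem mem_lw {χ : C → ZMod 2} : χ ∈ lw C ↔ ∃ a, Fxc C a ∧ a ≠ 0 ∧ χ = kum C a := by
  unfold lw
  rw [mem_cl]
  · rfl
  · exact ⟨1, fxc_one, one_ne_zero, kum_one.symm⟩
  · rintro χ ⟨a, ha, ha0, rfl⟩ χ' ⟨b, hb, hb0, rfl⟩
    exact ⟨a * b, fxc_mul ha hb, mul_ne_zero ha0 hb0, (kum_add ha hb ha0 hb0).symm⟩

private theorem ne_zero_of_v {a : Ω} (h : v a = 1) : a ≠ 0 := by
  intro h0
  rw [h0, map_zero] at h
  exact zero_ne_one h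

theorem mem_lu {χ : C → ZMod 2} : χ ∈ lu v C ↔ ∃ a, Fxc C a ∧ v a = 1 ∧ χ = kum C a := by
  unfold lu
  rw [mem_cl]
  · rfl
  · exact ⟨1, fxc_one, map_one v, kum_one.symm⟩
  · rintro χ ⟨a, ha, ha0, rfl⟩ χ' ⟨b, hb, hb0, rfl⟩
    refine ⟨a * b, fxc_mul ha hb, by rw [map_mul, ha0, hb0, one_mul], ?_⟩
    exact (kum_add ha hb (ne_zero_of_v ha0) (ne_zero_of_v hb0)).symm

private theorem v_one {γ : Γ} (hγ : γ < 1) {a : Ω} (h : v (a - 1) ≤ γ) : v a = 1 := by
  have h1 : v (1 + (a - 1)) = 1 := v.map_one_add_of_lt (lt_of_le_of_lt h hγ)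
  rwa [add_sub_cancel] at h1

theorem mem_lv {γ : Γ} (hγ : γ < 1) {χ : C → ZMod 2} :
    χ ∈ lv v C γ ↔ ∃ a, Fxc C a ∧ v (a - 1) ≤ γ ∧ χ = kum C a := by
  unfold lv
  rw [mem_cl]
  · rfl
  · refine ⟨1, fxc_one, ?_, kum_one.symm⟩
    rw [sub_self, map_zero]
    exact zero_le
  · rintro χ ⟨a, ha, ha0, rfl⟩ χ' ⟨b, hb, hb0, rfl⟩
    have ha1 := v_one hγ ha0
    have hb1 := v_one hγ hb0
    refine ⟨a * b, fxc_mul ha hb, ?_, ?_⟩
    · have e : a * b - 1 = a * (b - 1) + (a - 1) := by ring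
      rw [e]
      refine v.map_add_le ?_ ha0
      rw [map_mul, ha1, one_mul]
      exact hb0
    · exact (kum_add ha hb (ne_zero_of_v ha1) (ne_zero_of_v hb1)).symm

theorem lw_le (halg : Alg Ω) : lw C ≤ lm C := by
  intro χ hχ
  obtain ⟨a, ha, _, rfl⟩ := mem_lw.1 hχ
  exact kum_mem halg ha

theorem lu_le : lu v C ≤ lw C := by
  intro χ hχ
  obtain ⟨a, ha, h1, rfl⟩ := mem_lu.1 hχ
  exact mem_lw.2 ⟨a, ha, ne_zero_of_v h1, rfl⟩

theorem lv_le {γ : Γ} (hγ : γ < 1) : lv v C γ ≤ lu v C := by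
  intro χ hχ
  obtain ⟨a, ha, h1, rfl⟩ := (mem_lv hγ).1 hχ
  exact mem_lu.2 ⟨a, ha, v_one hγ h1, rfl⟩

theorem lv_mono {γ γ' : Γ} (h : γ ≤ γ') : lv v C γ ≤ lv v C γ' := by
  apply AddSubgroup.closure_mono
  rintro χ ⟨a, ha, h1, rfl⟩
  exact ⟨a, ha, h1.trans h, rfl⟩

theorem lm_cj (g : D) {χ : C → ZMod 2} (hχ : χ ∈ lm C) : cj C g χ ∈ lm C := by
  rw [mem_lm] at hχ ⊢
  obtain ⟨⟨W, ⟨hWn, ⟨W₁, ⟨hW₁n, W₂, hW₂, hW₂le⟩, hW₁le⟩, k, hk⟩, hW⟩, hadd⟩ := hχ
  let φ : C ≃* C := MulAut.conjNormal g⁻¹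
  have hφ : ∀ c : C, cj C g χ c = χ (φ c) := by
    intro c
    rw [cj_apply]
    refine congrArg χ (Subtype.ext ?_)
    show g⁻¹ * (c : D) * g = ((MulAut.conjNormal g⁻¹ c : C) : D)
    rw [MulAut.conjNormal_apply, inv_inv]
  have hW₂n : W₂.Normal := (fullC D).normal hW₂
  refine ⟨⟨W.comap φ.toMonoidHom, ⟨hWn.comap _, ⟨W₁.comap φ.toMonoidHom, ⟨hW₁n.comap _, W₂, hW₂, ?_⟩,
    Subgroup.comap_mono hW₁le⟩, k, ?_⟩, ?_⟩, ?_⟩
  · intro c hc
    rw [Subgroup.mem_comap]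
    apply hW₂le
    rw [Subgroup.mem_subgroupOf]
    show ((MulAut.conjNormal g⁻¹ c : C) : D) ∈ W₂
    rw [MulAut.conjNormal_apply]
    exact hW₂n.conj_mem _ hc _
  · have h := Subgroup.index_comap_of_surjective W (f := φ.toMonoidHom) φ.surjective
    rw [h, hk]
  · intro c w hw
    rw [hφ, hφ, map_mul]
    exact hW _ _ hw
  · intro c c'
    rw [hφ, hφ, hφ, map_mul, hadd]

theorem lw_cj (g : D) {χ : C → ZMod 2} (hχ : χ ∈ lw C) : cj C g χ ∈ lw C := by
  obtain ⟨a, ha, h0, rfl⟩ := mem_lw.1 hχ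
  rw [kum_cj ha]
  refine mem_lw.2 ⟨_, fxc_smul ha g, ?_, rfl⟩
  intro h
  exact h0 ((map_eq_zero_iff _ (g : Ω ≃+* Ω).injective).1 h)

theorem lu_cj (hD : VD D v) (g : D) {χ : C → ZMod 2} (hχ : χ ∈ lu v C) : cj C g χ ∈ lu v C := by
  obtain ⟨a, ha, h0, rfl⟩ := mem_lu.1 hχ
  rw [kum_cj ha]
  exact mem_lu.2 ⟨_, fxc_smul ha g, by rw [hD.inv _ g.2, h0], rfl⟩

theorem lv_cj (hD : VD D v) {γ : Γ} (hγ : γ < 1) (g : D) {χ : C → ZMod 2} (hχ : χ ∈ lv v C γ) :
    cj C g χ ∈ lv v C γ := by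
  obtain ⟨a, ha, h0, rfl⟩ := (mem_lv hγ).1 hχ
  rw [kum_cj ha]
  refine (mem_lv hγ).2 ⟨_, fxc_smul ha g, ?_, rfl⟩
  have e : (g : Ω ≃+* Ω) a - 1 = (g : Ω ≃+* Ω) (a - 1) := by rw [map_sub, map_one]
  rw [e, hD.inv _ g.2]
  exact h0

end Pool.Agent.Work.MP_787500_nt.EF
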