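import Mathlib
import Pool.Agent.Work.MP_787500_nt.EF.Kum
import Pool.Agent.Work.MP_787500_nt.EF.Exp

/-!
# Module Lev (size M): the filtration of the Kummer characters

`C = rtC D e`, `e = 2 ^ f - 1`, `π ^ e = 2`, `k`, `red`, `db` as in `Rdc`, `th g = red (g π / π)`. For `x ≠ 0` fixed by `C`: `v x = v π ^ k`, `k ∈ ℤ`
(`exp_C`); so `v x < v π ^ r` implies `v x ≤ v π ^ (r + 1)`. `v π < 1`, `v 2 = v π ^ e`; `π` and `g π / π` (a root of `x ^ e = 1`) are fixed by `C`.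

* `lev_stp`: `r` odd, `r < 2 e`. Put `φ χ = red ((a - 1) / π ^ r)` for `χ = kum C a`, `a` fixed by `C`, `v (a - 1) ≤ v π ^ r`
  (`mem_lv`; `φ χ = 0` for other `χ`). WELL DEFINED: let `a`, `a'` have the same character. `a = a' s ^ 2`, `s` fixed by `C` (`kum_add`, `kum_eq_zero`),
  `v (s ^ 2 - 1) ≤ v π ^ r` (as `a - a' = a' (s ^ 2 - 1)`, `v a' = 1`). If `s ≠ ± 1`: `v (s - 1) = v π ^ k`, `s + 1 = (s - 1) + 2`. `v s = 1` gives
  `k ≥ 0`. If `k ≥ e` then `v (s + 1) ≤ v π ^ e` and `v (s ^ 2 - 1) ≤ v π ^ (2 e) ≤ v π ^ (r + 1)`. If `k < e`: `v (s + 1) = v π ^ k`,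
  `v (s ^ 2 - 1) = v π ^ (2 k) ≤ v π ^ r`, so `2 k ≥ r`, so `2 k ≥ r + 1` (`r` odd). So `v (a - a') ≤ v π ^ (r + 1)` and
  `red ((a - 1) / π ^ r) = red ((a' - 1) / π ^ r)`.
  ADDITIVE: `a a' - 1 = (a - 1) + (a' - 1) + (a - 1) (a' - 1)`, the last term has `v ≤ v π ^ (2 r)`. KERNEL: `red (..) = 0` means
  `v (a - 1) < v π ^ r`. SURJECTIVE: `z = red x`, `a = 1 + π ^ r x`. EQUIVARIANT: `kum_cj`,
  `(g a - 1) / π ^ r = (g π / π) ^ r * g ((a - 1) / π ^ r)`.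
* `lev_relIndex`: a step has index `card k`: `N / N' ≃ k`. (Index of a kernel: `φ` restricted to `N` is an additive map onto `k` with kernel `N'`.)
* `lu_relIndex`: `lu.relIndex lw = 2`: `kum C π ∉ lu`: otherwise `π = u s ^ 2` with `v u = 1`, `v s = v π ^ k`, `1 = 2 k`. Every
  `kum C a` (`v a = v π ^ k`) is in `lu` (`k = 2 m`: `a = (a π ^ (-2 m)) (π ^ m) ^ 2`) or in `kum C π + lu` (`k` odd).
-/

set_option autoImplicit false
set_option linter.unusedSectionVars false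

namespace Pool.Agent.Work.MP_787500_nt.EF

open Pool.Agent.Work.MP_787500_nt.HP (Alg)

universe u

theorem lev_relIndex {G : Type*} [Group G] {C : Subgroup G} [C.Normal] {k : Type*} [Field k]
    {db : G →* (k ≃+* k)} {th : G → k} {r : ℕ} {N N' : AddSubgroup (C → ZMod 2)}
    {φ : (C → ZMod 2) → k} (hle : N' ≤ N) (h : Stp C db th r N N' φ) :
    N'.relIndex N = Nat.card k := by
  let F : N →+ k := AddMonoidHom.mk' (fun x => φ (x : C → ZMod 2)) (fun a b => by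
    simpa using h.add _ a.2 _ b.2)
  have hF : Function.Surjective F := fun z => by
    obtain ⟨χ, hχ, hz⟩ := h.surj z
    exact ⟨⟨χ, hχ⟩, hz⟩
  have hker : N'.addSubgroupOf N = F.ker := by
    ext x
    rw [AddSubgroup.mem_addSubgroupOf, AddMonoidHom.mem_ker]
    exact ⟨fun hx => h.zero _ hx, fun hx => h.ker _ x.2 hx⟩
  rw [AddSubgroup.relIndex, hker, AddSubgroup.index_ker, AddMonoidHom.range_eq_top.2 hF]
  exact Nat.card_congr AddSubgroup.topEquiv.toEquiv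

variable {Ω : Type u} [Field Ω] [CharZero Ω] [IsAlgClosed Ω] {Γ : Type*}
  [LinearOrderedCommGroupWithZero Γ] {D : Subgroup (Ω ≃+* Ω)} {v : Valuation Ω Γ}

section fx

variable {C : Subgroup D}

private theorem lev_fx_one : Fxc C (1 : Ω) := fun g _ => map_one _

private theorem lev_fx_mul {x y : Ω} (hx : Fxc C x) (hy : Fxc C y) : Fxc C (x * y) := fun g hg => by
  rw [map_mul, hx g hg, hy g hg]

private theorem lev_fx_add {x y : Ω} (hx : Fxc C x) (hy : Fxc C y) : Fxc C (x + y) := fun g hg => by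
  rw [map_add, hx g hg, hy g hg]

private theorem lev_fx_sub {x y : Ω} (hx : Fxc C x) (hy : Fxc C y) : Fxc C (x - y) := fun g hg => by
  rw [map_sub, hx g hg, hy g hg]

private theorem lev_fx_div {x y : Ω} (hx : Fxc C x) (hy : Fxc C y) : Fxc C (x / y) := fun g hg => by
  rw [map_div₀, hx g hg, hy g hg]

private theorem lev_fx_pow {x : Ω} (hx : Fxc C x) (n : ℕ) : Fxc C (x ^ n) := fun g hg => by
  rw [map_pow, hx g hg]

private theorem lev_fx_zpow {x : Ω} (hx : Fxc C x) (n : ℤ) : Fxc C (x ^ n) := fun g hg => by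
  rw [map_zpow₀, hx g hg]

end fx

private theorem lev_e_pos {f : ℕ} (hf : 0 < f) : 0 < 2 ^ f - 1 := by
  have : 2 ^ 1 ≤ 2 ^ f := Nat.pow_le_pow_right (by norm_num) hf
  omega

private theorem lev_pi_ne {f : ℕ} (hf : 0 < f) {π : Ω} (hπ : π ^ (2 ^ f - 1) = 2) : π ≠ 0 := by
  rintro rfl
  rw [zero_pow (lev_e_pos hf).ne'] at hπ
  exact two_ne_zero hπ.symm

private theorem lev_vpi (hD : VD D v) {f : ℕ} (hf : 0 < f) {π : Ω} (hπ : π ^ (2 ^ f - 1) = 2) :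
    v π < 1 := by
  by_contra h
  have h1 : 1 ≤ v π := not_lt.1 h
  have h2 : 1 ≤ v π ^ (2 ^ f - 1) := one_le_pow₀ h1
  rw [← map_pow, hπ] at h2
  exact absurd hD.two (not_lt.2 h2)

private theorem lev_fx_pi {f : ℕ} {π : Ω} (hπ : π ^ (2 ^ f - 1) = 2) :
    Fxc (rtC D (2 ^ f - 1)) π := fun g hg => (mem_rtC.1 hg).2 π hπ

private theorem lev_root_pi {e : ℕ} {π : Ω} (hπ : π ^ e = 2) (g : Ω ≃+* Ω) :
    (g π / π) ^ e = 1 := by
  rw [div_pow, ← map_pow, hπ, map_ofNat]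
  exact div_self two_ne_zero

private theorem lev_v_root {n : ℕ} (hn : 0 < n) {x : Ω} (hx : x ^ n = 1) : v x = 1 := by
  have : v x ^ n = 1 := by rw [← map_pow, hx, map_one]
  exact (pow_eq_one_iff.1 this).resolve_right hn.ne'

/-- the value group of the fixed field of `C` -/
private theorem lev_val (halg : Alg Ω) (hD : VD D v) {f : ℕ} (hf : 0 < f) {π : Ω}
    (hπ : π ^ (2 ^ f - 1) = 2) {x : Ω} (hx0 : x ≠ 0) (hx : Fxc (rtC D (2 ^ f - 1)) x) :
    ∃ k : ℤ, v x = v π ^ k := by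
  have he := lev_e_pos hf
  have : NeZero ((2 ^ f - 1 : ℕ) : Ω) := ⟨Nat.cast_ne_zero.2 he.ne'⟩
  obtain ⟨ζ, hζ⟩ := HasEnoughRootsOfUnity.exists_primitiveRoot Ω (2 ^ f - 1)
  obtain ⟨k, j, hkj⟩ := exp_C halg hD hf hζ hπ hx0 hx
  have h1 : v (x * π ^ k * ζ ^ j) = 1 := by
    have := Valuation.map_add_eq_of_lt_right v (x := x * π ^ k * ζ ^ j - 1) (y := 1)
      (by rw [map_one]; exact hkj)
    rw [sub_add_cancel, map_one] at this
    exact this
  rw [map_mul, map_mul, map_pow, lev_v_root he hζ.pow_eq_one, one_pow, mul_one, map_zpow₀] at h1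
  refine ⟨-k, ?_⟩
  rw [zpow_neg]
  exact eq_inv_of_mul_eq_one_left h1

private theorem lev_disc (halg : Alg Ω) (hD : VD D v) {f : ℕ} (hf : 0 < f) {π : Ω}
    (hπ : π ^ (2 ^ f - 1) = 2) {x : Ω} (hx : Fxc (rtC D (2 ^ f - 1)) x) {r : ℕ}
    (h : v x < v π ^ r) : v x ≤ v π ^ (r + 1) := by
  by_cases hx0 : x = 0
  · rw [hx0, map_zero]; exact zero_le
  obtain ⟨k, hk⟩ := lev_val halg hD hf hπ hx0 hx
  have hp0 : 0 < v π := (Valuation.pos_iff v).2 (lev_pi_ne hf hπ)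
  have hp1 := lev_vpi hD hf hπ
  rw [hk, ← zpow_natCast, zpow_lt_zpow_iff_right_of_lt_one₀ hp0 hp1] at h
  rw [hk, ← zpow_natCast, zpow_le_zpow_iff_right_of_lt_one₀ hp0 hp1]
  push_cast
  omega

/-- the key step: squares near 1 -/
private theorem lev_sq (halg : Alg Ω) (hD : VD D v) {f : ℕ} (hf : 0 < f) {π : Ω}
    (hπ : π ^ (2 ^ f - 1) = 2) {s : Ω} (hs : Fxc (rtC D (2 ^ f - 1)) s) {r : ℕ} (hodd : Odd r)
    (hlt : r < 2 * (2 ^ f - 1)) (h : v (s ^ 2 - 1) ≤ v π ^ r) : v (s ^ 2 - 1) < v π ^ r := by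
  have hp0 : 0 < v π := (Valuation.pos_iff v).2 (lev_pi_ne hf hπ)
  have hp1 := lev_vpi hD hf hπ
  have he := lev_e_pos hf
  have hfac : s ^ 2 - 1 = (s - 1) * (s + 1) := by ring
  by_cases h1 : s - 1 = 0
  · rw [hfac, h1, zero_mul, map_zero]; exact pow_pos hp0 r
  by_cases h2 : s + 1 = 0
  · rw [hfac, h2, mul_zero, map_zero]; exact pow_pos hp0 r
  obtain ⟨k, hk⟩ := lev_val halg hD hf hπ h1 (lev_fx_sub hs lev_fx_one)
  obtain ⟨l, hl⟩ := lev_val halg hD hf hπ h2 (lev_fx_add hs lev_fx_one)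
  have hv2 : v 2 = v π ^ ((2 ^ f - 1 : ℕ) : ℤ) := by rw [zpow_natCast, ← map_pow, hπ]
  have hkl : v (s ^ 2 - 1) = v π ^ (k + l) := by
    rw [hfac, map_mul, hk, hl, zpow_add₀ hp0.ne']
  rw [hkl, ← zpow_natCast, zpow_le_zpow_iff_right_of_lt_one₀ hp0 hp1] at h
  rw [hkl, ← zpow_natCast, zpow_lt_zpow_iff_right_of_lt_one₀ hp0 hp1]
  rcases lt_trichotomy k l with h3 | h3 | h3
  · have h4 : v (s + 1) < v (s - 1) := by
      rw [hk, hl, zpow_lt_zpow_iff_right_of_lt_one₀ hp0 hp1]; exact h3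
    have h5 : v 2 = v (s - 1) := by
      have := Valuation.map_sub_eq_of_lt_right v h4
      rw [show s + 1 - (s - 1) = 2 by ring] at this
      exact this
    rw [hv2, hk] at h5
    have h6 : ((2 ^ f - 1 : ℕ) : ℤ) = k := zpow_right_injective₀ hp0 hp1.ne h5
    omega
  · obtain ⟨m, hm⟩ := hodd
    omega
  · have h4 : v (s - 1) < v (s + 1) := by
      rw [hk, hl, zpow_lt_zpow_iff_right_of_lt_one₀ hp0 hp1]; exact h3
    have h5 : v 2 = v (s + 1) := by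
      have := Valuation.map_sub_eq_of_lt_left v h4
      rw [show s + 1 - (s - 1) = 2 by ring] at this
      exact this
    rw [hv2, hl] at h5
    have h6 : ((2 ^ f - 1 : ℕ) : ℤ) = l := zpow_right_injective₀ hp0 hp1.ne h5
    omega

private theorem lev_v_of {x : Ω} {γ : Γ} (hγ : γ < 1) (h : v (x - 1) ≤ γ) : v x = 1 := by
  have := Valuation.map_add_eq_of_lt_right v (x := x - 1) (y := 1)
    (by rw [map_one]; exact lt_of_le_of_lt h hγ)
  rw [sub_add_cancel, map_one] at this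
  exact this

private theorem lev_add_self {X : Type*} (χ : X → ZMod 2) : χ + χ = 0 := by
  funext x
  exact CharTwo.add_self_eq_zero (χ x)

/-- elements with the same Kummer character -/
private theorem lev_same (halg : Alg Ω) (hD : VD D v) {f : ℕ} (hf : 0 < f) {π : Ω}
    (hπ : π ^ (2 ^ f - 1) = 2) {r : ℕ} (hodd : Odd r) (hlt : r < 2 * (2 ^ f - 1)) {a a' : Ω}
    (ha : Fxc (rtC D (2 ^ f - 1)) a) (ha' : Fxc (rtC D (2 ^ f - 1)) a')
    (hva : v (a - 1) ≤ v π ^ r) (hva' : v (a' - 1) ≤ v π ^ r)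
    (h : kum (rtC D (2 ^ f - 1)) a = kum (rtC D (2 ^ f - 1)) a') : v (a - a') < v π ^ r := by
  have hp1 := lev_vpi hD hf hπ
  have hr1 : v π ^ r < 1 := pow_lt_one₀ zero_le hp1 (by rcases hodd with ⟨m, rfl⟩; omega)
  have h1 : v a = 1 := lev_v_of hr1 hva
  have h1' : v a' = 1 := lev_v_of hr1 hva'
  have ha0 : a ≠ 0 := by rintro rfl; rw [map_zero] at h1; exact zero_ne_one h1
  have ha0' : a' ≠ 0 := by rintro rfl; rw [map_zero] at h1'; exact zero_ne_one h1'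
  have h2 : kum (rtC D (2 ^ f - 1)) (a * a') = 0 := by
    rw [kum_add ha ha' ha0 ha0', h, lev_add_self]
  obtain ⟨t, ht, htt⟩ := (kum_eq_zero (lev_fx_mul ha ha')).1 h2
  have hs : Fxc (rtC D (2 ^ f - 1)) (t / a') := lev_fx_div ht ha'
  have hss : a' * ((t / a') ^ 2 - 1) = a - a' := by
    rw [div_pow, htt]; field_simp
  have hvs : v ((t / a') ^ 2 - 1) = v (a - a') := by
    rw [← hss, map_mul, h1', one_mul]
  rw [← hvs]
  refine lev_sq halg hD hf hπ hs hodd hlt ?_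
  rw [hvs, show a - a' = (a - 1) - (a' - 1) by ring]
  exact Valuation.map_sub_le v hva hva'

section red

variable {C : Subgroup D} {k : Type*} [Field k] {red : Ω → k} {db : D →* (k ≃+* k)}

private theorem lev_red_eq (hr : Rdc v C red db) {x y : Ω} (hx : Fxc C x) (hy : Fxc C y)
    (_hvx : v x ≤ 1) (hvy : v y ≤ 1) (h : v (x - y) < 1) : red x = red y := by
  have h1 := hr.add (x - y) y (lev_fx_sub hx hy) hy h.le hvy
  rw [sub_add_cancel, (hr.ker _ (lev_fx_sub hx hy) h.le).2 h, zero_add] at h1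
  exact h1

private theorem lev_red_pow (hr : Rdc v C red db) {x : Ω} (hx : Fxc C x) (hvx : v x ≤ 1) (n : ℕ) :
    red (x ^ n) = red x ^ n := by
  induction n with
  | zero => rw [pow_zero, pow_zero, hr.one]
  | succ n ih =>
    rw [pow_succ, pow_succ, hr.mul _ _ (lev_fx_pow hx n) hx
      (by rw [map_pow]; exact pow_le_one₀ zero_le hvx) hvx, ih]

end red

theorem lev_stp (halg : Alg Ω) (hD : VD D v) {f : ℕ} (hf : 0 < f) {π : Ω}
    (hπ : π ^ (2 ^ f - 1) = 2) {k : Type*} [Field k] {red : Ω → k} {db : D →* (k ≃+* k)}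
    (hr : Rdc v (rtC D (2 ^ f - 1)) red db) {r : ℕ} (hodd : Odd r) (hlt : r < 2 * (2 ^ f - 1)) :
    ∃ φ, Stp (rtC D (2 ^ f - 1)) db (fun g : D => red ((g : Ω ≃+* Ω) π / π)) r
      (lv v (rtC D (2 ^ f - 1)) (v π ^ r)) (lv v (rtC D (2 ^ f - 1)) (v π ^ (r + 1))) φ := by
  classical
  have hπ0 := lev_pi_ne hf hπ
  have hp0 : 0 < v π := (Valuation.pos_iff v).2 hπ0
  have hp1 := lev_vpi hD hf hπ
  have he := lev_e_pos hf
  have hrpos : 0 < r := by rcases hodd with ⟨m, rfl⟩; omega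
  have hr0 : 0 < v π ^ r := pow_pos hp0 r
  have hr1 : v π ^ r < 1 := pow_lt_one₀ zero_le hp1 hrpos.ne'
  have hr1' : v π ^ (r + 1) < v π ^ r := by
    rw [pow_succ]
    exact mul_lt_of_lt_one_right hr0 hp1
  have hπC : Fxc (rtC D (2 ^ f - 1)) π := lev_fx_pi hπ
  have hπr : Fxc (rtC D (2 ^ f - 1)) (π ^ r) := lev_fx_pow hπC r
  -- quotients
  have hq : ∀ a : Ω, v (a - 1) ≤ v π ^ r → v ((a - 1) / π ^ r) ≤ 1 := fun a ha => by
    rw [map_div₀, map_pow]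
    exact div_le_one_of_le₀ ha zero_le
  have hqf : ∀ a : Ω, Fxc (rtC D (2 ^ f - 1)) a → Fxc (rtC D (2 ^ f - 1)) ((a - 1) / π ^ r) :=
    fun a ha => lev_fx_div (lev_fx_sub ha lev_fx_one) hπr
  let P : (rtC D (2 ^ f - 1) → ZMod 2) → Ω → Prop := fun χ a =>
    Fxc (rtC D (2 ^ f - 1)) a ∧ v (a - 1) ≤ v π ^ r ∧ χ = kum (rtC D (2 ^ f - 1)) a
  let φ : (rtC D (2 ^ f - 1) → ZMod 2) → k := fun χ =>
    if h : ∃ a, P χ a then red ((h.choose - 1) / π ^ r) else 0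
  have hφ : ∀ a : Ω, Fxc (rtC D (2 ^ f - 1)) a → v (a - 1) ≤ v π ^ r →
      φ (kum (rtC D (2 ^ f - 1)) a) = red ((a - 1) / π ^ r) := by
    intro a ha hva
    have hex : ∃ b, P (kum (rtC D (2 ^ f - 1)) a) b := ⟨a, ha, hva, rfl⟩
    have hsp := hex.choose_spec
    show (if h : ∃ b, P (kum (rtC D (2 ^ f - 1)) a) b then red ((h.choose - 1) / π ^ r) else 0) = _
    rw [dif_pos hex]
    refine lev_red_eq hr (hqf _ hsp.1) (hqf _ ha) (hq _ hsp.2.1) (hq _ hva) ?_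
    have h1 := lev_same halg hD hf hπ hodd hlt hsp.1 ha hsp.2.1 hva hsp.2.2.symm
    rw [← sub_div, map_div₀, map_pow, sub_sub_sub_cancel_right]
    exact (div_lt_one₀ hr0).2 h1
  refine ⟨φ, ?_, ?_, ?_, ?_, ?_⟩
  · intro χ hχ χ' hχ'
    obtain ⟨a, ha, hva, rfl⟩ := (mem_lv hr1).1 hχ
    obtain ⟨a', ha', hva', rfl⟩ := (mem_lv hr1).1 hχ'
    have h1 : v a = 1 := lev_v_of hr1 hva
    have h1' : v a' = 1 := lev_v_of hr1 hva'
    have ha0 : a ≠ 0 := by rintro rfl; rw [map_zero] at h1; exact zero_ne_one h1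
    have ha0' : a' ≠ 0 := by rintro rfl; rw [map_zero] at h1'; exact zero_ne_one h1'
    have hprod : v (a * a' - 1) ≤ v π ^ r := by
      rw [show a * a' - 1 = a * (a' - 1) + (a - 1) by ring]
      refine Valuation.map_add_le v ?_ hva
      rw [map_mul, h1, one_mul]
      exact hva'
    rw [← kum_add ha ha' ha0 ha0', hφ _ (lev_fx_mul ha ha') hprod, hφ _ ha hva, hφ _ ha' hva',
      ← hr.add _ _ (hqf _ ha) (hqf _ ha') (hq _ hva) (hq _ hva')]
    refine lev_red_eq hr (hqf _ (lev_fx_mul ha ha')) (lev_fx_add (hqf _ ha) (hqf _ ha'))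
      (hq _ hprod) (Valuation.map_add_le v (hq _ hva) (hq _ hva')) ?_
    have h2 : (a * a' - 1) / π ^ r - ((a - 1) / π ^ r + (a' - 1) / π ^ r) =
        (a - 1) * ((a' - 1) / π ^ r) := by
      field_simp
      ring
    rw [h2, map_mul]
    calc v (a - 1) * v ((a' - 1) / π ^ r) ≤ v π ^ r * 1 := mul_le_mul' hva (hq _ hva')
      _ < 1 := by rw [mul_one]; exact hr1
  · intro χ hχ h0
    obtain ⟨a, ha, hva, rfl⟩ := (mem_lv hr1).1 hχ
    rw [hφ _ ha hva, hr.ker _ (hqf _ ha) (hq _ hva), map_div₀, map_pow, div_lt_one₀ hr0] at h0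
    refine AddSubgroup.subset_closure ⟨a, ha, ?_, rfl⟩
    exact lev_disc halg hD hf hπ (lev_fx_sub ha lev_fx_one) h0
  · intro χ hχ
    obtain ⟨a, ha, hva, rfl⟩ := (mem_lv (hr1'.trans hr1)).1 hχ
    have hva' : v (a - 1) < v π ^ r := lt_of_le_of_lt hva hr1'
    rw [hφ _ ha hva'.le, hr.ker _ (hqf _ ha) (hq _ hva'.le), map_div₀, map_pow, div_lt_one₀ hr0]
    exact hva'
  · intro z
    obtain ⟨x, hx, hvx, rfl⟩ := hr.surj z
    have hva : v (1 + π ^ r * x - 1) ≤ v π ^ r := by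
      rw [add_sub_cancel_left, map_mul, map_pow]
      exact mul_le_of_le_one_right' hvx
    have ha : Fxc (rtC D (2 ^ f - 1)) (1 + π ^ r * x) := lev_fx_add lev_fx_one (lev_fx_mul hπr hx)
    refine ⟨kum (rtC D (2 ^ f - 1)) (1 + π ^ r * x),
      AddSubgroup.subset_closure ⟨_, ha, hva, rfl⟩, ?_⟩
    rw [hφ _ ha hva, add_sub_cancel_left, mul_div_cancel_left₀ _ (pow_ne_zero r hπ0)]
  · intro g χ hχ
    obtain ⟨a, ha, hva, rfl⟩ := (mem_lv hr1).1 hχ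
    have hga : Fxc (rtC D (2 ^ f - 1)) ((g : Ω ≃+* Ω) a) := fxc_smul ha g
    have hvga : v ((g : Ω ≃+* Ω) a - 1) ≤ v π ^ r := by
      have h1 : (g : Ω ≃+* Ω) a - 1 = (g : Ω ≃+* Ω) (a - 1) := by rw [map_sub, map_one]
      rw [h1, hD.inv _ g.2]
      exact hva
    have hroot := lev_root_pi hπ (g : Ω ≃+* Ω)
    have hrC : Fxc (rtC D (2 ^ f - 1)) ((g : Ω ≃+* Ω) π / π) := fun h hh => (mem_rtC.1 hh).1 _ hroot
    have hrv : v ((g : Ω ≃+* Ω) π / π) = 1 := lev_v_root he hroot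
    rw [kum_cj ha, hφ _ hga hvga, hφ _ ha hva]
    have h2 : ((g : Ω ≃+* Ω) a - 1) / π ^ r =
        ((g : Ω ≃+* Ω) π / π) ^ r * (g : Ω ≃+* Ω) ((a - 1) / π ^ r) := by
      have hgπ : (g : Ω ≃+* Ω) π ≠ 0 := (map_ne_zero _).2 hπ0
      rw [map_div₀, map_sub, map_one, map_pow, div_pow]
      field_simp
    rw [h2, hr.mul _ _ (lev_fx_pow hrC r) (fxc_smul (hqf _ ha) g)
      (by rw [map_pow, hrv, one_pow]) (by rw [hD.inv _ g.2]; exact hq _ hva),
      lev_red_pow hr hrC hrv.le, hr.eqv g _ (hqf _ ha) (hq _ hva)]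

theorem lu_relIndex (halg : Alg Ω) (hD : VD D v) {f : ℕ} (hf : 0 < f) :
    (lu v (rtC D (2 ^ f - 1))).relIndex (lw (rtC D (2 ^ f - 1))) = 2 := by
  have he := lev_e_pos hf
  obtain ⟨π, hπ⟩ := IsAlgClosed.exists_pow_nat_eq (2 : Ω) he
  have hπ0 := lev_pi_ne hf hπ
  have hp0 : 0 < v π := (Valuation.pos_iff v).2 hπ0
  have hp1 := lev_vpi hD hf hπ
  have hπC : Fxc (rtC D (2 ^ f - 1)) π := lev_fx_pi hπ
  -- not in the group of the units
  have hnot : kum (rtC D (2 ^ f - 1)) π ∉ lu v (rtC D (2 ^ f - 1)) := by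
    intro hmem
    obtain ⟨u, hu, hvu, hk⟩ := mem_lu.1 hmem
    have hu0 : u ≠ 0 := by rintro rfl; rw [map_zero] at hvu; exact zero_ne_one hvu
    have h2 : kum (rtC D (2 ^ f - 1)) (π * u) = 0 := by
      rw [kum_add hπC hu hπ0 hu0, hk, lev_add_self]
    obtain ⟨t, ht, htt⟩ := (kum_eq_zero (lev_fx_mul hπC hu)).1 h2
    have ht0 : t ≠ 0 := by
      rintro rfl
      exact mul_ne_zero hπ0 hu0 (by rw [← htt]; ring)
    obtain ⟨m, hm⟩ := lev_val halg hD hf hπ ht0 ht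
    have h3 : v π ^ (2 * m) = v π ^ (1 : ℤ) := by
      rw [two_mul, zpow_add₀ hp0.ne', ← hm, ← map_mul, ← sq, htt, map_mul, hvu, mul_one, zpow_one]
    have h4 := zpow_right_injective₀ hp0 hp1.ne h3
    omega
  rw [AddSubgroup.relIndex, AddSubgroup.index_eq_two_iff]
  refine ⟨⟨kum (rtC D (2 ^ f - 1)) π, mem_lw.2 ⟨π, hπC, hπ0, rfl⟩⟩, ?_⟩
  rintro ⟨b, hb⟩
  obtain ⟨a, ha, ha0, rfl⟩ := mem_lw.1 hb
  rw [AddSubgroup.mem_addSubgroupOf, AddSubgroup.mem_addSubgroupOf]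
  show Xor (kum (rtC D (2 ^ f - 1)) a + kum (rtC D (2 ^ f - 1)) π ∈ lu v (rtC D (2 ^ f - 1)))
    (kum (rtC D (2 ^ f - 1)) a ∈ lu v (rtC D (2 ^ f - 1)))
  -- even valuation
  have heven : ∀ (x : Ω), Fxc (rtC D (2 ^ f - 1)) x → x ≠ 0 → ∀ m : ℤ, v x = v π ^ (2 * m) →
      kum (rtC D (2 ^ f - 1)) x ∈ lu v (rtC D (2 ^ f - 1)) := by
    intro x hx hx0 m hm
    have hy0 : π ^ (-m) ≠ 0 := zpow_ne_zero _ hπ0
    have hyC : Fxc (rtC D (2 ^ f - 1)) (π ^ (-m)) := lev_fx_zpow hπC _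
    have h1 : kum (rtC D (2 ^ f - 1)) (x * (π ^ (-m) * π ^ (-m))) = kum (rtC D (2 ^ f - 1)) x := by
      rw [kum_add hx (lev_fx_mul hyC hyC) hx0 (mul_ne_zero hy0 hy0), kum_add hyC hyC hy0 hy0,
        lev_add_self, add_zero]
    rw [← h1]
    refine mem_lu.2 ⟨_, lev_fx_mul hx (lev_fx_mul hyC hyC), ?_, rfl⟩
    rw [map_mul, map_mul, map_zpow₀, hm, ← zpow_add₀ hp0.ne', ← zpow_add₀ hp0.ne',
      show 2 * m + (-m + -m) = 0 by ring, zpow_zero]
  obtain ⟨n, hn⟩ := lev_val halg hD hf hπ ha0 ha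
  rcases Int.even_or_odd' n with ⟨m, rfl | rfl⟩
  · right
    refine ⟨heven a ha ha0 m hn, fun h => hnot ?_⟩
    have h1 := (lu v (rtC D (2 ^ f - 1))).sub_mem h (heven a ha ha0 m hn)
    rwa [add_sub_cancel_left] at h1
  · left
    have h1 : kum (rtC D (2 ^ f - 1)) a + kum (rtC D (2 ^ f - 1)) π ∈ lu v (rtC D (2 ^ f - 1)) := by
      rw [← kum_add ha hπC ha0 hπ0]
      refine heven _ (lev_fx_mul ha hπC) (mul_ne_zero ha0 hπ0) (m + 1) ?_
      rw [map_mul, hn, ← zpow_add_one₀ hp0.ne']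
      congr 1
      ring
    refine ⟨h1, fun h => hnot ?_⟩
    have h2 := (lu v (rtC D (2 ^ f - 1))).sub_mem h1 h
    rwa [add_sub_cancel_left] at h2

end Pool.Agent.Work.MP_787500_nt.EF
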