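import Mathlib
import Pool.Agent.Work.MP_787500_nt.EF.Exp

/-!
# Module Red (size M): the residue field

`C = rtC D e`, `e = 2 ^ f - 1`. `R = {x | x fixed by C, v x ≤ 1}` is a subring of `Ω`, `m = {x ∈ R | v x < 1}` an ideal, `k = R / m` a field
(if `v x = 1` then `x⁻¹ ∈ R`); `red x` = class of `x` if `x ∈ R`, else 0. `D` acts on `R` (`C` is normal, `v` is invariant), hence on `k`:
`db`. By `exp_C` every `x ∈ R` with `v x = 1` is `≡ ζ ^ i` (`v (x π ^ k ζ ^ j - 1) < 1` and `v x = 1`, `v π < 1` give `k = 0`), so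
`k = {0, red ζ ^ i}`; the `red ζ ^ i` (`0 ≤ i < e`) are distinct (`root_inj`): `card k = e + 1 = 2 ^ f`. If `db g z = z` for all `g`, `z ≠ 0`,
`z = red (ζ ^ i)`, then `g (ζ ^ i) = ζ ^ i` for all `g ∈ D` (`root_inj`), so by `VD.imm` `v (ζ ^ i * 2 ^ k - 1) < 1`, so `k = 0` and `ζ ^ i = 1`
(`root_inj`), `z = 1`. `db g = 1` iff `g` fixes all `ζ ^ i` (`root_inj`), i.e. `g ∈ rtT D e` (`db_one`).
-/

set_option autoImplicit false
set_option linter.unusedSectionVars false

namespace Pool.Agent.Work.MP_787500_nt.EF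

open Pool.Agent.Work.MP_787500_nt.HP (Alg)

universe u

variable {Ω : Type u} [Field Ω] [CharZero Ω] [IsAlgClosed Ω] {Γ : Type*}
  [LinearOrderedCommGroupWithZero Γ] {D : Subgroup (Ω ≃+* Ω)} {v : Valuation Ω Γ}

section aux

/-- the fixed field of `C` -/
private def FF (C : Subgroup D) : Subfield Ω where
  carrier := {x | Fxc C x}
  mul_mem' := fun {a b} ha hb g hg => by rw [map_mul, ha g hg, hb g hg]
  one_mem' := fun g _ => map_one _
  add_mem' := fun {a b} ha hb g hg => by rw [map_add, ha g hg, hb g hg]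
  zero_mem' := fun g _ => map_zero _
  neg_mem' := fun {a} ha g hg => by rw [map_neg, ha g hg]
  inv_mem' := fun a ha g hg => by rw [map_inv₀, ha g hg]

private theorem mem_FF {C : Subgroup D} {x : Ω} : x ∈ FF C ↔ Fxc C x := Iff.rfl

/-- the ring of integers of the fixed field -/
private abbrev RR (v : Valuation Ω Γ) (C : Subgroup D) : ValuationSubring (FF C) :=
  (v.comap (FF C).subtype).valuationSubring

private theorem mem_RR {C : Subgroup D} {x : FF C} : x ∈ RR v C ↔ v (x : Ω) ≤ 1 := Iff.rfl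

private def elt {C : Subgroup D} {x : Ω} (h : Fxc C x) (h1 : v x ≤ 1) : RR v C :=
  ⟨⟨x, h⟩, mem_RR.mpr h1⟩

private theorem unit_iff {C : Subgroup D} (x : RR v C) : IsUnit x ↔ v ((x : FF C) : Ω) = 1 := by
  have hx : v ((x : FF C) : Ω) ≤ 1 := mem_RR.mp x.2
  constructor
  · rintro h
    obtain ⟨y, hy⟩ := h.exists_right_inv
    have h1 : ((x : FF C) : Ω) * ((y : FF C) : Ω) = 1 := by
      have := congrArg (fun z : RR v C => ((z : FF C) : Ω)) hy
      simpa using this
    have h2 : v ((y : FF C) : Ω) ≤ 1 := mem_RR.mp y.2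
    have h3 : v ((x : FF C) : Ω) * v ((y : FF C) : Ω) = 1 := by
      rw [← map_mul, h1, map_one]
    apply le_antisymm hx
    rw [← h3]
    calc _ ≤ v ((x : FF C) : Ω) * 1 := by gcongr
      _ = _ := mul_one _
  · intro h
    have hne : ((x : FF C) : Ω) ≠ 0 := by
      intro h0
      rw [h0, map_zero] at h
      exact zero_ne_one h
    have hfx : Fxc C (((x : FF C) : Ω)⁻¹) := (FF C).inv_mem (x : FF C).2
    have hv : v (((x : FF C) : Ω)⁻¹) ≤ 1 := by rw [map_inv₀, h, inv_one]
    refine isUnit_iff_exists_inv.mpr ⟨elt hfx hv, ?_⟩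
    apply Subtype.ext
    apply Subtype.ext
    show ((x : FF C) : Ω) * (((x : FF C) : Ω)⁻¹) = 1
    exact mul_inv_cancel₀ hne

private theorem res_zero {C : Subgroup D} (x : RR v C) :
    IsLocalRing.residue (RR v C) x = 0 ↔ v ((x : FF C) : Ω) < 1 := by
  rw [IsLocalRing.residue_eq_zero_iff, IsLocalRing.mem_maximalIdeal, mem_nonunits_iff, unit_iff]
  have hx : v ((x : FF C) : Ω) ≤ 1 := mem_RR.mp x.2
  constructor
  · intro h
    exact lt_of_le_of_ne hx h
  · intro h
    exact h.ne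

open Classical in
/-- the reduction -/
private noncomputable def redf (v : Valuation Ω Γ) (C : Subgroup D) (x : Ω) :
    IsLocalRing.ResidueField (RR v C) :=
  if h : Fxc C x ∧ v x ≤ 1 then IsLocalRing.residue (RR v C) (elt h.1 h.2) else 0

private theorem redf_eq {C : Subgroup D} {x : Ω} (h : Fxc C x) (h1 : v x ≤ 1) :
    redf v C x = IsLocalRing.residue (RR v C) (elt h h1) := by
  unfold redf
  rw [dif_pos ⟨h, h1⟩]

private theorem fxc_conj {C : Subgroup D} [hC : C.Normal] (g : D) {x : Ω} (hx : Fxc C x) :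
    Fxc C ((g : Ω ≃+* Ω) x) := by
  intro c hc
  have h1 : g⁻¹ * c * g ∈ C := by simpa using hC.conj_mem c hc g⁻¹
  have h2 := hx _ h1
  have h3 : ((g⁻¹ * c * g : D) : Ω ≃+* Ω) x =
      (g : Ω ≃+* Ω)⁻¹ ((c : Ω ≃+* Ω) ((g : Ω ≃+* Ω) x)) := rfl
  rw [h3] at h2
  have h4 := congrArg (g : Ω ≃+* Ω) h2
  have h5 : ∀ y, (g : Ω ≃+* Ω) ((g : Ω ≃+* Ω)⁻¹ y) = y := fun y =>
    (g : Ω ≃+* Ω).apply_symm_apply y
  rw [h5] at h4
  exact h4

private def actf (hD : VD D v) {C : Subgroup D} [C.Normal] (g : D) (x : RR v C) : RR v C :=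
  elt (x := (g : Ω ≃+* Ω) ((x : FF C) : Ω)) (fxc_conj g (x : FF C).2)
    (by rw [hD.inv g g.2]; exact mem_RR.mp x.2)

private theorem actf_coe (hD : VD D v) {C : Subgroup D} [C.Normal] (g : D) (x : RR v C) :
    ((actf hD g x : FF C) : Ω) = (g : Ω ≃+* Ω) ((x : FF C) : Ω) := rfl

private theorem RR_ext {C : Subgroup D} {x y : RR v C} (h : ((x : FF C) : Ω) = ((y : FF C) : Ω)) :
    x = y := Subtype.ext (Subtype.ext h)

private def acte (hD : VD D v) {C : Subgroup D} [C.Normal] (g : D) : RR v C ≃+* RR v C where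
  toFun := actf hD g
  invFun := actf hD g⁻¹
  left_inv := fun x => RR_ext (by
    rw [actf_coe, actf_coe]
    exact (g : Ω ≃+* Ω).symm_apply_apply _)
  right_inv := fun x => RR_ext (by
    rw [actf_coe, actf_coe]
    exact (g : Ω ≃+* Ω).apply_symm_apply _)
  map_mul' := fun x y => RR_ext (by
    show (g : Ω ≃+* Ω) (((x : FF C) : Ω) * ((y : FF C) : Ω)) = _
    rw [map_mul]
    rfl)
  map_add' := fun x y => RR_ext (by
    show (g : Ω ≃+* Ω) (((x : FF C) : Ω) + ((y : FF C) : Ω)) = _
    rw [map_add]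
    rfl)

private def acth (hD : VD D v) (C : Subgroup D) [C.Normal] : D →* RingAut (RR v C) :=
  MonoidHom.mk' (fun g => acte hD g) (by
    intro g h
    apply RingEquiv.ext
    intro x
    exact RR_ext rfl)

private noncomputable def dbh (hD : VD D v) (C : Subgroup D) [C.Normal] :
    D →* RingAut (IsLocalRing.ResidueField (RR v C)) :=
  (IsLocalRing.ResidueField.mapAut).comp (acth hD C)

private theorem dbh_res (hD : VD D v) {C : Subgroup D} [C.Normal] (g : D) (x : RR v C) :
    dbh hD C g (IsLocalRing.residue (RR v C) x) = IsLocalRing.residue (RR v C) (actf hD g x) := rfl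

private theorem rdc_of (hD : VD D v) (C : Subgroup D) [C.Normal] :
    Rdc v C (redf v C) (dbh hD C) where
  add := by
    intro x y hx hy hx1 hy1
    have hxy : Fxc C (x + y) := (FF C).add_mem hx hy
    have hxy1 : v (x + y) ≤ 1 := (v.map_add x y).trans (max_le hx1 hy1)
    rw [redf_eq hx hx1, redf_eq hy hy1, redf_eq hxy hxy1, ← map_add]
    rfl
  mul := by
    intro x y hx hy hx1 hy1
    have hxy : Fxc C (x * y) := (FF C).mul_mem hx hy
    have hxy1 : v (x * y) ≤ 1 := by
      rw [map_mul]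
      exact mul_le_one' hx1 hy1
    rw [redf_eq hx hx1, redf_eq hy hy1, redf_eq hxy hxy1, ← map_mul]
    rfl
  one := by
    rw [redf_eq (FF C).one_mem (by rw [map_one]), ← map_one (IsLocalRing.residue (RR v C))]
    rfl
  ker := by
    intro x hx hx1
    rw [redf_eq hx hx1, res_zero]
    rfl
  surj := by
    intro z
    obtain ⟨x, rfl⟩ := IsLocalRing.residue_surjective z
    refine ⟨((x : FF C) : Ω), (x : FF C).2, mem_RR.mp x.2, ?_⟩
    rw [redf_eq (x : FF C).2 (mem_RR.mp x.2)]
    rfl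
  eqv := by
    intro g x hx hx1
    have hgx : Fxc C ((g : Ω ≃+* Ω) x) := fxc_conj g hx
    have hgx1 : v ((g : Ω ≃+* Ω) x) ≤ 1 := by rwa [hD.inv g g.2]
    rw [redf_eq hx hx1, redf_eq hgx hgx1, dbh_res]
    rfl

private theorem fxc_pow {C : Subgroup D} {x : Ω} (h : Fxc C x) (n : ℕ) : Fxc C (x ^ n) :=
  (FF C).pow_mem h n

private theorem red_pow {C : Subgroup D} {k : Type u} [Field k] {red : Ω → k}
    {db : D →* (k ≃+* k)} (hR : Rdc v C red db) {x : Ω} (h : Fxc C x) (h1 : v x ≤ 1) (n : ℕ) :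
    red (x ^ n) = red x ^ n := by
  induction n with
  | zero => simpa using hR.one
  | succ n ih =>
    rw [pow_succ, pow_succ, hR.mul _ _ (fxc_pow h n) h (by rw [map_pow]; exact pow_le_one' h1 n) h1,
      ih]

private theorem red_sub {C : Subgroup D} {k : Type u} [Field k] {red : Ω → k}
    {db : D →* (k ≃+* k)} (hR : Rdc v C red db) {x y : Ω} (hx : Fxc C x) (hy : Fxc C y)
    (hx1 : v x ≤ 1) (hy1 : v y ≤ 1) : red x = red y ↔ v (x - y) < 1 := by
  have h1 : Fxc C (x - y) := (FF C).sub_mem hx hy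
  have h2 : v (x - y) ≤ 1 := (v.map_sub x y).trans (max_le hx1 hy1)
  have h3 := hR.add (x - y) y h1 hy h2 hy1
  rw [sub_add_cancel] at h3
  rw [← hR.ker _ h1 h2, h3]
  constructor
  · intro h
    exact add_eq_right.mp h
  · intro h
    rw [h, zero_add]

end aux

theorem exists_rdc (halg : Alg Ω) (hD : VD D v) {f : ℕ} (hf : 0 < f) :
    ∃ (k : Type u) (_ : Field k) (_ : Finite k) (red : Ω → k) (db : D →* (k ≃+* k)),
      Rdc v (rtC D (2 ^ f - 1)) red db ∧ Nat.card k = 2 ^ f ∧
      (∀ z : k, (∀ g, db g z = z) → z = 0 ∨ z = 1) ∧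
      ∀ g ∈ rtT D (2 ^ f - 1), db g = 1 := by
  have he : 0 < 2 ^ f - 1 := by
    have : 2 ^ 1 ≤ 2 ^ f := Nat.pow_le_pow_right (by norm_num) hf
    omega
  have hodd : Odd (2 ^ f - 1) := by
    obtain ⟨g, rfl⟩ : ∃ g, f = g + 1 := ⟨f - 1, by omega⟩
    refine ⟨2 ^ g - 1, ?_⟩
    have : 1 ≤ 2 ^ g := Nat.one_le_two_pow
    rw [pow_succ]
    omega
  set e := 2 ^ f - 1 with hedef
  set C := rtC D e with hCdef
  set k := IsLocalRing.ResidueField (RR v C) with hk
  set red : Ω → k := redf v C with hred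
  set db : D →* (k ≃+* k) := dbh hD C with hdb
  have hR : Rdc v C red db := rdc_of hD C
  obtain ⟨ζ, hζ⟩ : ∃ ζ : Ω, IsPrimitiveRoot ζ e := by
    have : NeZero ((e : ℕ) : Ω) := ⟨by exact_mod_cast he.ne'⟩
    have : NeZero e := ⟨he.ne'⟩
    exact HasEnoughRootsOfUnity.exists_primitiveRoot Ω e
  obtain ⟨π, hπ⟩ := IsAlgClosed.exists_pow_nat_eq (2 : Ω) he
  have hζC : Fxc C ζ := fun g hg => hg.1 ζ hζ.pow_eq_one
  have hvζ : v ζ = 1 := by
    have h1 : v ζ ^ e = 1 := by rw [← map_pow, hζ.pow_eq_one, map_one]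
    exact (pow_eq_one_iff_of_nonneg zero_le he.ne').mp h1
  have hvζi : ∀ i : ℕ, v (ζ ^ i) = 1 := fun i => by rw [map_pow, hvζ, one_pow]
  have hπ0 : π ≠ 0 := by
    rintro rfl
    rw [zero_pow he.ne'] at hπ
    exact two_ne_zero hπ.symm
  have hvπ : v π < 1 := by
    by_contra h
    rw [not_lt] at h
    have h1 : 1 ≤ v π ^ e := one_le_pow₀ h
    rw [← map_pow, hπ] at h1
    exact absurd hD.two (not_lt.mpr h1)
  have hvπ0 : v π ≠ 0 := by simpa using hπ0
  set ξ := red ζ with hξ
  have hξpow : ∀ i : ℕ, red (ζ ^ i) = ξ ^ i := fun i => red_pow hR hζC hvζ.le i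
  -- reduction of roots of unity is injective
  have hinj : ∀ x y : Ω, x ^ e = 1 → y ^ e = 1 → v (x - y) < 1 → x = y := by
    intro x y hx hy h
    have hy0 : y ≠ 0 := by
      rintro rfl
      rw [zero_pow he.ne'] at hy
      exact zero_ne_one hy
    have hvy : v y = 1 := by
      have h1 : v y ^ e = 1 := by rw [← map_pow, hy, map_one]
      exact (pow_eq_one_iff_of_nonneg zero_le he.ne').mp h1
    have h1 : x / y = 1 := by
      apply root_inj hD.two hodd
      · rw [div_pow, hx, hy, div_one]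
      · have e1 : x / y - 1 = (x - y) / y := by field_simp
        rw [e1, map_div₀, hvy, div_one]
        exact h
    rwa [div_eq_one_iff_eq hy0] at h1
  have hprim : IsPrimitiveRoot ξ e := by
    constructor
    · rw [← hξpow, hζ.pow_eq_one]
      exact hR.one
    · intro l hl
      rw [← hξpow] at hl
      have h1 : red (ζ ^ l) = red 1 := by rw [hl, hR.one]
      rw [red_sub hR (fxc_pow hζC l) (FF C).one_mem (hvζi l).le (by rw [map_one])] at h1
      have h2 := hinj (ζ ^ l) 1 (by rw [← pow_mul, mul_comm, pow_mul, hζ.pow_eq_one, one_pow])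
        (one_pow _) h1
      exact hζ.dvd_of_pow_eq_one l h2
  have hall : ∀ z : k, z ≠ 0 → ∃ i < e, ξ ^ i = z := by
    intro z hz
    obtain ⟨x, hx, hx1, rfl⟩ := hR.surj z
    have hvx : v x = 1 := by
      apply le_antisymm hx1
      by_contra h
      rw [not_le] at h
      exact hz ((hR.ker x hx hx1).mpr h)
    have hx0 : x ≠ 0 := by
      rintro rfl
      rw [map_zero] at hvx
      exact zero_ne_one hvx
    obtain ⟨m, j, hmj⟩ := exp_C halg hD hf hζ hπ hx0 hx
    have h1 : v (x * π ^ m * ζ ^ j) = 1 := by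
      have h2 := v.map_one_add_of_lt hmj
      have e1 : (1 : Ω) + (x * π ^ m * ζ ^ j - 1) = x * π ^ m * ζ ^ j := by ring
      rwa [e1] at h2
    rw [map_mul, map_mul, hvx, one_mul, hvζi, mul_one, map_zpow₀] at h1
    have hm : m = 0 := by
      rcases lt_trichotomy m 0 with h | h | h
      · exfalso
        have h3 : 1 < v π ^ m := one_lt_zpow_of_neg₀ (zero_lt_iff.mpr hvπ0) hvπ h
        rw [h1] at h3
        exact lt_irrefl _ h3
      · exact h
      · exfalso
        have h3 : v π ^ m < 1 := zpow_lt_one₀ (zero_lt_iff.mpr hvπ0) hvπ h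
        rw [h1] at h3
        exact lt_irrefl _ h3
    rw [hm, zpow_zero, mul_one] at hmj
    have h2 : red (x * ζ ^ j) = red 1 := by
      rw [red_sub hR ((FF C).mul_mem hx (fxc_pow hζC j)) (FF C).one_mem
        (by rw [map_mul, hvx, hvζi, one_mul]) (by rw [map_one])]
      exact hmj
    rw [hR.mul _ _ hx (fxc_pow hζC j) hx1 (hvζi j).le, hξpow, hR.one] at h2
    have h3 : (red x) ^ e = 1 := by
      have h4 : (red x * ξ ^ j) ^ e = 1 := by rw [h2, one_pow]
      rw [mul_pow, ← pow_mul, mul_comm j e, pow_mul, hprim.pow_eq_one, one_pow, mul_one] at h4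
      exact h4
    have : NeZero e := ⟨he.ne'⟩
    exact hprim.eq_pow_of_pow_eq_one h3
  let F : Option (Fin e) → k := fun o => Option.elim o 0 fun i => ξ ^ (i : ℕ)
  have hξ0 : ξ ≠ 0 := hprim.ne_zero he.ne'
  have hF : Function.Bijective F := by
    constructor
    · intro a b hab
      cases a with
      | none =>
        cases b with
        | none => rfl
        | some j =>
          exfalso
          exact pow_ne_zero _ hξ0 (hab.symm : ξ ^ (j : ℕ) = 0)
      | some i =>
        cases b with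
        | none =>
          exfalso
          exact pow_ne_zero _ hξ0 (hab : ξ ^ (i : ℕ) = 0)
        | some j =>
          congr 1
          exact Fin.ext (hprim.pow_inj i.2 j.2 hab)
    · intro z
      by_cases hz : z = 0
      · exact ⟨none, hz.symm⟩
      · obtain ⟨i, hi, hiz⟩ := hall z hz
        exact ⟨some ⟨i, hi⟩, hiz⟩
  have hfin : Finite k := Finite.of_surjective F hF.2
  have hcard : Nat.card k = 2 ^ f := by
    rw [← Nat.card_congr (Equiv.ofBijective F hF), Nat.card_eq_fintype_card, Fintype.card_option,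
      Fintype.card_fin, hedef]
    have : 1 ≤ 2 ^ f := Nat.one_le_two_pow
    omega
  refine ⟨k, inferInstance, hfin, red, db, hR, hcard, ?_, ?_⟩
  · intro z hz
    by_cases hz0 : z = 0
    · exact Or.inl hz0
    · right
      obtain ⟨i, -, rfl⟩ := hall z hz0
      have hgi : ∀ g ∈ D, g (ζ ^ i) = ζ ^ i := by
        intro g hg
        have h1 := hz ⟨g, hg⟩
        rw [← hξpow, ← hR.eqv ⟨g, hg⟩ _ (fxc_pow hζC i) (hvζi i).le] at h1
        have h2 : Fxc C (g (ζ ^ i)) := fxc_conj (C := C) ⟨g, hg⟩ (fxc_pow hζC i)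
        have h3 : v (g (ζ ^ i)) ≤ 1 := by rw [hD.inv g hg]; exact (hvζi i).le
        have h4 := (red_sub hR h2 (fxc_pow hζC i) h3 (hvζi i).le).mp h1
        apply hinj _ _ _ _ h4
        · rw [← map_pow, ← pow_mul, mul_comm, pow_mul, hζ.pow_eq_one, one_pow, map_one]
        · rw [← pow_mul, mul_comm, pow_mul, hζ.pow_eq_one, one_pow]
      obtain ⟨m, hm⟩ := hD.imm (ζ ^ i) (pow_ne_zero _ (hζ.ne_zero he.ne')) hgi
      have h1 : v (ζ ^ i * 2 ^ m) = 1 := by
        have h2 := v.map_one_add_of_lt hm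
        have e1 : (1 : Ω) + (ζ ^ i * 2 ^ m - 1) = ζ ^ i * 2 ^ m := by ring
        rwa [e1] at h2
      rw [map_mul, hvζi, one_mul, map_zpow₀] at h1
      have h20 : v (2 : Ω) ≠ 0 := by
        rw [ne_eq, map_eq_zero]
        exact two_ne_zero
      have hm0 : m = 0 := by
        rcases lt_trichotomy m 0 with h | h | h
        · exfalso
          have h3 : 1 < v (2 : Ω) ^ m := one_lt_zpow_of_neg₀ (zero_lt_iff.mpr h20) hD.two h
          rw [h1] at h3
          exact lt_irrefl _ h3
        · exact h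
        · exfalso
          have h3 : v (2 : Ω) ^ m < 1 := zpow_lt_one₀ (zero_lt_iff.mpr h20) hD.two h
          rw [h1] at h3
          exact lt_irrefl _ h3
      rw [hm0, zpow_zero, mul_one] at hm
      have h5 := (red_sub hR (fxc_pow hζC i) (FF C).one_mem (hvζi i).le
        (by rw [map_one])).mpr hm
      rw [hR.one, hξpow] at h5
      exact h5
  · intro g hg
    apply RingEquiv.ext
    intro z
    show db g z = z
    by_cases hz0 : z = 0
    · rw [hz0, map_zero]
    · obtain ⟨i, -, rfl⟩ := hall z hz0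
      rw [← hξpow, ← hR.eqv g _ (fxc_pow hζC i) (hvζi i).le, map_pow, hg ζ hζ.pow_eq_one]

end Pool.Agent.Work.MP_787500_nt.EF
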