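import Mathlib
import Pool.Agent.Work.MP_787500_nt.EF.Lev
import Pool.Agent.Work.MP_787500_nt.EF.Idx
import Pool.Agent.Work.MP_787500_nt.EF.Red

/-!
# Module Cnt (size M): the count

`e = 2 ^ f - 1`, `T = rtT D e`, `C = rtC D e`, `π ^ e = 2`, `n = C.index = C.relIndex T * T.index`. `C` is open: `Opn (fullC D) C` (`C` itself is normal, of
finite index: it is the kernel of the action on the finite set of roots of `(x ^ e - 1) (x ^ e - 2)`; `s` = these roots). By `CountsF`: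
`Nat.card (lm C) = 2 ^ (n + 2)` (finrank `1 * n + 2` over `ZMod 2`).
Chain `lm ≥ lw ≥ lu ≥ lv (v π) ≥ lv (v π ^ 2) ≥ .. ≥ lv (v π ^ (2 e)) ≥ ⊥` (`lw_le`, `lu_le`, `lv_le`, `lv_mono`): the product of the indices is
`2 ^ (n + 2)` (`AddSubgroup.relIndex_mul_relIndex`); index of `lu` in `lw` is 2 (`lu_relIndex`); the `e` steps with `r` odd, `r < 2 e`, have index
`card k = 2 ^ f` (`lev_stp`, `lev_relIndex`, `exists_rdc`). So `2 ^ (n + 2) = 2 * 2 ^ (e f) * (product of the other indices)`, all indices are powers of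
2. `n ∣ e f` (`index_T`, `relIndex_C`), and `n + 1 ≥ e f`: if `f = 1` then `e = 1`, `n = 1`; otherwise `e f ≥ 6`, so `n = e f` (a proper divisor is at most
half). So the product of the other indices is 2: each is 1 or 2. And `n = e f` with `T.index ∣ f`, `C.relIndex T ∣ e` gives `C.relIndex T = e`.
-/

set_option autoImplicit false
set_option linter.unusedSectionVars false

namespace Pool.Agent.Work.MP_787500_nt.EF

open Pool.Agent.Work.MP_787500_nt.PA (homs)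
open Pool.Agent.Work.MP_787500_nt.HP (Alg)
open Pool.Agent.Work.MP_787500_nt.KR (FSys two res fullC CountsF Z1 Sm1 Smooth Opn)

universe u

variable {Ω : Type u} [Field Ω] [CharZero Ω] [IsAlgClosed Ω] {Γ : Type*}
  [LinearOrderedCommGroupWithZero Γ] {D : Subgroup (Ω ≃+* Ω)} {v : Valuation Ω Γ}

/-- the result of the count -/
structure CntH (v : Valuation Ω Γ) (D : Subgroup (Ω ≃+* Ω)) (f : ℕ) (π : Ω) : Prop where
  fin : (lm (rtC D (2 ^ f - 1)) : Set (rtC D (2 ^ f - 1) → ZMod 2)).Finite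
  full : (rtC D (2 ^ f - 1)).relIndex (rtT D (2 ^ f - 1)) = 2 ^ f - 1
  one : (lw (rtC D (2 ^ f - 1))).relIndex (lm (rtC D (2 ^ f - 1))) = 1 ∨
    (lw (rtC D (2 ^ f - 1))).relIndex (lm (rtC D (2 ^ f - 1))) = 2
  unit : (lv v (rtC D (2 ^ f - 1)) (v π ^ 1)).relIndex (lu v (rtC D (2 ^ f - 1))) = 1 ∨
    (lv v (rtC D (2 ^ f - 1)) (v π ^ 1)).relIndex (lu v (rtC D (2 ^ f - 1))) = 2
  even : ∀ r, 0 < r → Even r → r < 2 * (2 ^ f - 1) →
    (lv v (rtC D (2 ^ f - 1)) (v π ^ (r + 1))).relIndex (lv v (rtC D (2 ^ f - 1)) (v π ^ r)) = 1 ∨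
    (lv v (rtC D (2 ^ f - 1)) (v π ^ (r + 1))).relIndex (lv v (rtC D (2 ^ f - 1)) (v π ^ r)) = 2
  last : (⊥ : AddSubgroup (rtC D (2 ^ f - 1) → ZMod 2)).relIndex
      (lv v (rtC D (2 ^ f - 1)) (v π ^ (2 * (2 ^ f - 1)))) = 1 ∨
    (⊥ : AddSubgroup (rtC D (2 ^ f - 1) → ZMod 2)).relIndex
      (lv v (rtC D (2 ^ f - 1)) (v π ^ (2 * (2 ^ f - 1)))) = 2

private theorem chain_prod {A : Type*} [AddCommGroup A] (N : ℕ → AddSubgroup A)
    (hN : ∀ r, 1 ≤ r → N (r + 1) ≤ N r) (b : ℕ) (hb : 1 ≤ b) :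
    N b ≤ N 1 ∧ (N b).relIndex (N 1) = ∏ r ∈ Finset.Ico 1 b, (N (r + 1)).relIndex (N r) := by
  induction b, hb using Nat.le_induction with
  | base => exact ⟨le_rfl, by simp⟩
  | succ b hb ih =>
    refine ⟨(hN b hb).trans ih.1, ?_⟩
    rw [Finset.prod_Ico_succ_top hb, ← ih.2, mul_comm]
    exact (AddSubgroup.relIndex_mul_relIndex _ _ _ (hN b hb) ih.1).symm

private theorem odd_card (e : ℕ) :
    ((Finset.Ico 1 (2 * e)).filter fun r => Odd r).card = e := by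
  have h1 : ((Finset.Ico 1 (2 * e)).filter fun r => Odd r) =
      (Finset.range e).image fun i => 2 * i + 1 := by
    ext r
    rw [Finset.mem_filter, Finset.mem_Ico, Finset.mem_image]
    constructor
    · rintro ⟨⟨h1, h2⟩, m, hm⟩
      exact ⟨m, Finset.mem_range.2 (by omega), hm.symm⟩
    · rintro ⟨m, hm, rfl⟩
      rw [Finset.mem_range] at hm
      exact ⟨by omega, m, rfl⟩
  rw [h1, Finset.card_image_of_injective _ (fun a b h => by simpa using h), Finset.card_range]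

private theorem arith {e f n X : ℕ} (hf : 0 < f) (he : e = 2 ^ f - 1) (hn : n ∣ e * f)
    (hX : 0 < X) (h : 2 ^ (n + 2) = 2 * (2 ^ f) ^ e * X) : n = e * f ∧ X = 2 := by
  have h2f : 2 ≤ 2 ^ f := by
    calc 2 = 2 ^ 1 := by norm_num
      _ ≤ 2 ^ f := Nat.pow_le_pow_right (by norm_num) hf
  have hepos : 0 < e := by omega
  have hef : 0 < e * f := Nat.mul_pos hepos hf
  have h1 : 2 ^ (e * f + 1) ≤ 2 ^ (n + 2) := by
    rw [h, ← pow_mul, mul_comm f e, ← pow_succ']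
    exact Nat.le_mul_of_pos_right _ hX
  have h2 : e * f + 1 ≤ n + 2 := (Nat.pow_le_pow_iff_right (by norm_num)).1 h1
  have h3 : n = e * f := by
    obtain ⟨c, hc⟩ := hn
    rcases Nat.lt_or_ge c 2 with hc2 | hc2
    · have hc1 : c = 1 := by
        rcases Nat.eq_zero_or_pos c with h4 | h4
        · rw [h4, mul_zero] at hc
          omega
        · omega
      rw [hc, hc1, mul_one]
    · exfalso
      have h4 : 2 * n ≤ e * f := by
        rw [hc, mul_comm n c]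
        exact Nat.mul_le_mul_right n hc2
      have h5 : e * f ≤ 2 := by omega
      rcases Nat.lt_or_ge f 2 with h6 | h6
      · have h7 : f = 1 := by omega
        subst h7
        norm_num at he
        subst he
        have h8 : n * c = 1 := by omega
        have h9 := Nat.eq_one_of_mul_eq_one_left h8
        omega
      · have h7 : 4 ≤ 2 ^ f := by
          calc 4 = 2 ^ 2 := by norm_num
            _ ≤ 2 ^ f := Nat.pow_le_pow_right (by norm_num) h6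
        have h8 : 3 * 2 ≤ e * f := Nat.mul_le_mul (by omega) h6
        omega
  refine ⟨h3, ?_⟩
  rw [← pow_mul, mul_comm f e, ← h3, ← pow_succ', pow_succ 2 (n + 1)] at h
  exact (Nat.eq_of_mul_eq_mul_left (by positivity) h).symm

private theorem one_or_two {a b : ℕ} (h : a * b = 2) : a = 1 ∨ a = 2 :=
  (Nat.dvd_prime Nat.prime_two).1 ⟨b, h.symm⟩

private theorem C_index {D : Subgroup (Ω ≃+* Ω)} {f : ℕ} :
    (rtC D (2 ^ f - 1)).relIndex (rtT D (2 ^ f - 1)) * (rtT D (2 ^ f - 1)).index =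
      (rtC D (2 ^ f - 1)).index :=
  Subgroup.relIndex_mul_index (rtC_le D _)

private theorem e_pos {f : ℕ} (hf : 0 < f) : 0 < 2 ^ f - 1 := by
  have h2f : 2 ≤ 2 ^ f := by
    calc 2 = 2 ^ 1 := by norm_num
      _ ≤ 2 ^ f := Nat.pow_le_pow_right (by norm_num) hf
  omega

open Classical in
private theorem opn_C (hD : VD D v) {f : ℕ} (hf : 0 < f) :
    Opn (fullC D) (rtC D (2 ^ f - 1)) := by
  refine ⟨rtC D (2 ^ f - 1), ⟨⟨(Polynomial.nthRoots (2 ^ f - 1) (1 : Ω)).toFinset ∪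
    (Polynomial.nthRoots (2 ^ f - 1) (2 : Ω)).toFinset, fun g hg => ⟨fun x hx => ?_,
      fun x hx => ?_⟩⟩, inferInstance, ?_⟩, le_rfl⟩
  · refine hg x (Finset.mem_union_left _ ?_)
    rw [Multiset.mem_toFinset, Polynomial.mem_nthRoots (e_pos hf)]
    exact hx
  · refine hg x (Finset.mem_union_right _ ?_)
    rw [Multiset.mem_toFinset, Polynomial.mem_nthRoots (e_pos hf)]
    exact hx
  · rw [← C_index]
    refine Nat.mul_ne_zero ?_ ?_
    · exact fun h0 => (e_pos hf).ne' (Nat.eq_zero_of_zero_dvd (h0 ▸ relIndex_C hf))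
    · exact fun h0 => hf.ne' (Nat.eq_zero_of_zero_dvd (h0 ▸ index_T hD hf))

theorem cnt (halg : Alg Ω) (hD : VD D v) (hc : CountsF (fullC D) 1) {f : ℕ} (hf : 0 < f) {π : Ω}
    (hπ : π ^ (2 ^ f - 1) = 2) : CntH v D f π := by
  obtain ⟨e, he⟩ : ∃ e, e = 2 ^ f - 1 := ⟨_, rfl⟩
  have hepos : 0 < e := by
    rw [he]
    exact e_pos hf
  obtain ⟨k, _, _, red, db, hr, hcard, -, -⟩ := exists_rdc halg hD hf
  have hvπ : v π < 1 := by
    by_contra hcon
    rw [not_lt] at hcon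
    have h1 : (1 : Γ) ≤ v π ^ (2 ^ f - 1) := one_le_pow₀ hcon
    rw [← map_pow, hπ] at h1
    exact absurd hD.two (not_lt.2 h1)
  have hvr : ∀ r, 1 ≤ r → v π ^ r < 1 := fun r hr => pow_lt_one₀ zero_le hvπ (by omega)
  have hanti : ∀ r, v π ^ (r + 1) ≤ v π ^ r := fun r =>
    pow_le_pow_right_of_le_one' hvπ.le (Nat.le_succ r)
  have hodd : ∀ r, Odd r → r < 2 * (2 ^ f - 1) →
      (lv v (rtC D (2 ^ f - 1)) (v π ^ (r + 1))).relIndex
        (lv v (rtC D (2 ^ f - 1)) (v π ^ r)) = 2 ^ f := by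
    intro r hr1 hr2
    obtain ⟨φ, hφ⟩ := lev_stp halg hD hf hπ hr hr1 hr2
    rw [lev_relIndex (lv_mono (hanti r)) hφ, hcard]
  have hch := chain_prod (fun r => lv v (rtC D (2 ^ f - 1)) (v π ^ r))
    (fun r _ => lv_mono (hanti r)) (2 * (2 ^ f - 1)) (by rw [← he]; omega)
  have hopn := opn_C hD hf
  obtain ⟨hfd, hrk⟩ := hc _ hopn
  have hfin : Finite (homs (two (res (fullC D) (rtC D (2 ^ f - 1))))
      (⊤ : Subgroup (rtC D (2 ^ f - 1)))) := Module.finite_of_finite (ZMod 2)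
  have hlm : Nat.card (lm (rtC D (2 ^ f - 1))) = 2 ^ ((rtC D (2 ^ f - 1)).index + 2) := by
    have h1 : Nat.card (homs (two (res (fullC D) (rtC D (2 ^ f - 1))))
        (⊤ : Subgroup (rtC D (2 ^ f - 1)))) = 2 ^ ((rtC D (2 ^ f - 1)).index + 2) := by
      rw [Module.natCard_eq_pow_finrank (K := ZMod 2), hrk, one_mul, Nat.card_zmod]
    exact h1
  have hprod : ∏ r ∈ Finset.Ico 1 (2 * (2 ^ f - 1)),
      (lv v (rtC D (2 ^ f - 1)) (v π ^ (r + 1))).relIndex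
        (lv v (rtC D (2 ^ f - 1)) (v π ^ r)) = (2 ^ f) ^ (2 ^ f - 1) *
      ∏ r ∈ (Finset.Ico 1 (2 * (2 ^ f - 1))).filter (fun r => ¬ Odd r),
        (lv v (rtC D (2 ^ f - 1)) (v π ^ (r + 1))).relIndex
        (lv v (rtC D (2 ^ f - 1)) (v π ^ r)) := by
    rw [← Finset.prod_filter_mul_prod_filter_not (Finset.Ico 1 (2 * (2 ^ f - 1))) (fun r => Odd r)]
    congr 1
    rw [Finset.prod_congr rfl (fun r hr => hodd r (Finset.mem_filter.1 hr).2
      (Finset.mem_Ico.1 (Finset.mem_filter.1 hr).1).2), Finset.prod_const,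
      odd_card (2 ^ f - 1)]
  have hlv1 : lv v (rtC D (2 ^ f - 1)) (v π ^ 1) ≤ lu v (rtC D (2 ^ f - 1)) :=
    lv_le (hvr 1 le_rfl)
  have c1 := AddSubgroup.relIndex_mul_relIndex _ _ _ hch.1 hlv1
  have c2 := AddSubgroup.relIndex_mul_relIndex _ _ _ (hch.1.trans hlv1)
    (lu_le (v := v) (C := rtC D (2 ^ f - 1)))
  have c3 := AddSubgroup.relIndex_mul_relIndex _ _ _
    ((hch.1.trans hlv1).trans (lu_le (v := v) (C := rtC D (2 ^ f - 1)))) (lw_le halg)
  have c4 := AddSubgroup.relIndex_mul_relIndex ⊥ _ _ bot_le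
    (((hch.1.trans hlv1).trans (lu_le (v := v) (C := rtC D (2 ^ f - 1)))).trans (lw_le halg))
  rw [← c3, ← c2, ← c1, hch.2, hprod, lu_relIndex halg hD hf, AddSubgroup.relIndex_bot_left
    (lm (rtC D (2 ^ f - 1))), hlm] at c4
  obtain ⟨x1, hx1⟩ : ∃ x, (⊥ : AddSubgroup (rtC D (2 ^ f - 1) → ZMod 2)).relIndex
      (lv v (rtC D (2 ^ f - 1)) (v π ^ (2 * (2 ^ f - 1)))) = x := ⟨_, rfl⟩
  obtain ⟨x2, hx2⟩ : ∃ x, (lv v (rtC D (2 ^ f - 1)) (v π ^ 1)).relIndex
      (lu v (rtC D (2 ^ f - 1))) = x := ⟨_, rfl⟩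
  obtain ⟨x3, hx3⟩ : ∃ x, (lw (rtC D (2 ^ f - 1))).relIndex (lm (rtC D (2 ^ f - 1))) = x :=
    ⟨_, rfl⟩
  obtain ⟨x4, hx4⟩ : ∃ x, ∏ r ∈ (Finset.Ico 1 (2 * (2 ^ f - 1))).filter (fun r => ¬ Odd r),
        (lv v (rtC D (2 ^ f - 1)) (v π ^ (r + 1))).relIndex
        (lv v (rtC D (2 ^ f - 1)) (v π ^ r)) = x := ⟨_, rfl⟩
  have c5 : 2 ^ ((rtC D (2 ^ f - 1)).index + 2) = 2 * (2 ^ f) ^ (2 ^ f - 1) *
      (x1 * x2 * x3 * x4) := by
    rw [← c4]
    simp only [hx1, hx2, hx3, hx4]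
    ring
  have hpos : 0 < x1 * x2 * x3 * x4 := by
    rcases Nat.eq_zero_or_pos (x1 * x2 * x3 * x4) with h0 | h0
    · rw [h0, mul_zero] at c5
      exact absurd c5 (by positivity)
    · exact h0
  have hdvd : (rtC D (2 ^ f - 1)).index ∣ (2 ^ f - 1) * f := by
    rw [← C_index]
    exact Nat.mul_dvd_mul (relIndex_C hf) (index_T hD hf)
  obtain ⟨hn, hX⟩ := arith hf rfl hdvd hpos c5
  have hfull : (rtC D (2 ^ f - 1)).relIndex (rtT D (2 ^ f - 1)) = 2 ^ f - 1 := by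
    have h1 := C_index (D := D) (f := f)
    rw [hn] at h1
    have h2 := Nat.le_of_dvd (e_pos hf) (relIndex_C (D := D) hf)
    have h3 := Nat.le_of_dvd hf (index_T hD hf)
    by_contra h4
    have h5 : (rtC D (2 ^ f - 1)).relIndex (rtT D (2 ^ f - 1)) < 2 ^ f - 1 := lt_of_le_of_ne h2 h4
    have h6 : (rtC D (2 ^ f - 1)).relIndex (rtT D (2 ^ f - 1)) * (rtT D (2 ^ f - 1)).index <
        (2 ^ f - 1) * f :=
      lt_of_le_of_lt (Nat.mul_le_mul_left _ h3) (Nat.mul_lt_mul_of_pos_right h5 hf)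
    omega
  refine ⟨?_, hfull, ?_, ?_, ?_, ?_⟩
  · exact hfin
  · rw [hx3]
    exact one_or_two (b := x1 * x2 * x4) (by rw [← hX]; ring)
  · rw [hx2]
    exact one_or_two (b := x1 * x3 * x4) (by rw [← hX]; ring)
  · intro r hr0 hre hrl
    have h1 : (lv v (rtC D (2 ^ f - 1)) (v π ^ (r + 1))).relIndex
        (lv v (rtC D (2 ^ f - 1)) (v π ^ r)) ∣ x4 := by
      rw [← hx4]
      refine Finset.dvd_prod_of_mem (fun r => (lv v (rtC D (2 ^ f - 1)) (v π ^ (r + 1))).relIndex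
        (lv v (rtC D (2 ^ f - 1)) (v π ^ r))) ?_
      rw [Finset.mem_filter, Finset.mem_Ico]
      exact ⟨⟨hr0, hrl⟩, Nat.not_odd_iff_even.2 hre⟩
    have h2 : x4 ∣ 2 := ⟨x1 * x2 * x3, by rw [← hX]; ring⟩
    exact (Nat.dvd_prime Nat.prime_two).1 (h1.trans h2)
  · rw [hx1]
    exact one_or_two (b := x2 * x3 * x4) (by rw [← hX]; ring)

end Pool.Agent.Work.MP_787500_nt.EF
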