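import Mathlib
import Pool.Agent.Work.MP_787500_nt.EF.Exp

/-!
# Module Wild (size M): the wild inertia group is a pro-2 group

* `wild_pow`: `g ∈ D` fixes all `x` with `x ^ n = 1` or `x ^ n = 2`, `n` odd. Let `y ∈ Ω`; its orbit under `g` is finite (`halg`: roots of a nonzero
  integral polynomial); let `m` be the least positive number with `g ^ m y = y`. CLAIM: `m` is a power of 2. Otherwise an odd prime `l` divides `m`.
  Let `ω` be a primitive `l`-th root of unity in `Ω` (`g ω = ω`). The elements `y_i = g ^ i y` (`i < m`) are distinct, so by Vandermonde there is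
  `s < m` with `β = ∑_{i < m} ω⁻¹ ^ i * y_i ^ s ≠ 0` (`Matrix.vandermonde` is invertible, the vector `(ω⁻¹ ^ i)` is not 0). `g β = ω β` (`g y_i = y_(i+1)`, indices
  modulo `m`, `ω ^ m = 1`). `v β ^ N = v 2 ^ j`, `N > 0` (`VD.tor`), `N = 2 ^ a * b`, `b` odd; let `ρ ^ b = 2` (`IsAlgClosed`); `g ρ = ρ`. Then
  `u = β ^ (2 ^ a) * ρ ^ (-j)` has `v u = 1` (`(v u) ^ b = 1` in a linearly ordered group), `g u = ω' u`, `ω' = ω ^ (2 ^ a) ≠ 1`. By `VD.res` there is an odd
  `n` with `v (u ^ n - 1) < 1`. There is `η` with `η ^ n = 1` and `v (u - η) < 1` (`u ^ n - 1 = ∏ (u - η)` over the `n`-th roots of unity). `g η = η`. So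
  `v (ω' u - η) = v (g (u - η)) < 1`, so `v (ω' u - u) < 1`, so `v (ω' - 1) < 1`, so `ω' = 1` by `root_inj`: contradiction.
* `wild_triv`: `U` simple for `D` (`hsim`), killed by 2, some open subgroup acts trivially. Let `P` be the subgroup of all such `g` (normal in `D`). For `g ∈ P`
  some `g ^ (2 ^ k)` fixes a given finite set (`wild_pow` for its elements, maximum of the exponents; `g ^ (2 ^ k) y = y` for all larger `k`), so acts
  trivially on `U`: the image of `P` in the permutations of `U` is a finite group in which all orders are powers of 2, a 2-group (`IsPGroup`); it acts on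
  the set `U`, `card U` is a power of 2, greater than 1, so the number of fixed points is even (`IsPGroup.card_modEq_card_fixedPoints`), and 0 is one: the
  group of fixed points of `P` in `U` is not trivial, stable under `D` (`P` normal), so it is `U`.
-/

set_option autoImplicit false
set_option linter.unusedSectionVars false

namespace Pool.Agent.Work.MP_787500_nt.EF

open Pool.Agent.Work.MP_787500_nt.GP (A0 IsAct d0)
open Pool.Agent.Work.MP_787500_nt.HP (Alg)
open Pool.Agent.Work.MP_787500_nt.KR (FSys two res fullC CountsF Z1 Sm1 Smooth Opn)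

universe u

variable {Ω : Type u} [Field Ω] [CharZero Ω] [IsAlgClosed Ω] {Γ : Type*}
  [LinearOrderedCommGroupWithZero Γ] {D : Subgroup (Ω ≃+* Ω)} {v : Valuation Ω Γ}

/-- the wild elements -/
def Wld (g : Ω ≃+* Ω) : Prop := ∀ n : ℕ, Odd n → ∀ x : Ω, (x ^ n = 1 ∨ x ^ n = 2) → g x = x

/-- every orbit is finite -/
private theorem orb_fin (halg : Alg Ω) (g : Ω ≃+* Ω) (y : Ω) : ∃ m : ℕ, 0 < m ∧ (g ^ m) y = y := by
  classical
  obtain ⟨p, hp, hpy⟩ := halg y
  have hroot : ∀ i : ℕ, p.eval₂ (Int.castRingHom Ω) ((g ^ i) y) = 0 := by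
    intro i
    have h1 := Polynomial.hom_eval₂ p (Int.castRingHom Ω) ((g ^ i : Ω ≃+* Ω) : Ω →+* Ω) y
    have h2 : (((g ^ i : Ω ≃+* Ω) : Ω →+* Ω)).comp (Int.castRingHom Ω) = Int.castRingHom Ω :=
      RingHom.ext_int _ _
    rw [h2, hpy, map_zero] at h1
    exact h1.symm
  have hp' : p.map (Int.castRingHom Ω) ≠ 0 := by
    rwa [Ne, Polynomial.map_eq_zero_iff (RingHom.injective_int (Int.castRingHom Ω))]
  have hmem : ∀ i : ℕ, (g ^ i) y ∈ (p.map (Int.castRingHom Ω)).roots.toFinset := by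
    intro i
    rw [Multiset.mem_toFinset, Polynomial.mem_roots hp', Polynomial.IsRoot.def,
      Polynomial.eval_map]
    exact hroot i
  have hni : ¬ Function.Injective (fun i : ℕ => (g ^ i) y) := by
    intro hinj
    have hfin : (Set.range (fun i : ℕ => (g ^ i) y)).Finite :=
      ((p.map (Int.castRingHom Ω)).roots.toFinset.finite_toSet).subset (by
        rintro _ ⟨i, rfl⟩
        exact hmem i)
    exact Set.infinite_range_of_injective hinj hfin
  rw [Function.Injective] at hni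
  push Not at hni
  obtain ⟨a, b, hab, hne⟩ := hni
  have key : ∀ a b : ℕ, a < b → (g ^ a) y = (g ^ b) y → ∃ m : ℕ, 0 < m ∧ (g ^ m) y = y := by
    intro a b hlt h
    refine ⟨b - a, by omega, ?_⟩
    have h1 : g ^ b = g ^ a * g ^ (b - a) := by
      rw [← pow_add]
      congr 1
      omega
    rw [h1] at h
    exact ((g ^ a).injective h).symm
  rcases lt_or_gt_of_ne hne with h | h
  · exact key a b h hab
  · exact key b a h hab.symm

private theorem pow_fix {g : Ω ≃+* Ω} {y : Ω} {m : ℕ} (h : (g ^ m) y = y) (j : ℕ) :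
    (g ^ (m * j)) y = y := by
  induction j with
  | zero => simp
  | succ j ih =>
    have h1 : g ^ (m * (j + 1)) = g ^ (m * j) * g ^ m := by
      rw [← pow_add]
      congr 1
    rw [h1]
    show (g ^ (m * j)) ((g ^ m) y) = y
    rw [h, ih]

private theorem root_near {u : Ω} {n : ℕ} (hn : 0 < n) (h : v (u ^ n - 1) < 1) :
    ∃ η : Ω, η ^ n = 1 ∧ v (u - η) < 1 := by
  classical
  have : NeZero (n : Ω) := ⟨by exact_mod_cast hn.ne'⟩
  obtain ⟨ζ, hζ⟩ := HasEnoughRootsOfUnity.exists_primitiveRoot Ω n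
  have h1 := Polynomial.X_pow_sub_one_eq_prod hn hζ
  have h2 : u ^ n - 1 = ∏ η ∈ Polynomial.nthRootsFinset n (1 : Ω), (u - η) := by
    have := congrArg (Polynomial.eval u) h1
    rw [Polynomial.eval_prod] at this
    simpa using this
  by_contra hcon
  push Not at hcon
  rw [h2, map_prod] at h
  have h3 : (1 : Γ) ≤ ∏ η ∈ Polynomial.nthRootsFinset n (1 : Ω), v (u - η) := by
    apply Finset.one_le_prod'
    intro η hη
    exact hcon η ((Polynomial.mem_nthRootsFinset hn _).1 hη)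
  exact absurd h (not_lt.2 h3)

theorem wild_pow (halg : Alg Ω) (hD : VD D v) {g : Ω ≃+* Ω} (hg : g ∈ D) (hw : Wld g) (y : Ω) :
    ∃ k : ℕ, (g ^ 2 ^ k) y = y := by
  classical
  have hex := orb_fin halg g y
  obtain ⟨hm0, hm⟩ := Nat.find_spec hex
  set m := Nat.find hex with hmdef
  have hmin : ∀ j : ℕ, 0 < j → (g ^ j) y = y → m ≤ j := fun j hj hjy =>
    Nat.find_min' hex ⟨hj, hjy⟩
  rcases Nat.eq_two_pow_or_exists_odd_prime_and_dvd m with ⟨k, hk⟩ | ⟨l, hl, hlm, hlo⟩
  · exact ⟨k, by rw [← hk]; exact hm⟩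
  exfalso
  have hl0 : l ≠ 0 := hl.ne_zero
  have : NeZero (l : Ω) := ⟨by exact_mod_cast hl0⟩
  obtain ⟨ω, hω⟩ := HasEnoughRootsOfUnity.exists_primitiveRoot Ω l
  have hω1 : ω ^ l = 1 := hω.pow_eq_one
  have hω0 : ω ≠ 0 := hω.ne_zero hl0
  have hgω : g ω = ω := hw l hlo ω (Or.inl hω1)
  have hωm : ω ^ m = 1 := by
    obtain ⟨c, hc⟩ := hlm
    rw [hc, pow_mul, hω1, one_pow]
  -- the orbit
  have hinj : Function.Injective (fun i : Fin m => (g ^ (i : ℕ)) y) := by
    have key : ∀ a b : ℕ, a < b → b < m → (g ^ a) y ≠ (g ^ b) y := by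
      intro a b hlt hb h
      have h1 : g ^ b = g ^ a * g ^ (b - a) := by
        rw [← pow_add]
        congr 1
        omega
      rw [h1] at h
      have h2 := ((g ^ a).injective h).symm
      have h3 := hmin (b - a) (by omega) h2
      omega
    intro a b hab
    rcases lt_trichotomy (a : ℕ) b with h | h | h
    · exact absurd hab (key a b h b.2)
    · exact Fin.ext h
    · exact absurd hab.symm (key b a h a.2)
  have hdet := (Matrix.det_vandermonde_ne_zero_iff (v := fun i : Fin m => (g ^ (i : ℕ)) y)).2 hinj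
  have hs : ∃ s : ℕ, ∑ i ∈ Finset.range m, ω⁻¹ ^ i * ((g ^ i) y) ^ s ≠ 0 := by
    by_contra hcon
    push Not at hcon
    have h1 := Matrix.eq_zero_of_vecMul_eq_zero hdet (v := fun i : Fin m => ω⁻¹ ^ (i : ℕ)) (by
      funext j
      rw [Matrix.vecMul, dotProduct]
      simp only [Matrix.vandermonde_apply, Pi.zero_apply]
      rw [← hcon (j : ℕ), Finset.sum_range])
    have h2 := congrFun h1 ⟨0, hm0⟩
    simp at h2
  obtain ⟨s, hs⟩ := hs
  set β := ∑ i ∈ Finset.range m, ω⁻¹ ^ i * ((g ^ i) y) ^ s with hβ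
  have hgβ : g β = ω * β := by
    have h1 : g β = ω * ∑ i ∈ Finset.range m, ω⁻¹ ^ (i + 1) * ((g ^ (i + 1)) y) ^ s := by
      rw [hβ, map_sum, Finset.mul_sum]
      refine Finset.sum_congr rfl fun i _ => ?_
      rw [map_mul, map_pow, map_pow, map_inv₀, hgω, pow_succ' g i, pow_succ' ω⁻¹ i]
      show ω⁻¹ ^ i * (g ((g ^ i) y)) ^ s = ω * (ω⁻¹ * ω⁻¹ ^ i * (g ((g ^ i) y)) ^ s)
      field_simp
    rw [h1]
    congr 1
    have h2 := Finset.sum_range_succ' (fun i => ω⁻¹ ^ i * ((g ^ i) y) ^ s) m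
    rw [Finset.sum_range_succ] at h2
    have h3 : ω⁻¹ ^ m * ((g ^ m) y) ^ s = ω⁻¹ ^ 0 * ((g ^ 0) y) ^ s := by
      rw [hm, inv_pow, hωm]
      simp
    rw [h3] at h2
    exact (add_right_cancel h2).symm
  obtain ⟨N, hN, k, hk⟩ := hD.tor β hs
  obtain ⟨a, b, hb, hNab⟩ := Nat.exists_eq_two_pow_mul_odd hN.ne'
  have hb0 : 0 < b := hb.pos
  obtain ⟨ρ, hρ⟩ := IsAlgClosed.exists_pow_nat_eq (2 : Ω) hb0
  have hρ0 : ρ ≠ 0 := by
    rintro rfl
    rw [zero_pow hb0.ne'] at hρ
    exact two_ne_zero hρ.symm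
  have hgρ : g ρ = ρ := hw b hb ρ (Or.inr hρ)
  have hv2 : v 2 ≠ 0 := (Valuation.ne_zero_iff v).2 two_ne_zero
  have hvρ : v ρ ^ b = v 2 := by rw [← map_pow, hρ]
  set u := β ^ 2 ^ a * ρ ^ (-k) with hu
  have hvu : v u = 1 := by
    have h1 : v u ^ b = 1 := by
      rw [hu, map_mul, map_pow, map_zpow₀, mul_pow, ← pow_mul, ← hNab, hk, ← zpow_natCast, ← zpow_mul,
        mul_comm (-k) (b : ℤ), zpow_mul, zpow_natCast, hvρ, ← zpow_add₀ hv2, add_neg_cancel, zpow_zero]
    exact (pow_eq_one_iff.1 h1).resolve_right hb0.ne'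
  have hgu : g u = ω ^ 2 ^ a * u := by
    rw [hu, map_mul, map_pow, map_zpow₀, hgρ, hgβ, mul_pow]
    ring
  obtain ⟨n, hn, hun⟩ := hD.res u hvu
  obtain ⟨η, hη, huη⟩ := root_near hn.pos hun
  have hgη : g η = η := hw n hn η (Or.inl hη)
  have h1 : v (ω ^ 2 ^ a * u - η) < 1 := by
    have := hD.inv g hg (u - η)
    rw [map_sub, hgu, hgη] at this
    rw [this]
    exact huη
  have h2 : v (ω ^ 2 ^ a * u - u) < 1 := by
    have h3 : ω ^ 2 ^ a * u - u = (ω ^ 2 ^ a * u - η) - (u - η) := by ring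
    rw [h3]
    exact lt_of_le_of_lt (v.map_sub _ _) (max_lt h1 huη)
  have h3 : v (ω ^ 2 ^ a - 1) < 1 := by
    have h4 : ω ^ 2 ^ a * u - u = (ω ^ 2 ^ a - 1) * u := by ring
    rwa [h4, map_mul, hvu, mul_one] at h2
  have h4 : ω ^ 2 ^ a = 1 := root_inj hD.two hlo (by rw [← pow_mul, mul_comm, pow_mul, hω1, one_pow]) h3
  have h5 := (hω.pow_eq_one_iff_dvd _).1 h4
  have h6 := (Nat.prime_dvd_prime_iff_eq hl Nat.prime_two).1 (hl.dvd_of_dvd_pow h5)
  subst h6
  exact absurd hlo (by decide)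

private theorem wild_fin (halg : Alg Ω) (hD : VD D v) {g : Ω ≃+* Ω} (hg : g ∈ D) (hw : Wld g)
    (s : Finset Ω) : ∃ k : ℕ, ∀ y ∈ s, (g ^ 2 ^ k) y = y := by
  classical
  induction s using Finset.induction_on with
  | empty => exact ⟨0, by simp⟩
  | insert a s _ ih =>
    obtain ⟨k, hk⟩ := ih
    obtain ⟨k', hk'⟩ := wild_pow halg hD hg hw a
    refine ⟨k + k', fun y hy => ?_⟩
    rcases Finset.mem_insert.1 hy with rfl | hy
    · rw [pow_add, mul_comm]
      exact pow_fix hk' _
    · rw [pow_add]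
      exact pow_fix (hk y hy) _

private theorem wld_mul {g h : Ω ≃+* Ω} (hg : Wld g) (hh : Wld h) : Wld (g * h) := by
  intro n hn x hx
  show g (h x) = x
  rw [hh n hn x hx, hg n hn x hx]

private theorem wld_inv {g : Ω ≃+* Ω} (hg : Wld g) : Wld g⁻¹ := by
  intro n hn x hx
  conv_lhs => rw [← hg n hn x hx]
  exact g.symm_apply_apply x

private theorem wld_conj {g : Ω ≃+* Ω} (hg : Wld g) (h : Ω ≃+* Ω) : Wld (h⁻¹ * g * h) := by
  intro n hn x hx
  have h1 : g (h x) = h x := hg n hn (h x) (by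
    rcases hx with hx | hx
    · left; rw [← map_pow, hx, map_one]
    · right; rw [← map_pow, hx, map_ofNat])
  show h⁻¹ (g (h x)) = x
  rw [h1]
  exact h.symm_apply_apply x

theorem wild_triv (halg : Alg Ω) (hD : VD D v) {U : Type*} [AddCommGroup U] [Finite U]
    {υ : D → U → U} (hact : IsAct υ) (hsm : Smooth (fullC D) υ) (h2 : ∀ u : U, u + u = 0)
    (hnt : ∃ u : U, u ≠ 0)
    (hsim : ∀ V : AddSubgroup U, (∀ g, ∀ u ∈ V, υ g u ∈ V) → V = ⊥ ∨ V = ⊤) (g : D)
    (hw : Wld (g : Ω ≃+* Ω)) (u : U) : υ g u = u := by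
  classical
  obtain ⟨W, ⟨⟨s, hs⟩, -⟩, hW⟩ := hsm
  -- the group of wild elements
  let P : Subgroup D :=
    { carrier := {g | Wld (g : Ω ≃+* Ω)}
      mul_mem' := fun {a b} ha hb => wld_mul ha hb
      one_mem' := fun n _ x _ => rfl
      inv_mem' := fun {a} ha => wld_inv ha }
  let φ : P →* Equiv.Perm U := 
    { toFun := fun g =>
        { toFun := υ g
          invFun := υ (g⁻¹ : P)
          left_inv := fun u => by
            rw [← hact.mul]
            simp [hact.one]
          right_inv := fun u => by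
            rw [← hact.mul]
            simp [hact.one] }
      map_one' := by
        ext u
        exact hact.one u
      map_mul' := fun a b => by
        ext u
        exact hact.mul a b u }
  have hφ : ∀ (a : P) (u : U), φ a u = υ a u := fun _ _ => rfl
  have hp : IsPGroup 2 φ.range := by
    rintro ⟨_, a, rfl⟩
    obtain ⟨k, hk⟩ := wild_fin halg hD (a : D).2 a.2 s
    refine ⟨k, ?_⟩
    apply Subtype.ext
    show (φ a) ^ 2 ^ k = 1
    rw [← map_pow]
    ext u
    rw [hφ]
    have h1 : ((a ^ 2 ^ k : P) : D) ∈ W := hs _ (by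
      intro x hx
      simpa using hk x hx)
    exact hW _ h1 u
  have hfact : Fact (Nat.Prime 2) := ⟨Nat.prime_two⟩
  obtain ⟨u₀, hu₀⟩ := hnt
  have hcard : 2 ∣ Nat.card U := by
    have h1 : addOrderOf u₀ = 2 := addOrderOf_eq_prime (by rw [two_nsmul]; exact h2 u₀) hu₀
    rw [← h1]
    exact addOrderOf_dvd_natCard u₀
  have hzero : ∀ g : D, υ g 0 = 0 := by
    intro g
    have := hact.add g 0 0
    rw [add_zero] at this
    exact left_eq_add.1 this
  have hz : (0 : U) ∈ MulAction.fixedPoints φ.range U := by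
    rintro ⟨_, a, rfl⟩
    exact hzero a
  obtain ⟨b, hb, hb0⟩ := hp.exists_fixed_point_of_prime_dvd_card_of_fixed_point U hcard hz
  let V : AddSubgroup U :=
    { carrier := {u | ∀ a : D, Wld (a : Ω ≃+* Ω) → υ a u = u}
      add_mem' := fun {x y} hx hy a ha => by rw [hact.add, hx a ha, hy a ha]
      zero_mem' := fun a _ => hzero a
      neg_mem' := fun {x} hx a ha => by
        have h1 : υ a (-x) + υ a x = 0 := by rw [← hact.add, neg_add_cancel, hzero]
        rw [hx a ha] at h1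
        exact eq_neg_of_add_eq_zero_left h1 }
  have hbV : b ∈ V := fun a ha => hb ⟨φ ⟨a, ha⟩, ⟨a, ha⟩, rfl⟩
  have hV : V = ⊤ := by
    refine (hsim V ?_).resolve_left fun h => hb0 ?_
    · intro h x hx a ha
      have h1 := hx (h⁻¹ * a * h) (wld_conj ha h)
      have h3 := congrArg (υ h) h1
      rw [← hact.mul] at h3
      have h4 : h * (h⁻¹ * a * h) = a * h := by group
      rw [h4, hact.mul] at h3
      exact h3
    · rw [h, AddSubgroup.mem_bot] at hbV
      exact hbV.symm
  have hu : u ∈ V := by rw [hV]; trivial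
  exact hu g hw

end Pool.Agent.Work.MP_787500_nt.EF
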