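import Mathlib
import Pool.Agent.Work.MP_787500_nt.EF.Wild

/-!
# Module Dir (size M): some group `rtC D e` acts trivially

`U` finite with a smooth action of `D` such that all wild elements act trivially. CLAIM: for some `f ≥ 1` all of `rtC D (2 ^ f - 1)` acts trivially.

(0) `k₀` = subfield of `Ω` fixed by `D`, `IsGalois k₀ Ω` (see module Exp), `Ω ≃ₐ[k₀] Ω` = `D` by `VD.cls`.
(1) `W` = kernel of the action, an open normal subgroup of finite index of `D`. There is a finite set `Y ⊆ Ω` with `W = {g ∈ D | g y = y for all y ∈ Y}`: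
the fixed field `k_W` of `W` is finite over `k₀` and `W` is its fixing subgroup (`W` is open, hence closed, in the Krull topology of `Ω ≃ₐ[k₀] Ω`:
`InfiniteGalois.fixingSubgroup_fixedField`, `InfiniteGalois.isOpen_iff_finite`); `Y` = generators. Every `y ∈ Y` is fixed by `W`.
(2) `y` is fixed by all wild `g ∈ D` (they lie in `W`). Let `k₁ = k₀(all x with x ^ n = 1 or x ^ n = 2, n odd)` (`IntermediateField.adjoin`). The
automorphisms over `k₁` are wild elements of `D`, so `y ∈ k₁` (`InfiniteGalois.fixedField_fixingSubgroup`), so `y` lies in `k₀(finitely many such x)`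
(`IntermediateField.exists_finset_of_mem_adjoin`). Let `x_i`, with odd exponents `n_i`, be the elements for all `y ∈ Y`.
(3) Choose `f ≥ 1` with `n_i ∣ 2 ^ f - 1` for all `i` (`f = φ(∏ n_i)`, Euler). If `g ∈ rtC D (2 ^ f - 1)` then `g x_i = x_i`: if `x ^ n = 1` then `x ^ e = 1`;
if `x ^ n = 2`, `e = n m`: take `w ^ m = x`, then `w ^ e = 2`, so `g w = w`, `g x = x`. So `g` fixes `Y`, `g ∈ W`.
-/

set_option autoImplicit false
set_option linter.unusedSectionVars false

namespace Pool.Agent.Work.MP_787500_nt.EF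

open Pool.Agent.Work.MP_787500_nt.GP (A0 IsAct d0)
open Pool.Agent.Work.MP_787500_nt.HP (Alg)
open Pool.Agent.Work.MP_787500_nt.KR (FSys two res fullC CountsF Z1 Sm1 Smooth Opn)

universe u

variable {Ω : Type u} [Field Ω] [CharZero Ω] [IsAlgClosed Ω] {Γ : Type*}
  [LinearOrderedCommGroupWithZero Γ] {D : Subgroup (Ω ≃+* Ω)} {v : Valuation Ω Γ}

/-- along an ultrafilter every sequence of automorphisms has a pointwise limit -/
private theorem exists_lim (halg : Alg Ω) (u : Ultrafilter ℕ) (h : ℕ → Ω ≃+* Ω) (x : Ω) :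
    ∃ y, ∀ᶠ n in (u : Filter ℕ), h n x = y := by
  classical
  obtain ⟨p, hp0, hp⟩ := halg x
  have hinj : Function.Injective (Int.castRingHom Ω) := Int.cast_injective
  have hp0' : p.map (Int.castRingHom Ω) ≠ 0 := (Polynomial.map_ne_zero_iff hinj).2 hp0
  have hroot : ∀ n, h n x ∈ (p.map (Int.castRingHom Ω)).roots.toFinset := by
    intro n
    rw [Multiset.mem_toFinset, Polynomial.mem_roots hp0', Polynomial.IsRoot.def,
      Polynomial.eval_map]
    have h1 := Polynomial.hom_eval₂ p (Int.castRingHom Ω) ((h n : Ω ≃+* Ω) : Ω →+* Ω) x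
    rw [hp, map_zero, RingHom.ext_int ((((h n : Ω ≃+* Ω) : Ω →+* Ω)).comp (Int.castRingHom Ω))
      (Int.castRingHom Ω)] at h1
    exact h1.symm
  have h2 : (⋃ y ∈ ((p.map (Int.castRingHom Ω)).roots.toFinset : Set Ω), {n | h n x = y}) ∈ u := by
    refine Filter.mem_of_superset Filter.univ_mem fun n _ => ?_
    rw [Set.mem_iUnion₂]
    exact ⟨h n x, Finset.mem_coe.2 (hroot n), rfl⟩
  rw [Ultrafilter.finite_biUnion_mem_iff (Finset.finite_toSet _)] at h2
  obtain ⟨y, -, hy⟩ := h2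
  exact ⟨y, hy⟩

/-- the limit of a sequence of automorphisms -/
private theorem exists_auto (halg : Alg Ω) (u : Ultrafilter ℕ) (h : ℕ → Ω ≃+* Ω) :
    ∃ g : Ω ≃+* Ω, ∀ x, ∀ᶠ n in (u : Filter ℕ), h n x = g x := by
  choose a ha using exists_lim halg u h
  choose b hb using exists_lim halg u fun n => (h n).symm
  have hab : ∀ x, a (b x) = x := by
    intro x
    obtain ⟨n, h1, h2⟩ := ((ha (b x)).and (hb x)).exists
    rw [← h1, ← h2, RingEquiv.apply_symm_apply]
  have hba : ∀ x, b (a x) = x := by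
    intro x
    obtain ⟨n, h1, h2⟩ := ((hb (a x)).and (ha x)).exists
    rw [← h1, ← h2, RingEquiv.symm_apply_apply]
  refine ⟨{ toFun := a
            invFun := b
            left_inv := hba
            right_inv := hab
            map_mul' := ?_
            map_add' := ?_ }, ha⟩
  · intro x y
    obtain ⟨n, h1, h2, h3⟩ := ((ha (x * y)).and ((ha x).and (ha y))).exists
    rw [← h1, ← h2, ← h3, map_mul]
  · intro x y
    obtain ⟨n, h1, h2, h3⟩ := ((ha (x + y)).and ((ha x).and (ha y))).exists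
    rw [← h1, ← h2, ← h3, map_add]

private theorem odd_dvd {n j : ℕ} (hn : Odd n) (hj : n ≤ j) : n ∣ 2 ^ j.factorial - 1 := by
  have h1 : n.totient ∣ j.factorial := by
    refine Nat.dvd_factorial (Nat.totient_pos.2 hn.pos) ((Nat.totient_le n).trans hj)
  obtain ⟨c, hc⟩ := h1
  have h2 : 2 ^ j.factorial ≡ 1 [MOD n] := by
    rw [hc, pow_mul]
    have h3 := (Nat.ModEq.pow_totient (Nat.coprime_two_left.2 hn)).pow c
    rwa [one_pow] at h3
  exact (Nat.modEq_iff_dvd' Nat.one_le_two_pow).1 h2.symm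

private theorem fix_of_rtC {e n : ℕ} (he : 0 < e) (hne : n ∣ e) {g : D} (hg : g ∈ rtC D e) {x : Ω}
    (hx : x ^ n = 1 ∨ x ^ n = 2) : (g : Ω ≃+* Ω) x = x := by
  obtain ⟨m, hm⟩ := hne
  rcases hx with hx | hx
  · refine hg.1 x ?_
    rw [hm, pow_mul, hx, one_pow]
  · have hm0 : 0 < m := by
      rcases Nat.eq_zero_or_pos m with h | h
      · rw [h, mul_zero] at hm
        omega
      · exact h
    obtain ⟨w, hw⟩ := IsAlgClosed.exists_pow_nat_eq x hm0
    have h1 : w ^ e = 2 := by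
      rw [hm, mul_comm, pow_mul, hw, hx]
    rw [← hw, map_pow, hg.2 w h1]

theorem exists_level (halg : Alg Ω) (hD : VD D v) {U : Type*} [AddCommGroup U] [Finite U]
    {υ : D → U → U} (hact : IsAct υ) (hsm : Smooth (fullC D) υ)
    (hw : ∀ g : D, Wld (g : Ω ≃+* Ω) → ∀ u, υ g u = u) :
    ∃ f : ℕ, 0 < f ∧ ∀ g ∈ rtC D (2 ^ f - 1), ∀ u, υ g u = u := by
  by_contra hcon
  push Not at hcon
  choose g hg w hgw using fun n : ℕ => hcon n.factorial n.factorial_pos
  obtain ⟨G, hG⟩ := exists_auto halg (Filter.hyperfilter ℕ) fun n => (g n : Ω ≃+* Ω)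
  have hGD : G ∈ D := by
    refine hD.cls G fun x hx => ?_
    obtain ⟨n, hn⟩ := (hG x).exists
    rw [← hn]
    exact hx _ (g n).2
  have hwild : Wld G := by
    intro n hn x hx
    have h1 : ∀ᶠ j in (Filter.hyperfilter ℕ : Filter ℕ), n ≤ j :=
      Nat.hyperfilter_le_atTop (Filter.eventually_ge_atTop n)
    obtain ⟨j, hj1, hj2⟩ := (h1.and (hG x)).exists
    rw [← hj2]
    refine fix_of_rtC ?_ (odd_dvd hn hj1) (hg j) hx
    have h2 : 2 ≤ 2 ^ j.factorial := by
      calc 2 = 2 ^ 1 := by norm_num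
        _ ≤ 2 ^ j.factorial := Nat.pow_le_pow_right (by norm_num) j.factorial_pos
    omega
  obtain ⟨W, ⟨⟨s, hs⟩, -, -⟩, hW⟩ := hsm
  have h1 : ∀ᶠ j in (Filter.hyperfilter ℕ : Filter ℕ), ∀ x ∈ s, (g j : Ω ≃+* Ω) x = G x := by
    rw [Filter.eventually_all_finset]
    exact fun x _ => hG x
  obtain ⟨j, hj⟩ := h1.exists
  have h2 : (⟨G, hGD⟩ : D)⁻¹ * g j ∈ W := by
    refine hs _ fun x hx => ?_
    show (G⁻¹ * (g j : Ω ≃+* Ω)) x = x
    rw [RingAut.mul_apply, hj x hx]
    exact G.symm_apply_apply x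
  refine hgw j ?_
  have h3 : g j = (⟨G, hGD⟩ : D) * ((⟨G, hGD⟩ : D)⁻¹ * g j) := (mul_inv_cancel_left _ _).symm
  rw [h3, hact.mul, hW _ h2]
  exact hw _ hwild _

end Pool.Agent.Work.MP_787500_nt.EF
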