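import Mathlib
import Pool.Agent.Work.MP_787500_nt.EF.Defs

/-!
# Module HR (size M, abstract): semilinear independence

`V = (U →+ ZMod 2)` is a finite vector space over `ZMod 2` with `card V = card U`; for `g`, `l` let `g l = l ∘ υ g⁻¹`, so that
`ψ (g l) = th g ^ r * db g (ψ l)` for `ψ ∈ semH υ db th r`. The field `k` has characteristic 2 (`1 + 1` is fixed by all `db g`, so it
is 0 or 1). `semH υ db th r` is a vector space over `ZMod 2` of functions `V → k`; choose a basis `b j i` (`i ∈ ι j`) of
`semH υ db th (r j)` for each `j ∈ S`. CLAIM: the functions `b j i`, for all `j ∈ S` and `i`, are linearly independent over `k` in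
the `k`-vector space `X` of additive functions `V → k`, which has dimension `dim V` over `k` (an additive function is determined by its
values on a `ZMod 2`-basis of `V`). So `∑_j card (ι j) ≤ dim V` and `∏_j card (semH ..) = 2 ^ (∑_j card (ι j)) ≤ card V = card U`.

Proof of the claim: take a nontrivial relation `∑ c_x ψ_x = 0` (`x = (j, i)`) with minimal support, one coefficient `c_y = 1`. For
`g` in `G`, apply `db g` to the relation at the point `g⁻¹ l`: `ψ_x l = th g ^ r_x * db g (ψ_x (g⁻¹ l))`, so
`∑ db g (c_x) * (th g ^ r_x)⁻¹ * ψ_x = 0`; multiply by `th g ^ r_y` and subtract from the original relation: the coefficient at `y`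
vanishes, so by minimality all coefficients vanish: `db g (c_x) * th g ^ r_y = c_x * th g ^ r_x` for all `g`, `x`. If
`c_x ≠ 0` and `j_x ≠ j_y`: take `g` with `db g = 1` and `th g ^ r_x ≠ th g ^ r_y` (`hsep`): contradiction. So all `x` of the support have
`j_x = j_y`, so `db g (c_x) = c_x` for all `g`, so `c_x = 1` by `hfix`: a relation over `ZMod 2` between elements of a basis:
contradiction. (Instead of bases one can also prove by induction on the number of elements that elements of the `semH` that
are independent over `ZMod 2` are independent over `k`.)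
-/

set_option autoImplicit false
set_option linter.unusedSectionVars false

namespace Pool.Agent.Work.MP_787500_nt.EF

open Pool.Agent.Work.MP_787500_nt.GP (A0 IsAct d0)

private theorem indep_aux {G : Type*} [Group G] {U : Type*} [AddCommGroup U] {υ : G → U → U}
    (hact : IsAct υ) {k : Type*} [Field k] {db : G →* (k ≃+* k)} {th : G → k}
    (hth : ∀ g, th g ≠ 0) (hfix : ∀ z : k, (∀ g, db g z = z) → z = 0 ∨ z = 1)
    {κ : Type*} (f : κ → (U →+ ZMod 2) → k) (r : κ → ℕ)
    (hf : ∀ x, f x ∈ semH υ db th (r x))
    (hsep : ∀ x y, r x ≠ r y → ∃ g, db g = 1 ∧ th g ^ r x ≠ th g ^ r y)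
    (hind : ∀ T : Finset κ, T.Nonempty → (∀ x ∈ T, ∀ y ∈ T, r x = r y) →
      ¬ ∀ l, ∑ x ∈ T, f x l = 0) :
    ∀ (n : ℕ) (s : Finset κ), s.card = n → ∀ c : κ → k, (∀ l, ∑ x ∈ s, c x * f x l = 0) →
      ∀ x ∈ s, c x = 0 := by
  classical
  intro n
  induction n using Nat.strong_induction_on with
  | _ n ih =>
    intro s hs c hc
    by_contra hcon
    push Not at hcon
    obtain ⟨y, hy, hcy⟩ := hcon
    -- all coefficients are nonzero
    have hall : ∀ x ∈ s, c x ≠ 0 := by
      intro x hx hx0
      have hxy : y ≠ x := fun h => hcy (h ▸ hx0)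
      refine hcy (ih (s.erase x).card (by rw [← hs]; exact Finset.card_erase_lt_of_mem hx)
        (s.erase x) rfl c ?_ y (Finset.mem_erase.2 ⟨hxy, hy⟩))
      intro l
      have h1 := hc l
      rw [← Finset.add_sum_erase s _ hx, hx0, zero_mul, zero_add] at h1
      exact h1
    -- normalise
    have hrel : ∀ l, ∑ x ∈ s, (c x / c y) * f x l = 0 := by
      intro l
      have h1 := hc l
      have h2 : ∑ x ∈ s, (c x / c y) * f x l = (c y)⁻¹ * ∑ x ∈ s, c x * f x l := by
        rw [Finset.mul_sum]
        exact Finset.sum_congr rfl (fun x _ => by ring)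
      rw [h2, h1, mul_zero]
    have hkey : ∀ g : G, ∀ x ∈ s,
        db g (c x / c y) * th g ^ r y = (c x / c y) * th g ^ r x := by
      intro g x hx
      by_cases hxy : x = y
      · subst hxy
        rw [div_self hcy, map_one]
      have h0 : ∀ l, ∑ x ∈ s, (db g (c x / c y) * (th g ^ r x)⁻¹ * th g ^ r y
          - c x / c y) * f x l = 0 := by
        intro l
        have h1 := hrel (AddMonoidHom.mk' (fun u => l (υ g u))
          (fun a b => by rw [hact.add, map_add]))
        have h2 := congrArg (db g) h1
        rw [map_sum, map_zero] at h2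
        have h3 : ∀ x ∈ s, db g (c x / c y * f x (AddMonoidHom.mk' (fun u => l (υ g u))
            (fun a b => by rw [hact.add, map_add]))) =
            db g (c x / c y) * (th g ^ r x)⁻¹ * f x l := by
          intro x _
          have h4 := (hf x).2 g (AddMonoidHom.mk' (fun u => l (υ g u))
            (fun a b => by rw [hact.add, map_add])) l (fun u => rfl)
          rw [h4, map_mul, mul_assoc, inv_mul_cancel_left₀ (pow_ne_zero _ (hth g))]
        rw [Finset.sum_congr rfl h3] at h2
        have h5 : ∑ x ∈ s, (db g (c x / c y) * (th g ^ r x)⁻¹ * th g ^ r y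
            - c x / c y) * f x l = th g ^ r y * (∑ x ∈ s, db g (c x / c y) * (th g ^ r x)⁻¹ * f x l)
            - ∑ x ∈ s, (c x / c y) * f x l := by
          rw [Finset.mul_sum, ← Finset.sum_sub_distrib]
          exact Finset.sum_congr rfl (fun x _ => by ring)
        rw [h5, h2, hrel l, mul_zero, sub_zero]
      have hyy : db g (c y / c y) * (th g ^ r y)⁻¹ * th g ^ r y - c y / c y = 0 := by
        rw [div_self hcy, map_one, one_mul, inv_mul_cancel₀ (pow_ne_zero _ (hth g)), sub_self]
      have h6 := ih (s.erase y).card (by rw [← hs]; exact Finset.card_erase_lt_of_mem hy)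
        (s.erase y) rfl (fun x => db g (c x / c y) * (th g ^ r x)⁻¹ * th g ^ r y - c x / c y) (by
          intro l
          have h1 := h0 l
          rw [← Finset.add_sum_erase s _ hy, hyy, zero_mul, zero_add] at h1
          exact h1) x (Finset.mem_erase.2 ⟨hxy, hx⟩)
      have h7 : db g (c x / c y) * (th g ^ r x)⁻¹ * th g ^ r y = c x / c y := sub_eq_zero.1 h6
      have hgen : ∀ a b d : k, b ≠ 0 → a * d = a * b⁻¹ * d * b := by
        intro a b d hb
        field_simp
      rw [hgen _ _ (th g ^ r y) (pow_ne_zero (r x) (hth g)), h7]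
    have hr : ∀ x ∈ s, r x = r y := by
      intro x hx
      by_contra hne
      obtain ⟨g, hg1, hg2⟩ := hsep x y hne
      have h1 := hkey g x hx
      rw [hg1] at h1
      have h2 : c x / c y ≠ 0 := div_ne_zero (hall x hx) hcy
      exact hg2 (mul_left_cancel₀ h2 h1).symm
    have hone : ∀ x ∈ s, c x / c y = 1 := by
      intro x hx
      have h1 : ∀ g, db g (c x / c y) = c x / c y := by
        intro g
        have h2 := hkey g x hx
        rw [hr x hx] at h2
        exact mul_right_cancel₀ (pow_ne_zero _ (hth g)) h2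
      rcases hfix _ h1 with h | h
      · exact absurd h (div_ne_zero (hall x hx) hcy)
      · exact h
    refine hind s ⟨y, hy⟩ (fun x hx z hz => by rw [hr x hx, hr z hz]) (fun l => ?_)
    rw [← hrel l]
    exact Finset.sum_congr rfl (fun x hx => by rw [hone x hx, one_mul])

/-- the additive group of the semilinear functionals -/
private def semG {G : Type*} [Group G] {U : Type*} [AddCommGroup U] (υ : G → U → U)
    {k : Type*} [Field k] (db : G →* (k ≃+* k)) (th : G → k) (r : ℕ) :
    AddSubgroup ((U →+ ZMod 2) → k) where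
  carrier := semH υ db th r
  add_mem' := by
    intro a b ha hb
    refine ⟨fun l l' => ?_, fun g l l' h => ?_⟩
    · simp only [Pi.add_apply]
      rw [ha.1, hb.1]
      ring
    · simp only [Pi.add_apply]
      rw [ha.2 g l l' h, hb.2 g l l' h, map_add]
      ring
  zero_mem' := ⟨fun _ _ => by simp, fun g _ _ _ => by simp⟩
  neg_mem' := by
    intro a ha
    refine ⟨fun l l' => ?_, fun g l l' h => ?_⟩
    · simp only [Pi.neg_apply]
      rw [ha.1]
      ring
    · simp only [Pi.neg_apply]
      rw [ha.2 g l l' h, map_neg]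
      ring

private theorem exists_fam {G : Type*} [Group G] {U : Type*} [AddCommGroup U] [Finite U]
    (υ : G → U → U) {k : Type*} [Field k] [Finite k] (hk : (1 : k) + 1 = 0)
    (db : G →* (k ≃+* k)) (th : G → k) (r : ℕ) :
    ∃ (m : ℕ) (f : Fin m → (U →+ ZMod 2) → k), (∀ i, f i ∈ semH υ db th r) ∧
      Nat.card (semH υ db th r) = 2 ^ m ∧
      ∀ T : Finset (Fin m), T.Nonempty → ¬ ∀ l, ∑ x ∈ T, f x l = 0 := by
  classical
  haveI : Finite (U →+ ZMod 2) := DFunLike.finite _
  letI : Module (ZMod 2) (semG υ db th r) := AddCommGroup.zmodModule (by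
    intro x
    apply Subtype.ext
    funext l
    rw [two_nsmul]
    show (x : (U →+ ZMod 2) → k) l + (x : (U →+ ZMod 2) → k) l = 0
    have : (x : (U →+ ZMod 2) → k) l + (x : (U →+ ZMod 2) → k) l =
      (1 + 1) * (x : (U →+ ZMod 2) → k) l := by ring
    rw [this, hk, zero_mul])
  haveI : Finite (semG υ db th r) := inferInstance
  haveI : Module.Finite (ZMod 2) (semG υ db th r) := Module.Finite.of_finite
  let b := Module.finBasis (ZMod 2) (semG υ db th r)
  refine ⟨Module.finrank (ZMod 2) (semG υ db th r), fun i => (b i : (U →+ ZMod 2) → k),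
    fun i => (b i).2, ?_, ?_⟩
  · have h1 : Nat.card (semH υ db th r) = Nat.card (semG υ db th r) := rfl
    rw [h1, Module.natCard_eq_pow_finrank (K := ZMod 2), Nat.card_zmod]
  · intro T hT h
    obtain ⟨x, hx⟩ := hT
    have hli := b.linearIndependent
    rw [linearIndependent_iff'] at hli
    have h1 : ∑ i ∈ T, (1 : ZMod 2) • b i = 0 := by
      simp only [one_smul]
      apply Subtype.ext
      funext l
      have := h l
      simpa using this
    exact one_ne_zero (hli T (fun _ => 1) h1 x hx)

theorem semH_prod {G : Type*} [Group G] {U : Type*} [AddCommGroup U] [Finite U] {υ : G → U → U}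
    (hact : IsAct υ) (h2 : ∀ u : U, u + u = 0) {k : Type*} [Field k] [Finite k]
    {db : G →* (k ≃+* k)} {th : G → k} (hth : ∀ g, th g ≠ 0)
    (hfix : ∀ z : k, (∀ g, db g z = z) → z = 0 ∨ z = 1) {S : Finset ℕ} {r : ℕ → ℕ}
    (hsep : ∀ i ∈ S, ∀ j ∈ S, i ≠ j → ∃ g, db g = 1 ∧ th g ^ r i ≠ th g ^ r j) :
    ∏ j ∈ S, Nat.card (semH υ db th (r j)) ≤ Nat.card U := by
  classical
  have hk : (1 : k) + 1 = 0 := by
    rcases hfix (1 + 1) (fun g => by rw [map_add, map_one]) with h | h
    · exact h
    · exact absurd (by simpa using h) (one_ne_zero (α := k))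
  haveI : Finite (U →+ ZMod 2) := DFunLike.finite _
  choose m f hfm hfc hfi using fun j => exists_fam (U := U) υ hk db th (r j)
  letI : Module (ZMod 2) U := AddCommGroup.zmodModule (by intro x; rw [two_nsmul]; exact h2 x)
  letI : Module (ZMod 2) k := AddCommGroup.zmodModule (by
    intro x
    rw [two_nsmul]
    have : x + x = (1 + 1) * x := by ring
    rw [this, hk, zero_mul])
  haveI : Module.Finite (ZMod 2) U := Module.Finite.of_finite
  have hcU : Nat.card U = 2 ^ Module.finrank (ZMod 2) U := by
    rw [Module.natCard_eq_pow_finrank (K := ZMod 2), Nat.card_zmod]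
  let e := Module.finBasis (ZMod 2) (Module.Dual (ZMod 2) U)
  have hdim : Module.finrank (ZMod 2) (Module.Dual (ZMod 2) U) = Module.finrank (ZMod 2) U :=
    Subspace.dual_finrank_eq
  -- the family
  let F : (Σ j : S, Fin (m j)) → (U →+ ZMod 2) → k := fun x => f x.1 x.2
  have hF : ∀ x : (Σ j : S, Fin (m j)), F x ∈ semH υ db th (r x.1) := fun x => hfm x.1 x.2
  have hinj : ∀ i ∈ S, ∀ j ∈ S, r i = r j → i = j := by
    intro i hi j hj hij
    by_contra hne
    obtain ⟨g, _, hg⟩ := hsep i hi j hj hne
    exact hg (by rw [hij])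
  have hlin := indep_aux hact hth hfix F (fun x => r x.1) hF
    (fun x y hxy => hsep x.1 x.1.2 y.1 y.1.2 (fun h => hxy (by rw [h])))
    (by
      intro T hT hTr hz
      obtain ⟨x0, hx0⟩ := hT
      have hT1 : ∀ x ∈ T, x.1 = x0.1 := by
        intro x hx
        exact Subtype.ext (hinj x.1 x.1.2 x0.1 x0.1.2 (hTr x hx x0 hx0))
      let T0 : Finset (Fin (m x0.1)) := Finset.univ.filter (fun i => (⟨x0.1, i⟩ :
        (Σ j : S, Fin (m j))) ∈ T)
      have hTT : T = T0.map ⟨fun i => (⟨x0.1, i⟩ : (Σ j : S, Fin (m j))),
          fun a b hab => by simpa using hab⟩ := by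
        ext x
        simp only [Finset.mem_map, Function.Embedding.coeFn_mk, T0, Finset.mem_filter,
          Finset.mem_univ, true_and]
        constructor
        · intro hx
          have h1 := hT1 x hx
          obtain ⟨a, b⟩ := x
          simp only at h1
          subst h1
          exact ⟨b, hx, rfl⟩
        · rintro ⟨a, ha, rfl⟩
          exact ha
      refine hfi x0.1 T0 ⟨x0.2, ?_⟩ (fun l => ?_)
      · simp only [T0, Finset.mem_filter, Finset.mem_univ, true_and]
        exact hx0
      · have h1 := hz l
        rw [hTT, Finset.sum_map] at h1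
        exact h1)
  -- the restricted family
  let R : (Σ j : S, Fin (m j)) → (Fin (Module.finrank (ZMod 2) (Module.Dual (ZMod 2) U)) → k) :=
    fun x i => F x (e i).toAddMonoidHom
  have hR : LinearIndependent k R := by
    rw [linearIndependent_iff']
    intro s c hc x hx
    refine hlin s.card s rfl c ?_ x hx
    -- the additive function
    let Ψ : Module.Dual (ZMod 2) U →+ k := AddMonoidHom.mk'
      (fun l => ∑ x ∈ s, c x * F x l.toAddMonoidHom) (by
        intro a b
        rw [← Finset.sum_add_distrib]
        refine Finset.sum_congr rfl (fun x _ => ?_)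
        have h1 : (a + b).toAddMonoidHom = a.toAddMonoidHom + b.toAddMonoidHom := rfl
        rw [h1, (hF x).1]
        ring)
    have hΨ : Ψ.toZModLinearMap 2 = 0 := by
      refine e.ext (fun i => ?_)
      have h1 := congrFun hc i
      simp only [Finset.sum_apply, Pi.smul_apply, smul_eq_mul, Pi.zero_apply] at h1
      exact h1
    intro l
    have h1 := LinearMap.congr_fun hΨ (l.toZModLinearMap 2)
    exact h1
  have hcard := hR.fintype_card_le_finrank
  rw [Module.finrank_fin_fun, Fintype.card_sigma, hdim] at hcard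
  simp only [Fintype.card_fin] at hcard
  rw [hcU, Finset.prod_congr rfl (fun j _ => hfc j), Finset.prod_pow_eq_pow_sum]
  refine Nat.pow_le_pow_right (by norm_num) ?_
  rw [← Finset.sum_coe_sort]
  exact hcard

end Pool.Agent.Work.MP_787500_nt.EF
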