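import Mathlib
import Pool.Agent.Work.MP_787500_nt.EF.Defs

/-!
# Module HV (size S-M, abstract): vanishing of the first cohomology

`C ≤ T ≤ G`, `C`, `T` normal, `T / C` finite of odd order `t`, `G / T` cyclic with generator `σ`; `U` finite, killed by 2, `C` acts
trivially, `U^G = 0`. A cocycle `x` that vanishes on `C` is a coboundary.

(1) `x (a c) = x a` for `c ∈ C` (`x c = 0`). So `s = ∑_{τ ∈ T / C} x τ` is well defined. For `a ∈ T`:
`s = ∑_τ x (a τ) = t • x a + υ a s = x a + υ a s` (`t` odd, `U` killed by 2), so `x a = s - υ a s = υ a s - s` (`2 U = 0`).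
Replace `x` by `x - d0 υ s`: now `x a = 0` for all `a ∈ T`.
(2) Then `x (a τ) = x a` and `x (τ a) = υ τ (x a)` for `τ ∈ T`, `a ∈ G`; `τ a = a (a⁻¹ τ a)`, so `υ τ (x a) = x a`: the values of `x` lie in
`U' = {u | υ τ u = u for all τ ∈ T}`. `υ σ` maps `U'` to itself (`T` normal). `u ↦ υ σ u - u` is injective on `U'`: if
`υ σ u = u`, `u ∈ U'`, then `u` is fixed by all `σ ^ n τ`, so by `G`, so `u = 0`. `U'` is finite, so it is surjective: `x σ = υ σ m - m` with
`m ∈ U'`. Then `x - d0 υ m` vanishes at `σ` and on `T`, so at all `σ ^ n τ`, so everywhere.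
-/

set_option autoImplicit false
set_option linter.unusedSectionVars false

namespace Pool.Agent.Work.MP_787500_nt.EF

open Pool.Agent.Work.MP_787500_nt.GP (A0 IsAct d0)

private theorem act_zero {G : Type*} [Group G] {U : Type*} [AddCommGroup U] {υ : G → U → U}
    (hact : IsAct υ) (g : G) : υ g 0 = 0 := by
  have h := hact.add g 0 0
  rw [add_zero] at h
  exact left_eq_add.1 h

private theorem act_sub {G : Type*} [Group G] {U : Type*} [AddCommGroup U] {υ : G → U → U}
    (hact : IsAct υ) (g : G) (a b : U) : υ g (a - b) = υ g a - υ g b := by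
  have h := hact.add g (a - b) b
  rw [sub_add_cancel] at h
  rw [h, add_sub_cancel_right]

/-- subtracting a coboundary from a cocycle -/
private theorem coc_sub {G : Type*} [Group G] {U : Type*} [AddCommGroup U] {υ : G → U → U}
    (hact : IsAct υ) {x : G → U} (hx : ∀ a b, x (a * b) = x a + υ a (x b)) (s : U) (a b : G) :
    (x (a * b) - (υ (a * b) s - s)) = (x a - (υ a s - s)) + υ a (x b - (υ b s - s)) := by
  rw [hx, hact.mul, act_sub hact, act_sub hact]
  abel

/-- the stable vectors of a normal subgroup -/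
private def stab {G : Type*} [Group G] (T : Subgroup G) {U : Type*} [AddCommGroup U] (υ : G → U → U)
    (hact : IsAct υ) : AddSubgroup U where
  carrier := {u | ∀ τ ∈ T, υ τ u = u}
  zero_mem' := fun τ _ => act_zero hact τ
  add_mem' := by
    intro a b ha hb τ hτ
    rw [hact.add, ha τ hτ, hb τ hτ]
  neg_mem' := by
    intro a ha τ hτ
    have h := act_sub hact τ 0 a
    rw [zero_sub, act_zero hact, ha τ hτ, zero_sub] at h
    exact h

theorem cob_of_triv {G : Type*} [Group G] {T C : Subgroup G} [T.Normal] [C.Normal] (hCT : C ≤ T)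
    (hodd : Odd (C.relIndex T)) {σ : G} (hσ : ∀ g, ∃ n : ℕ, (σ ^ n)⁻¹ * g ∈ T)
    {U : Type*} [AddCommGroup U] [Finite U] {υ : G → U → U} (hact : IsAct υ)
    (h2 : ∀ u : U, u + u = 0) (hC : ∀ c ∈ C, ∀ u, υ c u = u)
    (hfix : ∀ u, (∀ g, υ g u = u) → u = 0) {x : G → U} (hx : ∀ a b, x (a * b) = x a + υ a (x b))
    (h0 : ∀ c ∈ C, x c = 0) : ∃ m, x = d0 υ m := by
  classical
  have hneg : ∀ u : U, -u = u := fun u => neg_eq_of_add_eq_zero_left (h2 u)
  -- step 1
  obtain ⟨s, hs⟩ : ∃ s, ∀ a ∈ T, x a = υ a s - s := by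
    have hidx : Nat.card (T ⧸ C.subgroupOf T) ≠ 0 := by
      intro h
      have h3 : C.relIndex T = 0 := h
      rw [h3] at hodd
      exact absurd hodd (by decide)
    have hfin : Finite (T ⧸ C.subgroupOf T) := Nat.finite_of_card_ne_zero hidx
    have : Fintype (T ⧸ C.subgroupOf T) := Fintype.ofFinite _
    have hwd : ∀ τ τ' : T, (QuotientGroup.leftRel (C.subgroupOf T)) τ τ' → x τ = x τ' := by
      intro τ τ' h
      rw [QuotientGroup.leftRel_apply, Subgroup.mem_subgroupOf] at h
      have h3 : (τ' : G) = (τ : G) * ((τ⁻¹ * τ' : T) : G) := by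
        simp
      rw [h3, hx, h0 _ h, act_zero hact, add_zero]
    let xb : (T ⧸ C.subgroupOf T) → U := Quotient.lift (fun τ : T => x τ) hwd
    have hxb : ∀ τ : T, xb (QuotientGroup.mk τ) = x τ := fun τ => rfl
    refine ⟨∑ q, xb q, fun a ha => ?_⟩
    have hsum : ∑ q, xb q = ∑ q, xb ((⟨a, ha⟩ : T) • q) :=
      (Equiv.sum_comp (MulAction.toPerm (⟨a, ha⟩ : T)) xb).symm
    have hterm : ∀ q, xb ((⟨a, ha⟩ : T) • q) = x a + υ a (xb q) := by
      intro q
      induction q using QuotientGroup.induction_on with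
      | H τ =>
        show x (a * τ) = x a + υ a (x τ)
        exact hx a τ
    rw [Finset.sum_congr rfl (fun q _ => hterm q), Finset.sum_add_distrib, Finset.sum_const,
      Finset.card_univ, ← Nat.card_eq_fintype_card] at hsum
    have hodd' : Odd (Nat.card (T ⧸ C.subgroupOf T)) := hodd
    have hc : Nat.card (T ⧸ C.subgroupOf T) • x a = x a := by
      obtain ⟨k, hk⟩ := hodd'
      rw [hk, add_smul, one_smul, mul_comm, mul_smul, two_smul, h2, smul_zero, zero_add]
    have hadd : ∑ q, υ a (xb q) = υ a (∑ q, xb q) :=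
      (map_sum (AddMonoidHom.mk' (υ a) (hact.add a)) xb Finset.univ).symm
    rw [hc, hadd] at hsum
    have h4 : x a = (∑ q, xb q) - υ a (∑ q, xb q) := by
      rw [eq_sub_iff_add_eq]
      exact hsum.symm
    rw [h4, ← neg_sub, hneg]
  -- step 2
  set y : G → U := fun g => x g - (υ g s - s) with hy
  have hyT : ∀ τ ∈ T, y τ = 0 := by
    intro τ hτ
    simp only [hy]
    rw [hs τ hτ, sub_self]
  have hyc : ∀ a b, y (a * b) = y a + υ a (y b) := fun a b => coc_sub hact hx s a b
  have hyU : ∀ g, y g ∈ stab T υ hact := by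
    intro g τ hτ
    have e1 : y (τ * g) = υ τ (y g) := by rw [hyc, hyT τ hτ, zero_add]
    have hn : g⁻¹ * τ * g ∈ T := by
      have := (inferInstance : T.Normal).conj_mem τ hτ g⁻¹
      rwa [inv_inv] at this
    have e2 : y (g * (g⁻¹ * τ * g)) = y g := by
      rw [hyc, hyT _ hn, act_zero hact, add_zero]
    have e3 : g * (g⁻¹ * τ * g) = τ * g := by group
    rw [e3, e1] at e2
    exact e2
  have hστ : ∀ u ∈ stab T υ hact, υ σ u ∈ stab T υ hact := by
    intro u hu τ hτ
    have hn : σ⁻¹ * τ * σ ∈ T := by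
      have := (inferInstance : T.Normal).conj_mem τ hτ σ⁻¹
      rwa [inv_inv] at this
    have e3 : τ * σ = σ * (σ⁻¹ * τ * σ) := by group
    rw [← hact.mul, e3, hact.mul, hu _ hn]
  let f : stab T υ hact → stab T υ hact := fun u =>
    ⟨υ σ u.1 - u.1, (stab T υ hact).sub_mem (hστ u.1 u.2) u.2⟩
  have hpow : ∀ u, υ σ u = u → ∀ n : ℕ, υ (σ ^ n) u = u := by
    intro u hu n
    induction n with
    | zero => rw [pow_zero, hact.one]
    | succ n ih => rw [pow_succ, hact.mul, hu, ih]
  have hfixU : ∀ u ∈ stab T υ hact, υ σ u = u → u = 0 := by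
    intro u hu hσu
    refine hfix u fun g => ?_
    obtain ⟨n, hn⟩ := hσ g
    have e : g = σ ^ n * ((σ ^ n)⁻¹ * g) := by group
    rw [e, hact.mul, hu _ hn, hpow u hσu n]
  have hinj : Function.Injective f := by
    intro u u' h
    have h3 : υ σ u.1 - u.1 = υ σ u'.1 - u'.1 := congrArg Subtype.val h
    have h4 : υ σ (u.1 - u'.1) = u.1 - u'.1 := by
      rw [act_sub hact]
      rw [sub_eq_sub_iff_add_eq_add] at h3 ⊢
      rw [add_comm (u.1) _, h3, add_comm]
    have h5 := hfixU _ ((stab T υ hact).sub_mem u.2 u'.2) h4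
    exact Subtype.ext (sub_eq_zero.1 h5)
  have hsurj : Function.Surjective f := Finite.surjective_of_injective hinj
  obtain ⟨m, hm⟩ := hsurj ⟨y σ, hyU σ⟩
  have hm' : υ σ m.1 - m.1 = y σ := congrArg Subtype.val hm
  set z : G → U := fun g => y g - (υ g m.1 - m.1) with hz
  have hzc : ∀ a b, z (a * b) = z a + υ a (z b) := fun a b => coc_sub hact hyc m.1 a b
  have hzσ : z σ = 0 := by
    simp only [hz]
    rw [hm', sub_self]
  have hzT : ∀ τ ∈ T, z τ = 0 := by
    intro τ hτ
    simp only [hz]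
    rw [hyT τ hτ, m.2 τ hτ, sub_self, sub_self]
  have hzp : ∀ n : ℕ, z (σ ^ n) = 0 := by
    intro n
    induction n with
    | zero => rw [pow_zero]; exact hzT 1 T.one_mem
    | succ n ih => rw [pow_succ, hzc, ih, hzσ, act_zero hact, add_zero]
  have hz0 : ∀ g, z g = 0 := by
    intro g
    obtain ⟨n, hn⟩ := hσ g
    have e : g = σ ^ n * ((σ ^ n)⁻¹ * g) := by group
    rw [e, hzc, hzp, hzT _ hn, act_zero hact, add_zero]
  refine ⟨s + m.1, funext fun g => ?_⟩
  have h6 := hz0 g
  simp only [hz, hy] at h6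
  show x g = υ g (s + m.1) - (s + m.1)
  rw [hact.add]
  have h7 : x g = (υ g s - s) + (υ g m.1 - m.1) := by
    rw [sub_eq_zero, sub_eq_iff_eq_add] at h6
    rw [h6, add_comm]
  rw [h7]
  abel

end Pool.Agent.Work.MP_787500_nt.EF
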