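import Mathlib
import Pool.Agent.Work.MP_787500_nt.EF.Chain
import Pool.Agent.Work.MP_787500_nt.EF.HR
import Pool.Agent.Work.MP_787500_nt.EF.HV
import Pool.Agent.Work.MP_787500_nt.EF.Kum
import Pool.Agent.Work.MP_787500_nt.EF.Cnt
import Pool.Agent.Work.MP_787500_nt.EF.Dir
import Pool.Agent.Work.MP_787500_nt.EU.Add

/-!
# The bound for simple modules

`ub_simple`: the number of cocycles of the decomposition group at 2 with values in a simple module `U` with nontrivial
action is at most `card U ^ 2`.
-/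

set_option autoImplicit false
set_option linter.unusedSectionVars false

namespace Pool.Agent.Work.MP_787500_nt.EF

open Pool.Agent.Work.MP_787500_nt.GP (A0 IsAct d0)
open Pool.Agent.Work.MP_787500_nt.PA (homs)
open Pool.Agent.Work.MP_787500_nt.HP (Alg)
open Pool.Agent.Work.MP_787500_nt.KR (FSys two res fullC CountsF Z1 Sm1 Smooth Opn)
open Pool.Agent.Work.MP_787500_nt.EU (Simp)

universe u

theorem eqH_finite {G : Type*} [Group G] {C : Subgroup G} [C.Normal] {U : Type*} [AddCommGroup U]
    [Finite U] {υ : G → U → U} (h2 : ∀ u : U, u + u = 0) {N : AddSubgroup (C → ZMod 2)}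
    (hfin : (N : Set (C → ZMod 2)).Finite) : Finite (eqH C υ N) := by
  have h1 : Finite (N : Set (C → ZMod 2)) := hfin
  have h3 : Finite (U →+ ZMod 2) := Finite.of_injective (fun l : U →+ ZMod 2 => (l : U → ZMod 2))
    DFunLike.coe_injective
  refine Finite.of_injective (β := (U →+ ZMod 2) → (N : Set (C → ZMod 2)))
    (fun h l => ⟨fun c => l ((h : C → U) c), h.2.2.2 l⟩) fun h h' he => ?_
  apply Subtype.ext
  funext c
  rw [← sub_eq_zero]
  refine EU.exists_sep h2 fun l => ?_
  have h4 := congrFun (congrArg Subtype.val (congrFun he l)) c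
  rw [map_sub, sub_eq_zero]
  exact h4

section res

variable {G : Type*} [Group G] {F : FSys G} {C : Subgroup G} [C.Normal] {U : Type*}
  [AddCommGroup U] [Finite U] {υ : G → U → U}

/-- the restriction of a cocycle to a normal subgroup that acts trivially -/
theorem res_mem (hact : IsAct υ) (hC : ∀ c ∈ C, ∀ u, υ c u = u) {x : G → U} (hx : Z1 F υ x) :
    (fun c : C => x c) ∈ eqH C υ (homs (two (res F C)) (⊤ : Subgroup C)).toAddSubgroup := by
  have hx1 : x 1 = 0 := EU.z1_one hact hx.2
  have hadd : ∀ c c' : C, x ((c * c' : C) : G) = x c + x c' := by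
    intro c c'
    rw [Subgroup.coe_mul, hx.2, hC c c.2]
  refine ⟨hadd, fun g c => ?_, fun l => ?_⟩
  · show υ g (x (g⁻¹ * (c : G) * g)) = x c
    have h1 : x ((c : G) * g) = x c + x g := by rw [hx.2, hC c c.2]
    have h3 : x (g * (g⁻¹ * (c : G) * g)) = x g + υ g (x (g⁻¹ * (c : G) * g)) := hx.2 _ _
    have h4 : g * (g⁻¹ * (c : G) * g) = (c : G) * g := by group
    rw [h4, h1, add_comm] at h3
    exact (add_left_cancel h3).symm
  · let ψ : C →* Multiplicative (ZMod 2) :=
      { toFun := fun c => Multiplicative.ofAdd (l (x c))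
        map_one' := by
          show Multiplicative.ofAdd (l (x 1)) = 1
          rw [hx1, map_zero]
          rfl
        map_mul' := fun a b => by
          show Multiplicative.ofAdd (l (x ((a * b : C) : G))) = _
          rw [hadd, map_add]
          rfl }
    have hk : ∀ a : C, a ∈ ψ.ker ↔ l (x a) = 0 := fun a => Iff.rfl
    show (fun c : C => l (x c)) ∈ homs (two (res F C)) (⊤ : Subgroup C)
    refine ⟨⟨ψ.ker, ⟨inferInstance, ⟨ψ.ker, ⟨inferInstance, ?_⟩, le_rfl⟩, ?_⟩, fun c w hw => ?_⟩,
      fun g hg => absurd trivial hg, fun g _ h _ => ?_⟩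
    · obtain ⟨W, hW, h1⟩ := hx.1
      refine ⟨W, hW, fun c hc => ?_⟩
      rw [hk]
      have h3 := h1 1 c (Subgroup.mem_subgroupOf.1 hc)
      rw [one_mul, hx1] at h3
      rw [h3, map_zero]
    · rw [Subgroup.index_ker]
      have h5 : Nat.card ψ.range ∣ Nat.card (Multiplicative (ZMod 2)) :=
        Subgroup.card_subgroup_dvd_card _
      have h6 : Nat.card (Multiplicative (ZMod 2)) = 2 ^ 1 := by
        rw [pow_one]
        exact (Nat.card_eq_fintype_card (α := ZMod 2)).trans (ZMod.card 2)
      rw [h6] at h5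
      obtain ⟨k, -, hk⟩ := (Nat.dvd_prime_pow Nat.prime_two).1 h5
      exact ⟨k, hk⟩
    · show l (x ((c * w : C) : G)) = l (x c)
      rw [hadd, map_add, (hk w).1 hw, add_zero]
    · show l (x ((g * h : C) : G)) = l (x g) + l (x h)
      rw [hadd, map_add]

theorem card_Z1_le {T : Subgroup G} [T.Normal] (hCT : C ≤ T) (hodd : Odd (C.relIndex T)) {σ : G}
    (hσ : ∀ g, ∃ n : ℕ, (σ ^ n)⁻¹ * g ∈ T) (hact : IsAct υ) (h2 : ∀ u : U, u + u = 0)
    (hC : ∀ c ∈ C, ∀ u, υ c u = u) (hfix : ∀ u, (∀ g, υ g u = u) → u = 0)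
    (hfin : ((homs (two (res F C)) (⊤ : Subgroup C)).toAddSubgroup : Set (C → ZMod 2)).Finite) :
    Nat.card {x : G → U // Z1 F υ x} ≤
      Nat.card U * Nat.card (eqH C υ (homs (two (res F C)) (⊤ : Subgroup C)).toAddSubgroup) := by
  classical
  have hfe := eqH_finite (υ := υ) h2 hfin
  let R : {x : G → U // Z1 F υ x} → eqH C υ (homs (two (res F C)) (⊤ : Subgroup C)).toAddSubgroup :=
    fun x => ⟨fun c => x.1 c, res_mem hact hC x.2⟩
  have hex : ∀ h : eqH C υ (homs (two (res F C)) (⊤ : Subgroup C)).toAddSubgroup,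
      ∃ y : G → U, ∀ x, R x = h → ∃ m, x.1 = y + d0 υ m := by
    intro h
    by_cases hh : ∃ x, R x = h
    · obtain ⟨x₀, hx₀⟩ := hh
      refine ⟨x₀.1, fun x hx => ?_⟩
      obtain ⟨m, hm⟩ := cob_of_triv (x := x.1 - x₀.1) hCT hodd hσ hact h2 hC hfix
        (fun a b => by
          rw [Pi.sub_apply, Pi.sub_apply, Pi.sub_apply, x.2.2, x₀.2.2, KR.IsAct.sub' hact]
          abel)
        (fun c hc => by
          have h3 := congrFun (congrArg Subtype.val (hx.trans hx₀.symm)) ⟨c, hc⟩
          rw [Pi.sub_apply, sub_eq_zero]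
          exact h3)
      refine ⟨m, ?_⟩
      rw [← hm]
      abel
    · exact ⟨0, fun x hx => absurd ⟨x, hx⟩ hh⟩
  choose y hy using hex
  rw [← Nat.card_prod]
  have hm : ∀ x, ∃ m, x.1 = y (R x) + d0 υ m := fun x => hy (R x) x rfl
  choose m hm using hm
  refine Nat.card_le_card_of_injective (fun x => (m x, R x)) fun x x' he => ?_
  apply Subtype.ext
  have h3 : m x = m x' := congrArg Prod.fst he
  have h4 : R x = R x' := congrArg Prod.snd he
  rw [hm x, hm x', h3, h4]

end res

variable {Ω : Type u} [Field Ω] [CharZero Ω] [IsAlgClosed Ω] {Γ : Type*}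
  [LinearOrderedCommGroupWithZero Γ] {D : Subgroup (Ω ≃+* Ω)} {v : Valuation Ω Γ}

theorem ub_fix (halg : Alg Ω) (hD : VD D v) (hc : CountsF (fullC D) 1) {f : ℕ} (hf : 0 < f)
    {U : Type*} [AddCommGroup U] [Finite U] {υ : D → U → U} (hact : IsAct υ)
    (h2 : ∀ u : U, u + u = 0) (hC : ∀ g ∈ rtC D (2 ^ f - 1), ∀ u, υ g u = u)
    (hfix : ∀ u, (∀ g, υ g u = u) → u = 0) :
    Nat.card {x : D → U // Z1 (fullC D) υ x} ≤ Nat.card U ^ 2 := by
  have he1 : 1 ≤ 2 ^ f - 1 := by
    have h1 : 2 ^ 1 ≤ 2 ^ f := Nat.pow_le_pow_right (by norm_num) hf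
    omega
  have heodd : Odd (2 ^ f - 1) := by
    have h1 : Even (2 ^ f) := (Nat.even_pow.2 ⟨even_two, hf.ne'⟩)
    exact Nat.Even.sub_odd (by omega) h1 odd_one
  obtain ⟨π, hπ⟩ := IsAlgClosed.exists_pow_nat_eq (2 : Ω) (n := 2 ^ f - 1) (by omega)
  obtain ⟨k, _, _, red, db, hr, hk, hfk, hT⟩ := exists_rdc halg hD hf
  have H := cnt halg hD hc hf hπ
  have hπ0 : π ≠ 0 := by
    rintro rfl
    rw [zero_pow (by omega)] at hπ
    exact two_ne_zero hπ.symm
  have hvπ0 : v π ≠ 0 := (Valuation.ne_zero_iff v).2 hπ0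
  have hvπ : v π < 1 := by
    by_contra h
    push Not at h
    have h1 : 1 ≤ v π ^ (2 ^ f - 1) := one_le_pow₀ h
    rw [← map_pow, hπ] at h1
    exact absurd hD.two (not_lt.2 h1)
  set e := 2 ^ f - 1 with he
  obtain ⟨σ, hσ⟩ := exists_gen hD hf
  -- the filtration
  let N : ℕ → AddSubgroup (rtC D e → ZMod 2) := fun j =>
    if j = 0 then lm (rtC D e) else if j = 1 then lw (rtC D e) else if j = 2 then lu v (rtC D e)
    else if j < 2 * e + 3 then lv v (rtC D e) (v π ^ (j - 2)) else ⊥
  have hN0 : N 0 = lm (rtC D e) := rfl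
  have hN1 : N 1 = lw (rtC D e) := rfl
  have hN2 : N 2 = lu v (rtC D e) := rfl
  have hN3 : ∀ j, 3 ≤ j → j < 2 * e + 3 → N j = lv v (rtC D e) (v π ^ (j - 2)) := by
    intro j h3 hj
    show (if j = 0 then _ else if j = 1 then _ else if j = 2 then _ else if j < 2 * e + 3 then _
      else _) = _
    rw [if_neg (by omega), if_neg (by omega), if_neg (by omega), if_pos hj]
  have hNL : N (2 * e + 3) = ⊥ := by
    show (if 2 * e + 3 = 0 then _ else if 2 * e + 3 = 1 then _ else if 2 * e + 3 = 2 then _ else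
      if 2 * e + 3 < 2 * e + 3 then _ else _) = _
    rw [if_neg (by omega), if_neg (by omega), if_neg (by omega), if_neg (by omega)]
  have hlt : ∀ r, 0 < r → v π ^ r < 1 := fun r hr => pow_lt_one₀ zero_le hvπ hr.ne'
  let S : Finset ℕ := (Finset.range (2 * e + 3)).filter fun j => 3 ≤ j ∧ Odd j
  have hS : ∀ j, j ∈ S ↔ j < 2 * e + 3 ∧ 3 ≤ j ∧ Odd j := by
    intro j
    rw [Finset.mem_filter, Finset.mem_range]
  have hstp : ∀ j ∈ S, ∃ φ, Stp (rtC D e) db (fun g : D => red ((g : Ω ≃+* Ω) π / π)) (j - 2)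
      (N j) (N (j + 1)) φ := by
    intro j hj
    obtain ⟨h1, h3, h4⟩ := (hS j).1 hj
    have h5 : Odd (j - 2) := Nat.Odd.sub_even (by omega) h4 even_two
    have h6 : j ≠ 2 * e + 2 := by
      rintro rfl
      exact (Nat.not_odd_iff_even.2 ⟨e + 1, by ring⟩) h4
    rw [hN3 j h3 h1, hN3 (j + 1) (by omega) (by omega), show j + 1 - 2 = j - 2 + 1 by omega]
    exact lev_stp halg hD hf hπ hr h5 (by omega)
  choose! φ hφ using hstp
  have hle : ∀ j < 2 * e + 3, N (j + 1) ≤ N j := by
    intro j hj
    rcases Nat.lt_or_ge j 3 with h3 | h3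
    · interval_cases j
      · rw [hN0, hN1]
        exact lw_le halg
      · rw [hN1, hN2]
        exact lu_le
      · rw [hN2, hN3 3 le_rfl (by omega)]
        exact lv_le (hlt _ (by omega))
    · rw [hN3 j h3 hj]
      rcases Nat.lt_or_ge (j + 1) (2 * e + 3) with h4 | h4
      · rw [hN3 (j + 1) (by omega) h4]
        exact lv_mono (pow_le_pow_right_of_le_one' hvπ.le (by omega))
      · rw [show j + 1 = 2 * e + 3 by omega, hNL]
        exact bot_le
  have hst : ∀ j ≤ 2 * e + 3, ∀ g, ∀ χ ∈ N j, cj (rtC D e) g χ ∈ N j := by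
    intro j hj g χ hχ
    rcases Nat.lt_or_ge j 3 with h3 | h3
    · interval_cases j
      · exact lm_cj g hχ
      · exact lw_cj g hχ
      · exact lu_cj hD g hχ
    · rcases Nat.lt_or_ge j (2 * e + 3) with h4 | h4
      · rw [hN3 j h3 h4] at hχ ⊢
        exact lv_cj hD (hlt _ (by omega)) g hχ
      · rw [show j = 2 * e + 3 by omega, hNL] at hχ ⊢
        rw [AddSubgroup.mem_bot] at hχ ⊢
        rw [hχ]
        rfl
  have hchain := eqH_chain (υ := υ) (S := S) (r := fun j => j - 2) (φ := φ) (L := 2 * e + 3)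
    hact h2 hfix (hN0 ▸ H.fin) hle hst (fun j hj => ⟨((hS j).1 hj).1, hφ j hj⟩)
    (fun j hj hjS => by
      rcases Nat.lt_or_ge j 3 with h3 | h3
      · interval_cases j
        · rw [hN0, hN1]
          exact H.one
        · rw [hN1, hN2]
          exact Or.inr (lu_relIndex halg hD hf)
        · rw [hN2, hN3 3 le_rfl (by omega)]
          exact H.unit
      · have h5 : Even j := by
          rw [← Nat.not_odd_iff_even]
          intro h6
          exact hjS ((hS j).2 ⟨hj, h3, h6⟩)
        rw [hN3 j h3 hj]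
        rcases Nat.lt_or_ge (j + 1) (2 * e + 3) with h4 | h4
        · rw [hN3 (j + 1) (by omega) h4, show j + 1 - 2 = j - 2 + 1 by omega]
          refine H.even (j - 2) (by omega) ?_ (by omega)
          exact (Nat.even_sub (by omega)).2 (iff_of_true h5 even_two)
        · rw [show j + 1 = 2 * e + 3 by omega, hNL, show j - 2 = 2 * e by omega]
          exact H.last) hNL
  -- the elements `g π / π`
  have hroot : ∀ g : D, (((g : Ω ≃+* Ω) π) / π) ^ e = 1 := by
    intro g
    rw [div_pow, ← map_pow, hπ, map_ofNat, div_self two_ne_zero]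
  have hrfx : ∀ x : Ω, x ^ e = 1 → Fxc (rtC D e) x := fun x hx g hg => hg.1 x hx
  have hrv : ∀ x : Ω, x ^ e = 1 → v x = 1 := by
    intro x hx
    refine (pow_eq_one_iff_of_nonneg zero_le (by omega : e ≠ 0)).1 ?_
    rw [← map_pow, hx, map_one]
  have hpr := semH_prod (υ := υ) (S := S) (r := fun j => j - 2) hact h2
    (th := fun g : D => red ((g : Ω ≃+* Ω) π / π)) (db := db)
    (fun g h0 => by
      have h3 := hrv _ (hroot g)
      have h4 := (hr.ker _ (hrfx _ (hroot g)) h3.le).1 h0
      rw [h3] at h4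
      exact lt_irrefl _ h4) hfk (fun i hi j hj hij => by
      by_contra hcon
      push Not at hcon
      have key : ∀ i ∈ S, ∀ j ∈ S, i < j →
          (∀ g, db g = 1 → red ((g : Ω ≃+* Ω) π / π) ^ (i - 2) = red ((g : Ω ≃+* Ω) π / π) ^ (j - 2)) →
          False := by
        intro i hi j hj hlt hcon
        obtain ⟨h1, h3, h4⟩ := (hS i).1 hi
        obtain ⟨h1', h3', h4'⟩ := (hS j).1 hj
        have h5 : e ∣ j - i := by
          refine sep_C hf hπ H.full fun t ht => ?_
          have h6 := hcon t (hT t ht)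
          have hroott := hroot t
          set w := (t : Ω ≃+* Ω) π / π with hw
          have hpow : ∀ n, red (w ^ n) = red w ^ n := by
            intro n
            induction n with
            | zero => rw [pow_zero, pow_zero, hr.one]
            | succ n ih =>
              rw [pow_succ, pow_succ, hr.mul _ _ (hrfx _ (by rw [← pow_mul, mul_comm, pow_mul, hroott,
                one_pow])) (hrfx _ hroott) (by rw [map_pow, hrv _ hroott, one_pow])
                (hrv _ hroott).le, ih]
          have h7 : w ^ (j - i) = 1 := by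
            refine root_inj hD.two heodd (by rw [← pow_mul, mul_comm, pow_mul, hroott, one_pow]) ?_
            have h8 : Fxc (rtC D e) (w ^ (j - i)) :=
              hrfx _ (by rw [← pow_mul, mul_comm, pow_mul, hroott, one_pow])
            have h9 : Fxc (rtC D e) (-1 : Ω) := fun g _ => by rw [map_neg, map_one]
            have h10 : v (-1 : Ω) ≤ 1 := by rw [Valuation.map_neg, map_one]
            have h11 : v (w ^ (j - i)) ≤ 1 := by rw [map_pow, hrv _ hroott, one_pow]
            have h12 : Fxc (rtC D e) (w ^ (j - i) - 1) := by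
              intro g hg
              rw [map_sub, map_one, h8 g hg]
            have h13 : v (w ^ (j - i) - 1) ≤ 1 :=
              (v.map_sub _ _).trans (max_le h11 (by rw [map_one]))
            rw [← hr.ker _ h12 h13, sub_eq_add_neg, hr.add _ _ h8 h9 h11 h10]
            have h14 : red (w ^ (j - i)) = 1 := by
              have hw0 : red w ≠ 0 := by
                intro h0
                have h4 := (hr.ker _ (hrfx _ hroott) (hrv _ hroott).le).1 h0
                rw [hrv _ hroott] at h4
                exact lt_irrefl _ h4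
              have h15 : red w ^ (i - 2) * red w ^ (j - i) = red w ^ (i - 2) * 1 := by
                rw [← pow_add, mul_one, h6]
                congr 1
                omega
              rw [hpow]
              exact mul_left_cancel₀ (pow_ne_zero _ hw0) h15
            have h16 : red (1 + (-1 : Ω)) = red 1 + red (-1) :=
              hr.add _ _ (fun g _ => map_one _) h9 (by rw [map_one]) h10
            have h17 : red (0 : Ω) = 0 := (hr.ker _ (fun g _ => map_zero _)
              (by rw [map_zero]; exact zero_le_one)).2 (by rw [map_zero]; exact zero_lt_one)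
            rw [h14, ← hr.one, ← h16, add_neg_cancel, h17]
          have h8 : (t : Ω ≃+* Ω) π = w * π := by rw [hw, div_mul_cancel₀ _ hπ0]
          rw [h8, mul_pow, h7, one_mul]
        obtain ⟨q, hq⟩ := h5
        have h6 : Even (j - i) := Nat.Odd.sub_odd h4' h4
        rw [hq, Nat.even_mul] at h6
        rcases h6 with h6 | h6
        · exact (Nat.not_even_iff_odd.2 heodd) h6
        · obtain ⟨p, hp⟩ := h6
          have h7 : p ≠ 0 := by
            rintro rfl
            rw [hp, add_zero, mul_zero] at hq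
            omega
          have h8 : 1 ≤ p := by omega
          have h9 : e * q ≥ 2 * e := by
            rw [hp]
            nlinarith
          rw [← hq] at h9
          omega
      rcases Nat.lt_or_ge i j with h | h
      · exact key i hi j hj h hcon
      · exact key j hj i hi (lt_of_le_of_ne h (Ne.symm hij)) fun g hg => (hcon g hg).symm)
  have hle1 : Nat.card (eqH (rtC D e) υ (N 0)) ≤ Nat.card U := hchain.trans hpr
  have hZ := card_Z1_le (F := fullC D) (C := rtC D e) (T := rtT D e) (rtC_le D e)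
    (by rw [H.full]; exact heodd) hσ hact h2 hC hfix H.fin
  rw [pow_two]
  exact hZ.trans (Nat.mul_le_mul_left _ hle1)

/-- THE BOUND for simple modules. -/
theorem ub_simple (halg : Alg Ω) (hD : VD D v) (hc : CountsF (fullC D) 1) {U : Type*}
    [AddCommGroup U] [Finite U] {υ : D → U → U} (hact : IsAct υ) (hsm : Smooth (fullC D) υ)
    (h2 : ∀ u : U, u + u = 0) (hs : Simp υ) (hn : ∃ g u, υ g u ≠ u) :
    Nat.card {x : D → U // Z1 (fullC D) υ x} ≤ Nat.card U ^ 2 := by
  have hnt : ∃ u : U, u ≠ 0 := by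
    have := hs.nt
    exact exists_ne 0
  obtain ⟨f, hf, hC⟩ := exists_level halg hD hact hsm
    (wild_triv halg hD hact hsm h2 hnt hs.sub)
  refine ub_fix halg hD hc hf hact h2 hC fun u hu => ?_
  let V : AddSubgroup U :=
    { carrier := {u | ∀ g, υ g u = u}
      add_mem' := fun {a b} ha hb g => by rw [hact.add, ha, hb]
      zero_mem' := fun g => KR.IsAct.zero' hact g
      neg_mem' := fun {a} ha g => by rw [KR.IsAct.neg' hact, ha] }
  rcases hs.sub V (fun g a ha g' => by rw [ha g, ha g']) with h | h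
  · have h1 : u ∈ V := hu
    rw [h] at h1
    exact (AddSubgroup.mem_bot).1 h1
  · obtain ⟨g, u', hu'⟩ := hn
    have h1 : u' ∈ V := by
      rw [h]
      trivial
    exact absurd (h1 g) hu'

end Pool.Agent.Work.MP_787500_nt.EF
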