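import Mathlib
import Pool.Agent.Work.MP_787500_nt.EF.Defs
import Pool.Agent.Work.MP_787500_nt.H67_Decomp

/-!
# Module Val (size L): the valuation at a prime of the integers of `Ω` above 2

`Q` a prime of `𝓞 Ω` that contains 2, `D = stb Q`. CLAIM: there is a valuation `v` of `Ω` with `VD (stb Q) v`.

(1) `A = {x : Ω | ∃ a b : 𝓞 Ω, b ∉ Q ∧ x * b = a}` is a valuation subring of `Ω`: for `x ∈ Ω` take a number field `M ⊂ Ω`, finite Galois over `ℚ`, with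
`x ∈ M` (`FiniteGaloisIntermediateField.adjoin ℚ {x}`; `IsGalois ℚ Ω`), and `w` = the prime `Q ∩ 𝓞 M` (`OddP.DEC.layer`, `H67_Decomp.lean`, with `K = ℚ`; `v` there =
`Q ∩ 𝓞 ℚ`). `w.valuation M x ≤ 1` implies `x = a / b` with `a, b ∈ 𝓞 M`, `b ∉ w` (localization at `w` is the valuation ring), and one of `x`, `x⁻¹` has
`w.valuation ≤ 1`. `v = A.valuation`. For `x ∈ M`: `v x ≤ 1` iff `w.valuation M x ≤ 1` (if `x = a / b` in `Ω`, `b ∉ Q`, and `w.valuation x > 1` then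
`x⁻¹ = a' / b'`, `a' ∈ w`, `b' ∉ w`, so `b b' = a a' ∈ Q`: contradiction); `v x < 1` iff `w.valuation M x < 1` (use `x⁻¹`).
(2) `inv`: `g ∈ D` maps `A` to `A` (also `g⁻¹`), so `v x ≤ v y ↔ v (g x) ≤ v (g y)`. `g ^ n x = x` for some `n > 0` (finite orbit, `halg`); `v (g x) < v x` would give
`v x = v (g ^ n x) < .. < v x`; similarly for `>`.
(3) `two`: `2 ∈ Q`. `tor`, `res`: in `M`: `w.valuation x = exp i`, `w.valuation 2 = exp (-j)`, `j > 0`; `x ^ j * 2 ^ i` has valuation 1. The residue field of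
`w` is finite of characteristic 2, with `q` elements; `n = q - 1` is odd; `x = a / b` with `a, b ∉ w`, `a ^ (q - 1) ≡ 1 ≡ b ^ (q - 1)`.
(4) `imm`: `x ≠ 0` fixed by `D`: `OddP.DEC.approx` (`K = ℚ`, `δ = w.valuation M x`; its hypothesis: every `τ` in the stabilizer of `w` is the restriction of an element of the
stabilizer of `Q`: `OddP.DEC.lift_stabilizer`; identify `MulAction.stabilizer (Ω ≃ₐ[ℚ] Ω) Q` with `stb Q`: every ring automorphism is `ℚ`-linear) gives `z ∈ ℚ` with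
`v (x - z) < v x`, so `z ≠ 0`, `v x = v z`, `z = 2 ^ m * (odd / odd)`, and `v (a / b - 1) < 1` for odd integers `a`, `b`. So `v (x * 2 ^ (-m) - 1) < 1`.
(5) `cls`: `g` fixes all elements fixed by `D`. Let `a ∈ Q` with `g a ∉ Q` or `a ∉ Q`, `g a ∈ Q`. Take `M` finite Galois over `ℚ` containing `a`. `g` restricts to `τ ∈ Gal(M / ℚ)`
and fixes the fixed field of the decomposition group `D_M` of `w` (its elements are fixed by `D`), so `τ ∈ D_M` (`IntermediateField.fixingSubgroup_fixedField`,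
finite Galois theory), so `τ` preserves `w`: contradiction. (Or: `stb Q` is closed, `InfiniteGalois.fixingSubgroup_fixedField`, and
`GP/LT2_Sep.lean: stabD_closed`.)
-/

set_option autoImplicit false
set_option linter.unusedSectionVars false

namespace Pool.Agent.Work.MP_787500_nt.EF

open NumberField IsDedekindDomain
open scoped Pointwise
open Pool.Agent.Work.MP_787500_nt.HP (Alg stb)

universe u

section generic

variable {K Ω : Type*} [Field K] [NumberField K] [Field Ω] [Algebra K Ω] [IsGalois K Ω]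

private theorem glayer (Q : Ideal (𝓞 Ω)) [Q.IsPrime] (v : HeightOneSpectrum (𝓞 K))
    (hv : Q.comap (algebraMap (𝓞 K) (𝓞 Ω)) = v.asIdeal) (x : Ω) :
    ∃ (M : IntermediateField K Ω) (_ : NumberField M) (_ : IsGalois K M)
      (w : HeightOneSpectrum (𝓞 M)), x ∈ M ∧ w.asIdeal = Q.comap (algebraMap (𝓞 M) (𝓞 Ω)) := by
  let L : FiniteGaloisIntermediateField K Ω := FiniteGaloisIntermediateField.adjoin K {x}
  let M : IntermediateField K Ω := L.toIntermediateField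
  have hfd : FiniteDimensional K M := L.finiteDimensional
  have hgal : IsGalois K M := L.isGalois
  have hnf : NumberField M := NumberField.of_module_finite K M
  have hxM : x ∈ M := FiniteGaloisIntermediateField.subset_adjoin K {x} rfl
  exact ⟨M, hnf, hgal, OddP.DEC.layer M Q v hv, hxM, rfl⟩

private theorem gimm (Q : Ideal (𝓞 Ω)) [Q.IsPrime] (v : HeightOneSpectrum (𝓞 K))
    (hv : Q.comap (algebraMap (𝓞 K) (𝓞 Ω)) = v.asIdeal) (x : Ω) (hx : x ≠ 0)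
    (hfix : ∀ σ ∈ MulAction.stabilizer (Ω ≃ₐ[K] Ω) Q, σ x = x) :
    ∃ (M : IntermediateField K Ω) (_ : NumberField M) (w : HeightOneSpectrum (𝓞 M)) (hxM : x ∈ M),
      w.asIdeal = Q.comap (algebraMap (𝓞 M) (𝓞 Ω)) ∧ ∃ (z : K) (y : M), z ≠ 0 ∧
        algebraMap M Ω y = algebraMap K Ω z ∧ w.valuation M ((⟨x, hxM⟩ : M)⁻¹ * y - 1) < 1 := by
  obtain ⟨M, hnf, hgal, w, hxM, hw⟩ := glayer Q v hv x
  have hx' : (⟨x, hxM⟩ : M) ≠ 0 := fun h => hx (congrArg Subtype.val h)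
  have hβ : ∀ τ ∈ MulAction.stabilizer (M ≃ₐ[K] M) w.asIdeal, τ ⟨x, hxM⟩ = ⟨x, hxM⟩ := by
    intro τ hτ
    rw [hw] at hτ
    obtain ⟨σ, hσ, hσ'⟩ := OddP.DEC.lift_stabilizer M Q hτ
    apply Subtype.ext
    rw [← hσ']
    exact hfix σ hσ
  have h0 : w.valuation M ⟨x, hxM⟩ ≠ 0 := (Valuation.ne_zero_iff _).2 hx'
  obtain ⟨z, hz⟩ := OddP.DEC.approx (K := K) w ⟨x, hxM⟩ hβ _ h0
  have hz1 : w.valuation M ((⟨x, hxM⟩ : M)⁻¹ * algebraMap K M z - 1) < 1 := by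
    have e : (⟨x, hxM⟩ : M)⁻¹ * algebraMap K M z - 1 =
        -((⟨x, hxM⟩ : M)⁻¹ * (⟨x, hxM⟩ - algebraMap K M z)) := by
      field_simp
      ring
    rw [e, Valuation.map_neg, map_mul, map_inv₀, inv_mul_lt_iff₀ (zero_lt_iff.2 h0), mul_one]
    exact hz
  have hz0 : z ≠ 0 := by
    rintro rfl
    rw [map_zero, mul_zero, zero_sub, Valuation.map_neg, map_one] at hz1
    exact lt_irrefl _ hz1
  exact ⟨M, hnf, w, hxM, hw, z, algebraMap K M z, hz0, rfl, hz1⟩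

private theorem gcls (Q : Ideal (𝓞 Ω)) [Q.IsPrime] (v : HeightOneSpectrum (𝓞 K))
    (hv : Q.comap (algebraMap (𝓞 K) (𝓞 Ω)) = v.asIdeal) (g : Ω ≃ₐ[K] Ω)
    (hfix : ∀ x, (∀ h ∈ MulAction.stabilizer (Ω ≃ₐ[K] Ω) Q, h x = x) → g x = x) (a : 𝓞 Ω) :
    a ∈ Q ↔ g • a ∈ Q := by
  obtain ⟨M, hnf, hgal, w, haM, hw⟩ := glayer Q v hv (algebraMap (𝓞 Ω) Ω a)
  have hfd : FiniteDimensional K M := Module.Finite.of_restrictScalars_finite ℚ K M
  have hint : IsIntegral ℤ (⟨_, haM⟩ : M) := by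
    have h3 : IsIntegral ℤ (algebraMap M Ω ⟨_, haM⟩) := RingOfIntegers.isIntegral_coe a
    exact (isIntegral_algebraMap_iff (algebraMap M Ω).injective).1 h3
  obtain ⟨a', ha'⟩ : ∃ a' : 𝓞 M, algebraMap (𝓞 M) (𝓞 Ω) a' = a := by
    refine ⟨⟨_, hint⟩, ?_⟩
    apply RingOfIntegers.ext
    rfl
  have hres : ∀ (h : Ω ≃ₐ[K] Ω) (y : 𝓞 M), h • algebraMap (𝓞 M) (𝓞 Ω) y =
      algebraMap (𝓞 M) (𝓞 Ω) (h.restrictNormal M • y) := by
    intro h y
    apply RingOfIntegers.ext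
    exact (h.restrictNormal_commutes M (algebraMap (𝓞 M) M y)).symm
  have hmem : ∀ h ∈ MulAction.stabilizer (Ω ≃ₐ[K] Ω) Q,
      h.restrictNormal M ∈ MulAction.stabilizer (M ≃ₐ[K] M) w.asIdeal := by
    intro h hh
    have key : ∀ y : 𝓞 M, y ∈ w.asIdeal ↔ h.restrictNormal M • y ∈ w.asIdeal := by
      intro y
      rw [hw, Ideal.mem_comap, Ideal.mem_comap, ← hres]
      have e2 := Ideal.smul_mem_pointwise_smul_iff (a := h) (S := Q)
        (x := algebraMap (𝓞 M) (𝓞 Ω) y)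
      rw [MulAction.mem_stabilizer_iff.1 hh] at e2
      exact e2.symm
    rw [MulAction.mem_stabilizer_iff]
    ext y
    rw [Ideal.mem_pointwise_smul_iff_inv_smul_mem, key, smul_inv_smul]
  have hτ : g.restrictNormal M ∈ MulAction.stabilizer (M ≃ₐ[K] M) w.asIdeal := by
    rw [← IntermediateField.fixingSubgroup_fixedField (MulAction.stabilizer (M ≃ₐ[K] M) w.asIdeal),
      IntermediateField.mem_fixingSubgroup_iff]
    intro y hy
    rw [IntermediateField.mem_fixedField_iff] at hy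
    have h3 : ∀ h ∈ MulAction.stabilizer (Ω ≃ₐ[K] Ω) Q, h (algebraMap M Ω y) = algebraMap M Ω y := by
      intro h hh
      have e1 := h.restrictNormal_commutes M y
      rw [hy _ (hmem h hh)] at e1
      exact e1.symm
    have h4 := hfix _ h3
    apply (algebraMap M Ω).injective
    rw [g.restrictNormal_commutes M y]
    exact h4
  have e2 := Ideal.smul_mem_pointwise_smul_iff (a := g.restrictNormal M) (S := w.asIdeal) (x := a')
  rw [MulAction.mem_stabilizer_iff.1 hτ, hw, Ideal.mem_comap, Ideal.mem_comap, ← hres, ha'] at e2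
  exact e2.symm

end generic

section val

variable {Ω : Type u} [Field Ω] [CharZero Ω]

private theorem isGal [IsAlgClosed Ω] (halg : Alg Ω) : IsGalois ℚ Ω := by
  have hZ : Algebra.IsAlgebraic ℤ Ω := ⟨fun x => by
    obtain ⟨p, hp, hpx⟩ := halg x
    exact ⟨p, hp, by rw [Polynomial.aeval_def]; exact hpx⟩⟩
  have : IsAlgClosure ℚ Ω := ⟨inferInstance,
    ⟨fun x => (IsFractionRing.isAlgebraic_iff ℤ ℚ Ω).1 (hZ.isAlgebraic x)⟩⟩
  exact IsAlgClosure.isGalois ℚ Ω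

/-- fractions with denominator prime to `Q` -/
private def Fr (Q : Ideal (𝓞 Ω)) (x : Ω) : Prop :=
  ∃ a b : 𝓞 Ω, b ∉ Q ∧ x * algebraMap (𝓞 Ω) Ω b = algebraMap (𝓞 Ω) Ω a

private theorem fr_iff {Q : Ideal (𝓞 Ω)} (hQ : Q.IsPrime) (M : IntermediateField ℚ Ω) [NumberField M]
    (w : HeightOneSpectrum (𝓞 M)) (hw : w.asIdeal = Q.comap (algebraMap (𝓞 M) (𝓞 Ω))) (x : M) :
    Fr Q (x : Ω) ↔ w.valuation M x ≤ 1 := by
  have hmem : ∀ y : 𝓞 M, y ∈ w.asIdeal ↔ algebraMap (𝓞 M) (𝓞 Ω) y ∈ Q := by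
    intro y
    rw [hw, Ideal.mem_comap]
  constructor
  · rintro ⟨a, b, hb, hab⟩
    by_contra hcon
    rw [not_le] at hcon
    have hx0 : x ≠ 0 := by
      rintro rfl
      rw [map_zero] at hcon
      exact absurd hcon (not_lt.2 zero_le)
    have h1 : w.valuation M x⁻¹ < 1 := by
      rw [map_inv₀]
      exact inv_lt_one_of_one_lt₀ hcon
    obtain ⟨n, d, hnd⟩ := w.exists_primeCompl_mul_eq_of_integer x⁻¹ h1.le
    have hn : n ∈ w.asIdeal := by
      rw [← HeightOneSpectrum.valuation_lt_one_iff_mem (K := M)]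
      show w.valuation M (algebraMap (𝓞 M) M n) < 1
      rw [← hnd, map_mul]
      exact mul_lt_one_of_lt_of_le h1 (w.valuation_le_one _)
    have hd : (d : 𝓞 M) ∉ w.asIdeal := d.2
    have h2 : ((x : Ω))⁻¹ * algebraMap (𝓞 Ω) Ω (algebraMap (𝓞 M) (𝓞 Ω) d) =
        algebraMap (𝓞 Ω) Ω (algebraMap (𝓞 M) (𝓞 Ω) n) := congrArg (algebraMap M Ω) hnd
    have hx0' : (x : Ω) ≠ 0 := fun h => hx0 (Subtype.ext h)
    have h3 : b * algebraMap (𝓞 M) (𝓞 Ω) d = a * algebraMap (𝓞 M) (𝓞 Ω) n := by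
      apply FaithfulSMul.algebraMap_injective (𝓞 Ω) Ω
      rw [map_mul, map_mul, ← hab, ← h2]
      field_simp
    have h4 : b * algebraMap (𝓞 M) (𝓞 Ω) d ∈ Q := by
      rw [h3]
      exact Q.mul_mem_left _ ((hmem n).1 hn)
    rcases hQ.mem_or_mem h4 with h5 | h5
    · exact hb h5
    · exact hd ((hmem _).2 h5)
  · intro h
    obtain ⟨n, d, hnd⟩ := w.exists_primeCompl_mul_eq_of_integer x h
    refine ⟨algebraMap (𝓞 M) (𝓞 Ω) n, algebraMap (𝓞 M) (𝓞 Ω) d, fun hd => d.2 ((hmem _).2 hd), ?_⟩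
    exact congrArg (algebraMap M Ω) hnd

/-- the prime of the rational integers below -/
private def v0 {Q : Ideal (𝓞 Ω)} (hQ : Q.IsPrime) (h2 : (2 : 𝓞 Ω) ∈ Q) : HeightOneSpectrum (𝓞 ℚ) where
  asIdeal := Q.comap (algebraMap (𝓞 ℚ) (𝓞 Ω))
  isPrime := inferInstance
  ne_bot := by
    intro h
    have h1 : (2 : 𝓞 ℚ) ∈ Q.comap (algebraMap (𝓞 ℚ) (𝓞 Ω)) := by
      rw [Ideal.mem_comap, map_ofNat]
      exact h2
    rw [h, Ideal.mem_bot] at h1
    exact two_ne_zero h1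

/-- a finite Galois layer containing `x` -/
private theorem exists_layer [IsGalois ℚ Ω] {Q : Ideal (𝓞 Ω)} (hQ : Q.IsPrime) (h2 : (2 : 𝓞 Ω) ∈ Q)
    (x : Ω) : ∃ (M : IntermediateField ℚ Ω) (_ : NumberField M)
      (w : HeightOneSpectrum (𝓞 M)), x ∈ M ∧ w.asIdeal = Q.comap (algebraMap (𝓞 M) (𝓞 Ω)) := by
  obtain ⟨M, hnf, hgal, w, hxM, hw⟩ := glayer Q (v0 hQ h2) rfl x
  exact ⟨M, hnf, w, hxM, hw⟩

/-- the valuation ring -/
private def AA [IsGalois ℚ Ω] {Q : Ideal (𝓞 Ω)} (hQ : Q.IsPrime) (h2 : (2 : 𝓞 Ω) ∈ Q) :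
    ValuationSubring Ω where
  carrier := {x | Fr Q x}
  mul_mem' := by
    rintro x y ⟨a, b, hb, hab⟩ ⟨a', b', hb', hab'⟩
    refine ⟨a * a', b * b', fun h => (hQ.mem_or_mem h).elim hb hb', ?_⟩
    rw [map_mul, map_mul, ← hab, ← hab']
    ring
  one_mem' := ⟨1, 1, fun h => hQ.ne_top ((Ideal.eq_top_iff_one Q).2 h), by simp⟩
  add_mem' := by
    rintro x y ⟨a, b, hb, hab⟩ ⟨a', b', hb', hab'⟩
    refine ⟨a * b' + a' * b, b * b', fun h => (hQ.mem_or_mem h).elim hb hb', ?_⟩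
    rw [map_add, map_mul, map_mul, map_mul, ← hab, ← hab']
    ring
  zero_mem' := ⟨0, 1, fun h => hQ.ne_top ((Ideal.eq_top_iff_one Q).2 h), by simp⟩
  neg_mem' := by
    rintro x ⟨a, b, hb, hab⟩
    refine ⟨-a, b, hb, ?_⟩
    rw [map_neg, ← hab]
    ring
  mem_or_inv_mem' := by
    intro x
    obtain ⟨M, hnf, w, hxM, hw⟩ := exists_layer hQ h2 x
    by_cases h : w.valuation M ⟨x, hxM⟩ ≤ 1
    · exact Or.inl ((fr_iff hQ M w hw ⟨x, hxM⟩).2 h)
    · right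
      rw [not_le] at h
      have h1 : w.valuation M (⟨x, hxM⟩ : M)⁻¹ ≤ 1 := by
        rw [map_inv₀]
        exact (inv_lt_one_of_one_lt₀ h).le
      exact (fr_iff hQ M w hw (⟨x, hxM⟩ : M)⁻¹).2 h1


private theorem lt_of_le {K L Γ₁ Γ₂ : Type*} [Field K] [Field L] [LinearOrderedCommGroupWithZero Γ₁]
    [LinearOrderedCommGroupWithZero Γ₂] (v : Valuation K Γ₁) (w : Valuation L Γ₂) (f : L →+* K)
    (h : ∀ x, v (f x) ≤ 1 ↔ w x ≤ 1) (x : L) : v (f x) < 1 ↔ w x < 1 := by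
  by_cases hx : x = 0
  · subst hx
    rw [map_zero, map_zero, map_zero]
    exact ⟨fun _ => zero_lt_one, fun _ => zero_lt_one⟩
  · have h1 := h x⁻¹
    have hfx : f x ≠ 0 := (map_ne_zero f).2 hx
    rw [map_inv₀, map_inv₀, map_inv₀, inv_le_one₀ (zero_lt_iff.2 ((Valuation.ne_zero_iff _).2 hfx)),
      inv_le_one₀ (zero_lt_iff.2 ((Valuation.ne_zero_iff _).2 hx))] at h1
    rw [← not_le, h1, not_le]

section facts

variable [IsGalois ℚ Ω] {Q : Ideal (𝓞 Ω)} (hQ : Q.IsPrime) (h2 : (2 : 𝓞 Ω) ∈ Q)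

private theorem v_le (x : Ω) : (AA hQ h2).valuation x ≤ 1 ↔ Fr Q x :=
  ValuationSubring.valuation_le_one_iff _ _

private theorem lay_le (M : IntermediateField ℚ Ω) [NumberField M]
    (w : HeightOneSpectrum (𝓞 M)) (hw : w.asIdeal = Q.comap (algebraMap (𝓞 M) (𝓞 Ω))) (x : M) :
    (AA hQ h2).valuation (algebraMap M Ω x) ≤ 1 ↔ w.valuation M x ≤ 1 :=
  (v_le hQ h2 _).trans (fr_iff hQ M w hw x)

private theorem lay_lt (M : IntermediateField ℚ Ω) [NumberField M]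
    (w : HeightOneSpectrum (𝓞 M)) (hw : w.asIdeal = Q.comap (algebraMap (𝓞 M) (𝓞 Ω))) (x : M) :
    (AA hQ h2).valuation (algebraMap M Ω x) < 1 ↔ w.valuation M x < 1 :=
  lt_of_le _ _ (algebraMap M Ω) (lay_le hQ h2 M w hw) x

private theorem lay_eq (M : IntermediateField ℚ Ω) [NumberField M]
    (w : HeightOneSpectrum (𝓞 M)) (hw : w.asIdeal = Q.comap (algebraMap (𝓞 M) (𝓞 Ω))) (x : M) :
    (AA hQ h2).valuation (algebraMap M Ω x) = 1 ↔ w.valuation M x = 1 := by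
  have h1 := lay_le hQ h2 M w hw x
  have h3 := lay_lt hQ h2 M w hw x
  constructor
  · intro h
    exact le_antisymm (h1.1 h.le) (not_lt.1 fun h4 => absurd (h3.2 h4) (by rw [h]; exact lt_irrefl _))
  · intro h
    exact le_antisymm (h1.2 h.le) (not_lt.1 fun h4 => absurd (h3.1 h4) (by rw [h]; exact lt_irrefl _))

private theorem w_two (M : IntermediateField ℚ Ω) [NumberField M] (h2 : (2 : 𝓞 Ω) ∈ Q)
    (w : HeightOneSpectrum (𝓞 M)) (hw : w.asIdeal = Q.comap (algebraMap (𝓞 M) (𝓞 Ω))) :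
    w.valuation M 2 < 1 := by
  have h1 : (2 : 𝓞 M) ∈ w.asIdeal := by
    rw [hw, Ideal.mem_comap, map_ofNat]
    exact h2
  rw [← HeightOneSpectrum.valuation_lt_one_iff_mem (K := M)] at h1
  have h3 : algebraMap (𝓞 M) M 2 = 2 := map_ofNat _ 2
  rw [← h3]
  exact h1

private theorem v_two : (AA hQ h2).valuation 2 < 1 := by
  obtain ⟨M, hnf, w, hxM, hw⟩ := exists_layer hQ h2 (0 : Ω)
  have h1 := (lay_lt hQ h2 M w hw 2).2 (w_two M h2 w hw)
  rwa [map_ofNat] at h1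

private theorem v_tor (x : Ω) (hx : x ≠ 0) :
    ∃ n : ℕ, 0 < n ∧ ∃ k : ℤ, (AA hQ h2).valuation x ^ n = (AA hQ h2).valuation 2 ^ k := by
  obtain ⟨M, hnf, w, hxM, hw⟩ := exists_layer hQ h2 x
  have hx' : (⟨x, hxM⟩ : M) ≠ 0 := fun h => hx (congrArg Subtype.val h)
  obtain ⟨i, hi⟩ : ∃ i : ℤ, w.valuation M ⟨x, hxM⟩ = WithZero.exp i :=
    ⟨_, (WithZero.exp_log ((Valuation.ne_zero_iff _).2 hx')).symm⟩
  obtain ⟨j, hj⟩ : ∃ j : ℤ, w.valuation M 2 = WithZero.exp j :=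
    ⟨_, (WithZero.exp_log ((Valuation.ne_zero_iff _).2 two_ne_zero)).symm⟩
  have hj0 : j < 0 := by
    have h1 := w_two M h2 w hw
    rw [hj, ← WithZero.exp_zero, WithZero.exp_lt_exp] at h1
    exact h1
  obtain ⟨n, hn⟩ : ∃ n : ℕ, (n : ℤ) = -j := ⟨(-j).toNat, Int.toNat_of_nonneg (by omega)⟩
  have h1 : w.valuation M (⟨x, hxM⟩ ^ n * 2 ^ i) = 1 := by
    rw [map_mul, map_pow, map_zpow₀, hi, hj, ← WithZero.exp_nsmul, ← WithZero.exp_zsmul, ← WithZero.exp_add,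
      ← WithZero.exp_zero]
    congr 1
    rw [nsmul_eq_mul, zsmul_eq_mul, hn]
    simp
    ring
  have h3 := (lay_eq hQ h2 M w hw _).2 h1
  rw [map_mul, map_pow, map_zpow₀, map_ofNat, map_mul, map_pow, map_zpow₀] at h3
  refine ⟨n, by omega, -i, ?_⟩
  rw [zpow_neg]
  exact eq_inv_of_mul_eq_one_left h3

private theorem fr_map {g : Ω ≃+* Ω} (hg : g ∈ stb Q) {x : Ω} (hx : Fr Q x) : Fr Q (g x) := by
  obtain ⟨a, b, hb, hab⟩ := hx
  refine ⟨HP.og g a, HP.og g b, fun h => hb ((HP.mem_stb.1 hg b).2 h), ?_⟩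
  have h1 := congrArg g hab
  rw [map_mul] at h1
  exact h1

private theorem v_one_map {g : Ω ≃+* Ω} (hg : g ∈ stb Q) {x : Ω} (hx : (AA hQ h2).valuation x = 1) :
    (AA hQ h2).valuation (g x) = 1 := by
  have h1 : ∀ y : Ω, (AA hQ h2).valuation y ≤ 1 → (AA hQ h2).valuation (g y) ≤ 1 := fun y hy =>
    (v_le hQ h2 _).2 (fr_map hg ((v_le hQ h2 y).1 hy))
  refine le_antisymm (h1 x hx.le) ?_
  have h3 := h1 x⁻¹ (by rw [map_inv₀, hx, inv_one])
  have hx0 : x ≠ 0 := by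
    rintro rfl
    rw [map_zero] at hx
    exact zero_ne_one hx
  rw [map_inv₀, map_inv₀, inv_le_one₀ (zero_lt_iff.2 ((Valuation.ne_zero_iff _).2
    ((map_ne_zero_iff g g.injective).2 hx0)))] at h3
  exact h3

private theorem v_inv {g : Ω ≃+* Ω} (hg : g ∈ stb Q) (x : Ω) :
    (AA hQ h2).valuation (g x) = (AA hQ h2).valuation x := by
  by_cases hx : x = 0
  · rw [hx, map_zero]
  · obtain ⟨n, hn, k, hk⟩ := v_tor hQ h2 x hx
    have h20 : (AA hQ h2).valuation 2 ≠ 0 := (Valuation.ne_zero_iff _).2 two_ne_zero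
    have h1 : (AA hQ h2).valuation (x ^ n * 2 ^ (-k)) = 1 := by
      rw [map_mul, map_pow, map_zpow₀, hk, ← zpow_add₀ h20, add_neg_cancel, zpow_zero]
    have h3 := v_one_map hQ h2 hg h1
    rw [map_mul, map_pow, map_zpow₀, map_ofNat, map_mul, map_pow, map_zpow₀, zpow_neg] at h3
    have h4 := eq_inv_of_mul_eq_one_left h3
    rw [inv_inv, ← hk] at h4
    exact (pow_left_inj₀ zero_le zero_le hn.ne').1 h4

private theorem v_res (x : Ω) (hx : (AA hQ h2).valuation x = 1) :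
    ∃ n : ℕ, Odd n ∧ (AA hQ h2).valuation (x ^ n - 1) < 1 := by
  classical
  obtain ⟨M, hnf, w, hxM, hw⟩ := exists_layer hQ h2 x
  have hwx : w.valuation M ⟨x, hxM⟩ = 1 := (lay_eq hQ h2 M w hw ⟨x, hxM⟩).1 hx
  obtain ⟨n, d, hnd⟩ := w.exists_primeCompl_mul_eq_of_integer (⟨x, hxM⟩ : M) hwx.le
  have hd1 : w.valuation M (algebraMap (𝓞 M) M d) = 1 :=
    w.valuation_eq_one_iff_notMem.2 d.2
  have hn1 : w.valuation M (algebraMap (𝓞 M) M n) = 1 := by
    rw [← hnd, map_mul, hwx, hd1, one_mul]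
  have hn2 : n ∉ w.asIdeal := w.valuation_eq_one_iff_notMem.1 hn1
  have hmax : w.asIdeal.IsMaximal := w.isMaximal
  have hfin : Finite (𝓞 M ⧸ w.asIdeal) := Ideal.finiteQuotientOfFreeOfNeBot _ w.ne_bot
  let _ : Field (𝓞 M ⧸ w.asIdeal) := Ideal.Quotient.field _
  let _ : Fintype (𝓞 M ⧸ w.asIdeal) := Fintype.ofFinite _
  have h2k : (2 : 𝓞 M ⧸ w.asIdeal) = 0 := by
    have h1 : (2 : 𝓞 M) ∈ w.asIdeal := by
      rw [hw, Ideal.mem_comap, map_ofNat]
      exact h2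
    have h3 := Ideal.Quotient.eq_zero_iff_mem.2 h1
    rwa [map_ofNat] at h3
  set q := Fintype.card (𝓞 M ⧸ w.asIdeal) with hq
  have hq0 : (q : 𝓞 M ⧸ w.asIdeal) = 0 := Nat.cast_card_eq_zero _
  have hqe : Even q := by
    by_contra hcon
    rw [Nat.not_even_iff_odd] at hcon
    obtain ⟨m, hm⟩ := hcon
    rw [hm] at hq0
    push_cast at hq0
    rw [h2k, zero_mul, zero_add] at hq0
    exact one_ne_zero hq0
  have hq1 : 1 < q := Fintype.one_lt_card
  have hodd : Odd (q - 1) := by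
    obtain ⟨m, hm⟩ := hqe
    exact ⟨m - 1, by omega⟩
  have hpow : ∀ a : 𝓞 M, a ∉ w.asIdeal → (Ideal.Quotient.mk w.asIdeal a) ^ (q - 1) = 1 := by
    intro a ha
    exact FiniteField.pow_card_sub_one_eq_one _ (fun h => ha (Ideal.Quotient.eq_zero_iff_mem.1 h))
  have hmem : n ^ (q - 1) - (d : 𝓞 M) ^ (q - 1) ∈ w.asIdeal := by
    rw [← Ideal.Quotient.eq_zero_iff_mem, map_sub, map_pow, map_pow, hpow n hn2, hpow d d.2, sub_self]
  refine ⟨q - 1, hodd, ?_⟩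
  have h3 : w.valuation M ((⟨x, hxM⟩ : M) ^ (q - 1) - 1) < 1 := by
    have e1 : ((⟨x, hxM⟩ : M) ^ (q - 1) - 1) * (algebraMap (𝓞 M) M d) ^ (q - 1) =
        algebraMap (𝓞 M) M (n ^ (q - 1) - (d : 𝓞 M) ^ (q - 1)) := by
      rw [map_sub, map_pow, map_pow, ← hnd, mul_pow]
      ring
    have e2 := congrArg (w.valuation M) e1
    rw [map_mul, map_pow, hd1, one_pow, mul_one] at e2
    rw [e2]
    exact (w.valuation_lt_one_iff_mem (K := M) _).2 hmem
  have h4 := (lay_lt hQ h2 M w hw _).2 h3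
  rwa [map_sub, map_pow, map_one] at h4


private theorem u_one {K Γ : Type*} [Field K] [LinearOrderedCommGroupWithZero Γ] (v : Valuation K Γ) {u : K}
    (h : v (u - 1) < 1) : v u = 1 := by
  have h1 := Valuation.map_one_add_of_lt v h
  rwa [add_sub_cancel] at h1

private theorem u_mul {K Γ : Type*} [Field K] [LinearOrderedCommGroupWithZero Γ] (v : Valuation K Γ) {u u' : K}
    (h : v (u - 1) < 1) (h' : v (u' - 1) < 1) : v (u * u' - 1) < 1 := by
  have e : u * u' - 1 = (u - 1) * u' + (u' - 1) := by ring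
  rw [e]
  refine Valuation.map_add_lt _ ?_ h'
  rw [map_mul, u_one v h', mul_one]
  exact h

private theorem u_inv {K Γ : Type*} [Field K] [LinearOrderedCommGroupWithZero Γ] (v : Valuation K Γ) {u : K}
    (h : v (u - 1) < 1) : v (u⁻¹ - 1) < 1 := by
  have h1 := u_one v h
  have h0 : u ≠ 0 := by
    rintro rfl
    rw [map_zero] at h1
    exact zero_ne_one h1
  have e : u⁻¹ - 1 = u⁻¹ * -(u - 1) := by
    field_simp
    ring
  rw [e, map_mul, map_inv₀, h1, inv_one, one_mul, Valuation.map_neg]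
  exact h

private theorem v_int (n : ℤ) : (AA hQ h2).valuation (n : Ω) ≤ 1 :=
  ((AA hQ h2).valuation_le_one_iff _).2 (intCast_mem _ n)

private theorem v_odd {n : ℤ} (hn : Odd n) : (AA hQ h2).valuation ((n : Ω) - 1) < 1 := by
  obtain ⟨m, rfl⟩ := hn
  push_cast
  rw [add_sub_cancel_right, map_mul]
  exact mul_lt_one_of_lt_of_le (v_two hQ h2) (v_int hQ h2 m)

private theorem int_fac {n : ℤ} (hn : n ≠ 0) : ∃ (k : ℕ) (m : ℤ), Odd m ∧ n = 2 ^ k * m := by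
  obtain ⟨k, m, hm, h⟩ := Nat.exists_eq_two_pow_mul_odd (Int.natAbs_ne_zero.2 hn)
  rcases Int.natAbs_eq n with h1 | h1
  · refine ⟨k, m, by exact_mod_cast hm, ?_⟩
    rw [h1, h]
    push_cast
    ring
  · refine ⟨k, -m, Odd.neg (by exact_mod_cast hm), ?_⟩
    rw [h1, h]
    push_cast
    ring

private theorem v_rat {z : ℚ} (hz : z ≠ 0) :
    ∃ k : ℤ, (AA hQ h2).valuation (algebraMap ℚ Ω z * 2 ^ k - 1) < 1 := by
  obtain ⟨a, c, hc, hac⟩ := int_fac (Rat.num_ne_zero.2 hz)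
  obtain ⟨b, d, hd, hbd⟩ := int_fac (n := (z.den : ℤ)) (by exact_mod_cast z.den_ne_zero)
  have h20 : (2 : Ω) ≠ 0 := two_ne_zero
  have hd0 : (d : Ω) ≠ 0 := by
    have : d ≠ 0 := by
      rintro rfl
      exact absurd hd (by decide)
    exact_mod_cast this
  refine ⟨(b : ℤ) - a, ?_⟩
  have e : algebraMap ℚ Ω z * 2 ^ ((b : ℤ) - a) = (c : Ω) * (d : Ω)⁻¹ := by
    rw [eq_ratCast, Rat.cast_def]
    have e1 : ((z.num : ℤ) : Ω) = 2 ^ a * c := by
      rw [hac]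
      push_cast
      rfl
    have e2 : ((z.den : ℕ) : Ω) = 2 ^ b * d := by
      have : (((z.den : ℤ)) : Ω) = 2 ^ b * d := by
        rw [hbd]
        push_cast
        rfl
      rwa [Int.cast_natCast] at this
    rw [e1, e2, zpow_sub₀ h20, zpow_natCast, zpow_natCast]
    field_simp
  rw [e]
  exact u_mul _ (v_odd hQ h2 hc) (u_inv _ (v_odd hQ h2 hd))

/-- ring automorphisms are linear over the rational numbers -/
private noncomputable def ra (g : Ω ≃+* Ω) : Ω ≃ₐ[ℚ] Ω :=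
  AlgEquiv.ofRingEquiv (f := g) (fun r => by rw [eq_ratCast]; exact map_ratCast g r)

private theorem ra_smul (g : Ω ≃+* Ω) (y : 𝓞 Ω) : ra g • y = HP.og g y := RingOfIntegers.ext rfl

private theorem mem_stab {σ : Ω ≃ₐ[ℚ] Ω} (hσ : σ ∈ MulAction.stabilizer (Ω ≃ₐ[ℚ] Ω) Q) :
    (σ : Ω ≃+* Ω) ∈ stb Q := by
  refine HP.mem_stb.2 fun y => ?_
  have e1 : HP.og (σ : Ω ≃+* Ω) y = σ • y := RingOfIntegers.ext rfl
  rw [e1]
  have e2 := Ideal.smul_mem_pointwise_smul_iff (a := σ) (S := Q) (x := y)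
  rw [MulAction.mem_stabilizer_iff.1 hσ] at e2
  exact e2.symm

private theorem v_imm (x : Ω) (hx : x ≠ 0) (hfix : ∀ g ∈ stb Q, g x = x) :
    ∃ k : ℤ, (AA hQ h2).valuation (x * 2 ^ k - 1) < 1 := by
  obtain ⟨M, hnf, w, hxM, hw, z, y, hz0, hyz, hz1⟩ := gimm Q (v0 hQ h2) rfl x hx
    (fun σ hσ => hfix _ (mem_stab hσ))
  have h3 := (lay_lt hQ h2 M w hw _).2 hz1
  rw [map_sub, map_mul, map_inv₀, map_one, hyz] at h3
  have e2 : algebraMap M Ω ⟨x, hxM⟩ = x := rfl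
  rw [e2] at h3
  obtain ⟨k, hk⟩ := v_rat hQ h2 hz0
  refine ⟨k, ?_⟩
  have h4 := u_mul _ (u_inv _ h3) hk
  have hzΩ : algebraMap ℚ Ω z ≠ 0 := (map_ne_zero _).2 hz0
  have e3 : (x⁻¹ * algebraMap ℚ Ω z)⁻¹ * (algebraMap ℚ Ω z * 2 ^ k) = x * 2 ^ k := by
    field_simp
  rwa [e3] at h4

include hQ h2 in
private theorem v_cls (g : Ω ≃+* Ω) (hfix : ∀ x, (∀ h ∈ stb Q, h x = x) → g x = x) : g ∈ stb Q := by
  rw [HP.mem_stb]
  intro a
  have h1 := gcls Q (v0 hQ h2) rfl (ra g) (fun x hx => hfix x fun h hh => ?_) a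
  · rw [ra_smul] at h1
    exact h1
  · refine hx (ra h) ?_
    rw [MulAction.mem_stabilizer_iff]
    ext y
    rw [Ideal.mem_pointwise_smul_iff_inv_smul_mem]
    have h3 : (ra h)⁻¹ • y ∈ Q ↔ HP.og h ((ra h)⁻¹ • y) ∈ Q := HP.mem_stb.1 hh _
    rw [h3, ← ra_smul, smul_inv_smul]

end facts

end val

theorem exists_val {Ω : Type u} [Field Ω] [CharZero Ω] [IsAlgClosed Ω] (halg : Alg Ω)
    {Q : Ideal (𝓞 Ω)} (hQ : Q.IsPrime) (h2 : (2 : 𝓞 Ω) ∈ Q) :
    ∃ (Γ : Type u) (_ : LinearOrderedCommGroupWithZero Γ) (v : Valuation Ω Γ), VD (stb Q) v := by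
  have hgal : IsGalois ℚ Ω := isGal halg
  exact ⟨(AA hQ h2).ValueGroup, inferInstance, (AA hQ h2).valuation,
    { inv := fun g hg x => v_inv hQ h2 hg x
      two := v_two hQ h2
      imm := v_imm hQ h2
      cls := v_cls hQ h2
      tor := v_tor hQ h2
      res := v_res hQ h2 }⟩

end Pool.Agent.Work.MP_787500_nt.EF
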