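import Mathlib
import Pool.Agent.Work.MP_787500_nt.EF.UB
import Pool.Agent.Work.MP_787500_nt.EF.Val
import Pool.Agent.Work.MP_787500_nt.EU.Main
import Pool.Agent.Work.MP_787500_nt.GA.LocBQ

/-!
# The local Euler characteristic at 2

`euler_Q`: for the decomposition group of a prime above 2 over the rational numbers and every finite module `U` killed
by 2 the number of cocycles is `card U ^ 2 * card (invD υ)`. `euler_big`: the same for the systems `big (fullC (stb Q)) N`.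
-/

set_option autoImplicit false
set_option linter.unusedSectionVars false

namespace Pool.Agent.Work.MP_787500_nt.EF

open NumberField
open Pool.Agent.Work.MP_787500_nt.GP (A0 IsAct d0)
open Pool.Agent.Work.MP_787500_nt.HP (Alg stb fsys)
open Pool.Agent.Work.MP_787500_nt.HN
open Pool.Agent.Work.MP_787500_nt.HP (cyQ)
open Pool.Agent.Work.MP_787500_nt.KR (FSys big two res fullC CountsF Z1 Sm1 Smooth Opn)
open Pool.Agent.Work.MP_787500_nt.EU (Simp invD)
open Pool.Agent.Work.MP_787500_nt.GA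
open Pool.Agent.Work.MP_787500_nt.RQ (LocF)

universe u v

/-- The cocycles for `big F N` if some member of `big F N` acts trivially. -/
theorem z1_big' {G : Type*} [Group G] {F : FSys G} {U : Type*} [AddCommGroup U] {υ : G → U → U}
    [Finite U] {N : Subgroup G} (h2 : ∀ u : U, u + u = 0) (h : IsAct υ)
    (hs : Smooth (big F N) υ) {x : G → U} : Z1 (big F N) υ x ↔ Z1 F υ x := by
  constructor
  · rintro ⟨⟨W, ⟨-, ⟨V, hV, hVW⟩, -⟩, h1⟩, h2⟩
    exact ⟨⟨V, hV, fun g w hw => h1 g w (hVW hw)⟩, h2⟩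
  · rintro ⟨⟨W, hW, h1⟩, hx⟩
    refine ⟨?_, hx⟩
    obtain ⟨W₀, ⟨hW₀n, ⟨V, hV, hVN⟩, k₀, hk₀⟩, htr⟩ := hs
    have hx1 : x 1 = 0 := EU.z1_one h hx
    let φ : W₀ →* Multiplicative U :=
      { toFun := fun g => Multiplicative.ofAdd (x g)
        map_one' := by
          show Multiplicative.ofAdd (x 1) = 1
          rw [hx1]
          rfl
        map_mul' := fun a b => by
          show Multiplicative.ofAdd (x (a * b)) = _
          rw [hx, htr a a.2]
          rfl }
    have hk : ∀ a : W₀, a ∈ φ.ker ↔ x a = 0 := fun a => Iff.rfl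
    let W' : Subgroup G := φ.ker.map W₀.subtype
    have hW' : ∀ g, g ∈ W' ↔ g ∈ W₀ ∧ x g = 0 := by
      intro g
      constructor
      · rintro ⟨a, ha, rfl⟩
        exact ⟨a.2, (hk a).1 ha⟩
      · rintro ⟨hg, hg'⟩
        exact ⟨⟨g, hg⟩, (hk _).2 hg', rfl⟩
    have hW'n : W'.Normal := by
      refine ⟨fun w hw g => ?_⟩
      rw [hW'] at hw ⊢
      refine ⟨hW₀n.conj_mem w hw.1 g, ?_⟩
      have h3 : x g + υ g (x g⁻¹) = 0 := by rw [← hx, mul_inv_cancel, hx1]
      rw [hx, hx, hw.2, h.zero, add_zero, h.mul, htr w hw.1, h3]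
    refine ⟨W', ⟨hW'n, ⟨W ⊓ V, F.inf hW hV, fun g hg => ?_⟩, ?_⟩, fun g w hw => ?_⟩
    · rw [hW']
      refine ⟨hVN hg.2, ?_⟩
      have h3 := h1 1 g hg.1
      rw [one_mul, hx1] at h3
      exact h3
    · have h4 : W'.relIndex W₀ = φ.ker.index := by
        show (W'.subgroupOf W₀).index = _
        congr 1
        ext a
        rw [Subgroup.mem_subgroupOf, hW', hk]
        exact ⟨fun h => h.2, fun h => ⟨a.2, h⟩⟩
      rw [Subgroup.index_ker] at h4
      have h5 : Nat.card φ.range ∣ Nat.card (Multiplicative U) :=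
        Subgroup.card_subgroup_dvd_card _
      obtain ⟨m, hm⟩ := EU.card_two_pow (U := U) h2
      have h6 : Nat.card (Multiplicative U) = 2 ^ m := hm
      rw [h6, ← h4] at h5
      have hle : W' ≤ W₀ := fun g hg => ((hW' g).1 hg).1
      have h7 := Subgroup.relIndex_inf_mul_relIndex W' W₀ N
      rw [inf_eq_left.2 hle, hk₀] at h7
      have h8 : W'.relIndex (W₀ ⊓ N) ∣ W'.relIndex W₀ := by
        have h9 : W'.relIndex (W₀ ⊓ N) = (W'.subgroupOf W₀).relIndex (N.subgroupOf W₀) := by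
          rw [← Subgroup.relIndex_subgroupOf (H := W') (K := W₀ ⊓ N) (L := W₀) inf_le_left]
          congr 1
          ext a
          simp [Subgroup.mem_subgroupOf]
        rw [h9]
        exact Subgroup.relIndex_dvd_index_of_normal _ _
      rw [← h7]
      obtain ⟨j, -, hj⟩ := (Nat.dvd_prime_pow Nat.prime_two).1 (h8.trans h5)
      exact ⟨j + k₀, by rw [hj, pow_add]⟩
    · rw [hx, ((hW' w).1 hw).2, h.zero, add_zero]

variable {Ω : Type u} [Field Ω] [CharZero Ω] [IsAlgClosed Ω]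

/-- THE LOCAL EULER CHARACTERISTIC AT 2. -/
theorem euler_Q (halg : Alg Ω) (α : AlgebraicClosure ℚ ≃+* Ω) {Q : Ideal (𝓞 Ω)} (hQ : Q.IsPrime)
    (h2 : (2 : 𝓞 Ω) ∈ Q) {iv ivF : (stb Q → stb Q → A0) → A0}
    (hG : GP.LocH (fsys (stb Q)) (fun d : stb Q => cyQ (d : Ω ≃+* Ω)) iv)
    (hF : LocF (stb Q) iv ivF) {U : Type v} [AddCommGroup U] [Finite U] {υ : stb Q → U → U}
    (hact : IsAct υ) (hs : Smooth (fullC (stb Q)) υ) (hU : ∀ u : U, u + u = 0) :
    Nat.card {x : stb Q → U // Z1 (fullC (stb Q)) υ x} = Nat.card U ^ 2 * Nat.card (invD υ) := by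
  classical
  have hb : Q ≠ ⊥ := by
    rintro rfl
    exact two_ne_zero ((Ideal.mem_bot).1 h2)
  have hc : CountsF (fullC (stb Q)) 1 := by
    have h := countsF_Q α hQ hb
    rwa [if_pos h2] at h
  obtain ⟨Γ, _, v, hv⟩ := exists_val halg hQ h2
  exact EU.euler_of_simp (fun N => locB_Q α hQ hb hG hF N) hc
    (fun hact hs h2 hS hn => ub_simple halg hv hc hact hs h2 hS hn) hact hs hU

/-- The same for the system `big`. -/
theorem euler_big (halg : Alg Ω) (α : AlgebraicClosure ℚ ≃+* Ω) {Q : Ideal (𝓞 Ω)} (hQ : Q.IsPrime)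
    (h2 : (2 : 𝓞 Ω) ∈ Q) {iv ivF : (stb Q → stb Q → A0) → A0}
    (hG : GP.LocH (fsys (stb Q)) (fun d : stb Q => cyQ (d : Ω ≃+* Ω)) iv)
    (hF : LocF (stb Q) iv ivF) {N : Subgroup (stb Q)} {U : Type v} [AddCommGroup U] [Finite U]
    {υ : stb Q → U → U} (hact : IsAct υ) (hs : Smooth (big (fullC (stb Q)) N) υ)
    (hU : ∀ u : U, u + u = 0) :
    Nat.card {x : stb Q → U // Z1 (big (fullC (stb Q)) N) υ x} =
      Nat.card U ^ 2 * Nat.card (invD υ) := by
  have hs' : Smooth (fullC (stb Q)) υ := by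
    obtain ⟨W, ⟨-, ⟨V, hV, hVW⟩, -⟩, h1⟩ := hs
    exact ⟨V, hV, fun w hw => h1 w (hVW hw)⟩
  rw [← euler_Q halg α hQ h2 hG hF hact hs' hU]
  exact Nat.card_congr (Equiv.subtypeEquivRight fun x => z1_big' hU hact hs)

end Pool.Agent.Work.MP_787500_nt.EF
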