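import Mathlib
import Pool.Agent.Work.MP_787500_nt.KT.Basic
import Pool.Agent.Work.MP_787500_nt.KR.ADefs
import Pool.Agent.Work.MP_787500_nt.EU.Defs

/-!
# The dimension of a Lagrangian subspace at 2

`U = F ^ n` symplectic, `card Z1(U) = card U ^ 2 * card (invD U)` (the local Euler characteristic at 2, `EF.euler_big`). Every
subspace `X` of the cocycles that is its own annihilator has `2 * finrank X = 3 * n`.
-/

set_option autoImplicit false
set_option linter.unusedSectionVars false

namespace Pool.Agent.Work.MP_787500_nt.EF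

open Matrix
open Pool.Agent.Work.MP_787500_nt.GP (A0 hf hf_add hf_zero hf_two hf_neg smul_hf eq_hf hf_inj IsAct d0 d1
  d2 tw cup11 cup21 cup12 cup01 cup02 perpL card_perp exists_rep)
open Pool.Agent.Work.MP_787500_nt.KR
open Pool.Agent.Work.MP_787500_nt.KS (hfT hfT_apply hfT_neg)
open Pool.Agent.Work.MP_787500_nt.KT
open Pool.Agent.Work.MP_787500_nt.EU (invD)

variable {F : Type*} [Field F] [Finite F] [CharP F 2] [Algebra (ZMod 2) F] {n : ℕ} [Sy F n]

section inv

variable {D : Type*} [Group D] {A : D →* Matrix (Fin n) (Fin n) F}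

/-- the fixed vectors -/
def fxV (A : D → Matrix (Fin n) (Fin n) F) : Submodule F (Fin n → F) where
  carrier := {u | ∀ g, A g *ᵥ u = u}
  add_mem' := fun {a b} ha hb g => by rw [mulVec_add, ha, hb]
  zero_mem' := fun g => mulVec_zero _
  smul_mem' := fun c x hx g => by rw [mulVec_smul, hx]

theorem card_invD (hA : ∀ g, IsSp (A g)) :
    Nat.card (invD (KT.act (A : D → Matrix (Fin n) (Fin n) F))) = Nat.card (fxV (A : D → _)) := by
  have hfinU : Finite (Fin n → F) := inferInstance
  -- the functional of a vector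
  let T : (Fin n → F) → ((Fin n → F) →+ ZMod 2) := fun u =>
    { toFun := fun w => Algebra.trace (ZMod 2) F (ee u w)
      map_zero' := by rw [ee_zero_right, map_zero]
      map_add' := fun a b => by rw [ee_add_right, map_add] }
  have hT : ∀ u w, hf (T u w) = (BU : (Fin n → F) →+ (Fin n → F) →+ A0) u w := fun u w => rfl
  have hinj : Function.Injective T := by
    intro u u' h
    rw [← sub_eq_zero]
    refine BU_nondeg fun y => ?_
    rw [map_sub, AddMonoidHom.sub_apply, ← hT, ← hT, h, sub_self]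
  have hinv : ∀ u, (∀ g, A g *ᵥ u = u) → T u ∈ invD (KT.act (A : D → Matrix (Fin n) (Fin n) F)) := by
    intro u hu g w
    show Algebra.trace (ZMod 2) F (ee u (A g *ᵥ w)) = Algebra.trace (ZMod 2) F (ee u w)
    conv_lhs => rw [← hu g]
    rw [ee_mulVec (hA g)]
  refine (Nat.card_congr (Equiv.ofBijective (fun u : fxV (A : D → _) => (⟨T u.1, hinv u.1 u.2⟩ :
    invD (KT.act (A : D → Matrix (Fin n) (Fin n) F)))) ⟨fun u u' h => ?_, fun l => ?_⟩)).symm
  · exact Subtype.ext (hinj (congrArg Subtype.val h))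
  · let φ : (Fin n → F) →+ A0 := AddMonoidHom.mk' (fun w => hf (l.1 w)) (fun a b => by
      rw [map_add, hf_add])
    obtain ⟨u, hu⟩ := exists_rep (BU : (Fin n → F) →+ (Fin n → F) →+ A0) φ (fun a ha => by
      have h0 : a = 0 := BU_nondeg ha
      rw [h0, map_zero])
    have hl : ∀ w, T u w = l.1 w := by
      intro w
      apply hf_inj
      rw [hT, BU_symm]
      exact hu w
    have hfx : ∀ g, A g *ᵥ u = u := by
      intro g
      apply hinj
      refine DFunLike.ext _ _ fun w => ?_
      have h1 : w = A g *ᵥ (A g⁻¹ *ᵥ w) := by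
        rw [mulVec_mulVec, ← map_mul, mul_inv_cancel, map_one, one_mulVec]
      have h2 : l.1 (A g⁻¹ *ᵥ w) = l.1 w := l.2 g⁻¹ w
      rw [hl w, ← h2, ← hl]
      show Algebra.trace (ZMod 2) F (ee (A g *ᵥ u) w) = Algebra.trace (ZMod 2) F (ee u (A g⁻¹ *ᵥ w))
      conv_lhs => rw [h1]
      rw [ee_mulVec (hA g)]
    exact ⟨⟨u, hfx⟩, Subtype.ext (DFunLike.ext _ _ hl)⟩

theorem card_cobS : Nat.card (cobS (A : D → Matrix (Fin n) (Fin n) F)) * Nat.card (fxV (A : D → _)) =
    Nat.card (Fin n → F) := by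
  let c : (Fin n → F) →ₗ[F] (D → Fin n → F) :=
    { toFun := fun m g => A g *ᵥ m + m
      map_add' := fun a b => by
        funext g
        rw [Pi.add_apply, mulVec_add]
        abel
      map_smul' := fun a b => by
        funext g
        rw [Pi.smul_apply, mulVec_smul, smul_add]
        rfl }
  have hker : LinearMap.ker c = fxV (A : D → _) := by
    ext m
    rw [LinearMap.mem_ker]
    constructor
    · intro h g
      have h1 : A g *ᵥ m + m = 0 := congrFun h g
      have h2 : m + m = 0 := by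
        ext i
        exact CharTwo.add_self_eq_zero (m i)
      calc A g *ᵥ m = A g *ᵥ m + (m + m) := by rw [h2, add_zero]
        _ = (A g *ᵥ m + m) + m := by abel
        _ = m := by rw [h1, zero_add]
    · intro h
      funext g
      show A g *ᵥ m + m = 0
      rw [h g]
      ext i
      exact CharTwo.add_self_eq_zero (m i)
  have hrange : LinearMap.range c = cobS (A : D → Matrix (Fin n) (Fin n) F) := by
    ext x
    rw [LinearMap.mem_range]
    constructor
    · rintro ⟨m, rfl⟩
      exact ⟨m, fun g => rfl⟩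
    · rintro ⟨m, hm⟩
      exact ⟨m, (funext hm).symm⟩
  rw [← hrange, ← hker]
  have h1 := (c.quotKerEquivRange).toEquiv
  have h2 := Nat.card_congr h1
  rw [← h2, Submodule.card_eq_card_quotient_mul_card (LinearMap.ker c), mul_comm]

end inv

section lag

variable {D : Type*} [Group D] {SD : FSys D} {χ : D → ℤ_[2]} {iv : (D → D → A0) → A0}
  {A : D →* Matrix (Fin n) (Fin n) F}

/-- a self-annihilating subspace: `card X ^ 2 = card Z1 * card B1` -/
theorem lag_card (L : LocH SD χ iv) (hA : ∀ g, IsSp (A g)) (hs : Smooth SD (KT.act A))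
    (ld : LDual SD iv (KT.act A) (KT.act A) (BU : (Fin n → F) →+ (Fin n → F) →+ A0))
    {X : Submodule F (D → Fin n → F)}
    (hX : ∀ x, x ∈ X ↔ Z1 SD (KT.act A) x ∧ ∀ y ∈ X, iv (cup11 (KT.act A) BU x y) = 0) :
    Nat.card X * Nat.card X = Nat.card (cocS SD (A : D → Matrix (Fin n) (Fin n) F)) *
      Nat.card (cobS (A : D → Matrix (Fin n) (Fin n) F)) := by
  have hfin : Finite (cocS SD (A : D → Matrix (Fin n) (Fin n) F)) := ld.fin
  let β : cocS SD (A : D → Matrix (Fin n) (Fin n) F) →+
      cocS SD (A : D → Matrix (Fin n) (Fin n) F) →+ A0 :=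
    AddMonoidHom.mk' (fun z => AddMonoidHom.mk' (fun t => iv (cup11 (KT.act A) BU z.1 t.1))
        (fun t t' => inv_add_right L hA hs z.2 t.2 t'.2))
      (fun z z' => by
        refine DFunLike.ext _ _ fun t => ?_
        exact inv_add_left L hA hs z.2 z'.2 t.2)
  have hβ : ∀ z t, β z t = iv (cup11 (KT.act A) BU z.1 t.1) := fun z t => rfl
  let Λ : AddSubgroup (cocS SD (A : D → Matrix (Fin n) (Fin n) F)) :=
    (X.comap (cocS SD (A : D → Matrix (Fin n) (Fin n) F)).subtype).toAddSubgroup
  have hΛ : ∀ z, z ∈ Λ ↔ z.1 ∈ X := fun z => Iff.rfl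
  have hcob : ∀ z : cocS SD (A : D → Matrix (Fin n) (Fin n) F),
      (∀ t, β z t = 0) ↔ z.1 ∈ cobS (A : D → Matrix (Fin n) (Fin n) F) := by
    intro z
    constructor
    · intro h
      obtain ⟨m, hm⟩ := ld.one z.1 z.2 fun y hy => h ⟨y, hy⟩
      exact ⟨m, fun g => by rw [hm, d0_act]⟩
    · intro h t
      exact inv_cob_left L hA hs h t.2
  have h1 := card_perp β Λ (fun a ha => by
    rw [hΛ, hX]
    refine ⟨a.2, fun y hy => ?_⟩
    exact ha ⟨y, ((hX y).1 hy).1⟩)
  have h2 : perpL β Λ = Λ := by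
    ext t
    rw [hΛ, hX]
    constructor
    · intro h
      refine ⟨t.2, fun y hy => ?_⟩
      have hy' : Z1 SD (KT.act A) y := ((hX y).1 hy).1
      rw [inv_symm L hA hs t.2 hy']
      exact h ⟨y, hy'⟩ hy
    · intro h z hz
      rw [hβ, inv_symm L hA hs z.2 t.2]
      exact h.2 z.1 hz
  have h3 : Nat.card Λ = Nat.card X := by
    refine Nat.card_congr ⟨fun z => ⟨z.1.1, z.2⟩, fun x => ⟨⟨x.1, ((hX x.1).1 x.2).1⟩, x.2⟩,
      fun z => rfl, fun x => rfl⟩
  have h4 : Nat.card (perpL β.flip ⊤) = Nat.card (cobS (A : D → Matrix (Fin n) (Fin n) F)) := by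
    refine Nat.card_congr ⟨fun z => ⟨z.1.1, (hcob z.1).1 fun t => z.2 t trivial⟩,
      fun x => ⟨⟨x.1, ?_⟩, fun t _ => (hcob ⟨x.1, ?_⟩).2 x.2 t⟩, fun z => rfl, fun x => rfl⟩
    all_goals
      obtain ⟨m, hm⟩ := x.2
      have h5 : x.1 = d0 (KT.act A) m := by
        funext g
        rw [hm, d0_act]
      rw [mem_cocS, h5]
      exact d0_Z1 (isAct_act A) hs m
  rw [h2, h3, h4] at h1
  exact h1

/-- THE DIMENSION of a self-annihilating subspace at 2. -/
theorem lag_dim (L : LocH SD χ iv) (hA : ∀ g, IsSp (A g)) (hs : Smooth SD (KT.act A))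
    (ld : LDual SD iv (KT.act A) (KT.act A) (BU : (Fin n → F) →+ (Fin n → F) →+ A0))
    (hE : Nat.card {x : D → Fin n → F // Z1 SD (KT.act A) x} =
      Nat.card (Fin n → F) ^ 2 * Nat.card (invD (KT.act (A : D → Matrix (Fin n) (Fin n) F))))
    {X : Submodule F (D → Fin n → F)}
    (hX : ∀ x, x ∈ X ↔ Z1 SD (KT.act A) x ∧ ∀ y ∈ X, iv (cup11 (KT.act A) BU x y) = 0) :
    2 * Module.finrank F X = 3 * n := by
  have hfin : Finite (cocS SD (A : D → Matrix (Fin n) (Fin n) F)) := ld.fin
  have h1 := lag_card L hA hs ld hX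
  have h2 : Nat.card (cocS SD (A : D → Matrix (Fin n) (Fin n) F)) =
      Nat.card (Fin n → F) ^ 2 * Nat.card (fxV (A : D → _)) := by
    rw [← card_invD hA]
    exact hE
  have hXfin : Finite X := by
    refine Finite.of_injective (fun x : X => (⟨x.1, ((hX x.1).1 x.2).1⟩ :
      cocS SD (A : D → Matrix (Fin n) (Fin n) F))) fun x x' h => ?_
    have h' : x.1 = x'.1 := congrArg (fun z : cocS SD (A : D → Matrix (Fin n) (Fin n) F) => z.1) h
    exact Subtype.ext h'
  have h3 : Nat.card X = Nat.card F ^ Module.finrank F X := Module.natCard_eq_pow_finrank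
  have h4 : Nat.card (Fin n → F) = Nat.card F ^ n := by
    rw [Module.natCard_eq_pow_finrank (K := F), Module.finrank_fin_fun]
  have h5 : Nat.card X * Nat.card X = Nat.card (Fin n → F) ^ 3 := by
    have h6 := card_cobS (A := A)
    have key : ∀ a b c z x : ℕ, x = z * b → z = a ^ 2 * c → b * c = a → x = a ^ 3 := by
      intro a b c z x hx hz hb
      rw [hx, hz]
      calc a ^ 2 * c * b = a ^ 2 * (b * c) := by ring
        _ = a ^ 2 * a := by rw [hb]
        _ = a ^ 3 := by ring
    exact key _ _ _ _ _ h1 h2 h6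
  rw [h3, h4, ← pow_add, ← pow_mul] at h5
  have hq : 1 < Nat.card F := Finite.one_lt_card
  have h6 := Nat.pow_right_injective hq h5
  omega

end lag

end Pool.Agent.Work.MP_787500_nt.EF
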